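import Mathlib
import Pool.Agent.TH881.RQ.Defs2

/-! Job 2920 (RQ-A2): the moment inequalities for polynomials modulo a primorial, from the abstract one. -/

set_option autoImplicit false

namespace Pool.Agent.TH761.J2920

open Finset Filter Topology Polynomial
open Pool.Agent.TH881
open Pool.Agent.TH881.RG
open Pool.Agent.H373R2.T7
open Pool.Agent.TH881.RQ

open Classical in
/-- the abstract moment inequality (job RQ-A1) -/
def StAbs : Prop := ∀ (ι : Type) [Fintype ι] (X Y : ι → Type) [∀ i, Fintype (X i)] [∀ i, Fintype (Y i)]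
    [∀ i, Nonempty (Y i)] (bad : ∀ i, X i → Y i → Prop)
    (_ : ∀ i, ∀ x x' : X i, (∀ y, bad i x y ↔ bad i x' y) ∨ (∀ y, ¬ (bad i x y ∧ bad i x' y)))
    (s : ∀ i, X i → ℝ)
    (_ : ∀ i x, s i x = 1 - ((univ.filter (fun y => bad i x y)).card : ℝ) / Fintype.card (Y i))
    (T : ι → ℝ) (_ : ∀ i, T i = ∑ x, s i x) (_ : ∀ i, 0 < T i)
    (c b : ι → ℝ) (_ : ∀ i, 1 ≤ b i) (_ : ∀ i x, s i x = 0 ∨ 1 ≤ b i * s i x) (_ : ∀ i, 0 ≤ c i)
    (_ : ∀ i, ∀ x : X i, (∃ y, bad i x y) →
      ∑ x' ∈ univ.filter (fun x' => ∀ y, bad i x' y ↔ bad i x y), s i x' ≤ c i * T i)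
    (K k : ℕ) (_ : 1 ≤ K) (_ : 1 ≤ k) (e : (∀ i, X i) → ℝ) (_ : ∀ x, 0 ≤ e x) (_ : ∀ x, e x ≤ 1)
    (S : ℝ) (_ : S = ∑ x, e x * ∏ i, s i (x i)) (_ : 0 < S),
    (∑ y : (∀ i, Y i), (∑ x, if ∀ i, ¬ bad i (x i) (y i) then e x else 0) ^ K) /
        (Fintype.card (∀ i, Y i) : ℝ) ≤
      S ^ K * (((∏ i, T i) / S) ^ K * (∏ i, (1 + (K : ℝ) * c i * (b i ^ k - 1))) ^ (K - 1)) ^ (1 / (k : ℝ))

section loc

variable (pr : Bool) (g : ℤ[X]) (σ : ℤ) (p : ℕ)

/-- local arguments -/
abbrev LA : Type := {a : ZMod p // pr = true → a ≠ 0}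

/-- value of `g` modulo `p` -/
noncomputable def gl (a : ZMod p) : ZMod p := (g.map (Int.castRingHom (ZMod p))).eval a

variable [hp : Fact p.Prime]

lemma card_LA : Fintype.card (LA pr p) = Aq pr p := by
  classical
  have h : Fintype.card (LA pr p) = (univ.filter fun a : ZMod p => pr = true → a ≠ 0).card := by
    apply Fintype.card_of_subtype
    intro x
    simp
  rw [h]
  unfold Aq
  split_ifs with hpr
  · have : (univ.filter fun a : ZMod p => pr = true → a ≠ 0) = univ.erase 0 := by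
      ext a
      simp [hpr]
    rw [this, card_erase_of_mem (mem_univ _), card_univ, ZMod.card]
  · have : (univ.filter fun a : ZMod p => pr = true → a ≠ 0) = univ := by
      ext a
      simp [hpr]
    rw [this, card_univ, ZMod.card]

lemma Aq_pos : 0 < Aq pr p := by
  unfold Aq
  have := hp.out.two_le
  split_ifs <;> omega

instance instNonemptyLA : Nonempty (LA pr p) := ⟨⟨1, fun _ => one_ne_zero⟩⟩

lemma gl_cast (a : ℤ) : gl g p (a : ZMod p) = ((g.eval a : ℤ) : ZMod p) := by
  unfold gl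
  rw [Polynomial.eval_intCast_map]
  rfl

lemma nuq_eq (t : ZMod p) [DecidablePred fun y : LA pr p => gl g p y.1 = t] :
    (univ.filter fun y : LA pr p => gl g p y.1 = t).card = nuq pr g p t.val := by
  classical
  unfold nuq
  have key : ∀ a : ZMod p, ((p : ℤ) ∣ g.eval ((a.val : ℕ) : ℤ) - (t.val : ℕ)) ↔ gl g p a = t := by
    intro a
    rw [← ZMod.intCast_zmod_eq_zero_iff_dvd, Int.cast_sub, ← gl_cast]
    rw [Int.cast_natCast, Int.cast_natCast, ZMod.natCast_zmod_val, ZMod.natCast_zmod_val, sub_eq_zero]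
  apply card_bij (fun y _ => y.1.val)
  · intro y hy
    rw [mem_filter] at hy ⊢
    refine ⟨mem_range.2 (ZMod.val_lt _), fun h hd => ?_, (key y.1).2 hy.2⟩
    apply y.2 h
    rw [← ZMod.natCast_zmod_val y.1]
    exact (ZMod.natCast_eq_zero_iff _ _).2 hd
  · intro a _ b _ h
    exact Subtype.ext (ZMod.val_injective p h)
  · intro b hb
    rw [mem_filter, mem_range] at hb
    obtain ⟨hb1, hb2, hb3⟩ := hb
    have hv : ((b : ZMod p)).val = b := ZMod.val_cast_of_lt hb1
    refine ⟨⟨(b : ZMod p), fun h h0 => hb2 h ((ZMod.natCast_eq_zero_iff _ _).1 h0)⟩, ?_, hv⟩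
    rw [mem_filter]
    refine ⟨mem_univ _, ?_⟩
    apply (key (b : ZMod p)).1
    rw [hv]
    exact hb3

lemma mq_lt : mq pr g p < Aq pr p := by
  unfold mq
  rw [Finset.sup_lt_iff]
  · intro t ht
    exact (mem_filter.1 ht).2
  · exact Aq_pos pr p

omit hp in
lemma uq_nonneg : 0 ≤ uq pr g p := by
  unfold uq
  positivity

lemma uq_lt : uq pr g p < 1 := by
  unfold uq
  have h : (0 : ℝ) < Aq pr p := by exact_mod_cast Aq_pos pr p
  rw [div_lt_one h]
  exact_mod_cast mq_lt pr g p

omit hp in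
lemma nuq_le_mq (t : ℕ) (ht : t < p) (h : nuq pr g p t < Aq pr p) : nuq pr g p t ≤ mq pr g p := by
  unfold mq
  exact Finset.le_sup (f := nuq pr g p) (mem_filter.2 ⟨mem_range.2 ht, h⟩)

lemma nuq_le_Aq (t : ZMod p) : nuq pr g p t.val ≤ Aq pr p := by
  classical
  rw [← nuq_eq, ← card_LA]
  exact card_filter_le _ _

/-- the bad pairs -/
def bd (x : ZMod p) (y : LA pr p) : Prop := x + (σ : ZMod p) * gl g p y.1 = 0

lemma sq_one (hσ : σ = 1 ∨ σ = -1) : (σ : ZMod p) * (σ : ZMod p) = 1 := by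
  rcases hσ with rfl | rfl <;> simp

lemma bd_iff (hσ : σ = 1 ∨ σ = -1) (x : ZMod p) (y : LA pr p) :
    bd pr g σ p x y ↔ gl g p y.1 = -((σ : ZMod p) * x) := by
  unfold bd
  have h := sq_one σ p hσ
  constructor
  · intro h1
    linear_combination (σ : ZMod p) * h1 - gl g p y.1 * h
  · intro h1
    linear_combination (σ : ZMod p) * h1 - x * h

lemma bd_iff' (x : ZMod p) (y : LA pr p) :
    bd pr g σ p x y ↔ x = -((σ : ZMod p) * gl g p y.1) := by
  unfold bd
  rw [add_eq_zero_iff_eq_neg]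

/-- number of bad `y` for `x` -/
lemma card_bd (hσ : σ = 1 ∨ σ = -1) (x : ZMod p) [DecidablePred fun y : LA pr p => bd pr g σ p x y] :
    (univ.filter fun y : LA pr p => bd pr g σ p x y).card = nuq pr g p (-((σ : ZMod p) * x)).val := by
  classical
  rw [← nuq_eq]
  congr 1
  ext y
  simp only [mem_filter, mem_univ, true_and]
  exact bd_iff pr g σ p hσ x y

lemma card_bd' (y : LA pr p) [DecidablePred fun x : ZMod p => bd pr g σ p x y] :
    (univ.filter fun x : ZMod p => bd pr g σ p x y).card = 1 := by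
  rw [card_eq_one]
  refine ⟨-((σ : ZMod p) * gl g p y.1), ?_⟩
  ext x
  simp only [mem_filter, mem_univ, true_and, mem_singleton]
  exact bd_iff' pr g σ p x y

/-- the sum of the local weights, first case -/
lemma sum_s1 (s : ZMod p → ℝ) (inst : ∀ x, DecidablePred fun y : LA pr p => bd pr g σ p x y)
    (hs : ∀ x, s x = 1 - ((univ.filter fun y : LA pr p => bd pr g σ p x y).card : ℝ) /
      Fintype.card (LA pr p)) : ∑ x, s x = (p : ℝ) - 1 := by
  classical
  have hc : (0 : ℝ) < Fintype.card (LA pr p) := by exact_mod_cast Fintype.card_pos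
  have h1 : ∑ x : ZMod p, ((univ.filter fun y : LA pr p => bd pr g σ p x y).card : ℝ) =
      Fintype.card (LA pr p) := by
    have h2 : ∑ x : ZMod p, (univ.filter fun y : LA pr p => bd pr g σ p x y).card =
        ∑ y : LA pr p, (univ.filter fun x : ZMod p => bd pr g σ p x y).card := by
      simp only [card_filter]
      exact sum_comm
    have h3 : ∑ x : ZMod p, (univ.filter fun y : LA pr p => bd pr g σ p x y).card =
        Fintype.card (LA pr p) := by
      rw [h2, sum_congr rfl (fun y _ => card_bd' pr g σ p y)]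
      simp
    exact_mod_cast h3
  rw [sum_congr rfl (fun x _ => hs x), sum_sub_distrib, ← sum_div]
  rw [h1, div_self hc.ne']
  simp [ZMod.card]

end loc

lemma univ_any {α : Type} (i1 i2 : Fintype α) (f : α → ℝ) :
    ∑ x ∈ @univ α i1, f x = ∑ x ∈ @univ α i2, f x := by
  rw [Subsingleton.elim i1 i2]

lemma card_any {α : Type} (i1 i2 : Fintype α) : @Fintype.card α i1 = @Fintype.card α i2 := by
  rw [Subsingleton.elim i1 i2]

section glob

variable (pr : Bool) (g : ℤ[X]) (σ : ℤ) (w : ℕ)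

/-- the index set -/
abbrev I (w : ℕ) : Type := {p : ℕ // p ∈ pz w}

instance instFactI (i : I w) : Fact (i.1).Prime := ⟨(mem_pz.1 i.2).2⟩

lemma exists_equiv : Nonempty (ZMod (Wp w) ≃+* ∀ i : I w, ZMod i.1) := by
  have hW : Wp w = ∏ i : I w, i.1 := by
    unfold Wp
    exact (prod_coe_sort (pz w) (fun p => p)).symm
  have hcop : Pairwise (Function.onFun Nat.Coprime (fun i : I w => i.1)) := by
    intro i j hij
    show Nat.Coprime i.1 j.1
    rw [Nat.coprime_primes (mem_pz.1 i.2).2 (mem_pz.1 j.2).2]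
    exact fun h => hij (Subtype.ext h)
  rw [hW]
  exact ⟨ZMod.prodEquivPi (fun i : I w => i.1) hcop⟩

variable {w} (φ : ZMod (Wp w) ≃+* ∀ i : I w, ZMod i.1)

lemma unit_iff (x : ZMod (Wp w)) : IsUnit x ↔ ∀ i, φ x i ≠ 0 := by
  rw [← MulEquiv.isUnit_map φ, Pi.isUnit_iff]
  exact forall_congr' fun i => isUnit_iff_ne_zero

lemma map_gv (a : ZMod (Wp w)) (i : I w) : φ (gv g w a) i = gl g i.1 (φ a i) := by
  unfold gv gl
  have h := Polynomial.hom_eval₂ g (Int.castRingHom (ZMod (Wp w)))
    ((Pi.evalRingHom (fun i : I w => ZMod i.1) i).comp φ.toRingHom) a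
  rw [Polynomial.eval_map, Polynomial.eval_map]
  have h2 : ((Pi.evalRingHom (fun i : I w => ZMod i.1) i).comp φ.toRingHom).comp
      (Int.castRingHom (ZMod (Wp w))) = Int.castRingHom (ZMod i.1) := RingHom.ext_int _ _
  rw [h2] at h
  exact h

lemma gd_iff (t a : ZMod (Wp w)) :
    gd g σ w t a ↔ ∀ i, φ t i + (σ : ZMod i.1) * gl g i.1 (φ a i) ≠ 0 := by
  unfold gd
  rw [unit_iff φ]
  apply forall_congr'
  intro i
  rw [map_add, map_mul, map_intCast, Pi.add_apply, Pi.mul_apply, map_gv, Pi.intCast_apply]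

lemma mem_AA (a : ZMod (Wp w)) : a ∈ AA pr w ↔ ∀ i, pr = true → φ a i ≠ 0 := by
  unfold AA
  simp only [mem_filter, mem_univ, true_and]
  rw [unit_iff φ]
  constructor
  · intro h i hp
    exact h hp i
  · intro h hp i
    exact h i hp

lemma sum_AA (F : ZMod (Wp w) → ℝ) :
    ∑ a ∈ AA pr w, F a = ∑ y : (∀ i : I w, LA pr i.1), F (φ.symm (fun i => (y i).1)) := by
  classical
  symm
  apply sum_bij (fun (y : ∀ i : I w, LA pr i.1) _ => φ.symm (fun i => (y i).1))
  · intro y _
    rw [mem_AA pr φ]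
    intro i
    rw [φ.apply_symm_apply]
    exact (y i).2
  · intro y _ y' _ h
    have h2 := φ.symm.injective h
    funext i
    exact Subtype.ext (congrFun h2 i)
  · intro a ha
    rw [mem_AA pr φ] at ha
    refine ⟨fun i => ⟨φ a i, ha i⟩, mem_univ _, ?_⟩
    exact φ.symm_apply_apply a
  · intro y _
    rfl

lemma card_AA : ((AA pr w).card : ℝ) = Fintype.card (∀ i : I w, LA pr i.1) := by
  obtain ⟨φ⟩ := exists_equiv w
  have h := sum_AA pr φ (fun _ => 1)
  simpa using h

end glob

theorem stMIq_of (h : StAbs) (pr : Bool) (g : ℤ[X]) (σ : ℤ) (hσ : σ = 1 ∨ σ = -1) : StMIq pr g σ := by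
  intro w K k hK hk e he0 he1 S hS hS0
  obtain ⟨φ⟩ := exists_equiv w
  classical
  have hp2 : ∀ i : I w, (2 : ℝ) ≤ (i.1 : ℝ) := fun i => by
    exact_mod_cast (mem_pz.1 i.2).2.two_le
  have hAq : ∀ i : I w, (0 : ℝ) < Fintype.card (LA pr i.1) := fun i => by
    exact_mod_cast Fintype.card_pos
  have hwt : ∀ t, wtq pr g σ w t = ∏ i : I w, (1 - ((univ.filter
      (fun y : LA pr i.1 => bd pr g σ i.1 (φ t i) y)).card : ℝ) / Fintype.card (LA pr i.1)) := by
    intro t
    unfold wtq
    rw [card_AA, Fintype.card_pi, Nat.cast_prod]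
    have h1 : (((AA pr w).filter (fun a => gd g σ w t a)).card : ℝ) =
        ∏ i : I w, ((univ.filter (fun y : LA pr i.1 => ¬ bd pr g σ i.1 (φ t i) y)).card : ℝ) := by
      have h2 := sum_AA pr φ (fun a => if gd g σ w t a then (1 : ℝ) else 0)
      rw [← sum_filter, sum_const, nsmul_eq_mul, mul_one] at h2
      rw [h2, ← sum_filter, sum_const, nsmul_eq_mul, mul_one, ← Nat.cast_prod,
        ← Fintype.card_piFinset]
      congr 2
      ext y
      simp only [mem_filter, mem_univ, true_and, Fintype.mem_piFinset]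
      rw [gd_iff g σ φ, φ.apply_symm_apply]
      rfl
    rw [h1, ← prod_div_distrib]
    apply prod_congr rfl
    intro i _
    have h3 := card_filter_add_card_filter_not (s := (univ : Finset (LA pr i.1)))
      (fun y : LA pr i.1 => bd pr g σ i.1 (φ t i) y)
    rw [card_univ] at h3
    have h4 : ((univ.filter (fun y : LA pr i.1 => ¬ bd pr g σ i.1 (φ t i) y)).card : ℝ) =
        Fintype.card (LA pr i.1) -
          ((univ.filter (fun y : LA pr i.1 => bd pr g σ i.1 (φ t i) y)).card : ℝ) := by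
      rw [eq_sub_iff_add_eq, add_comm]
      exact_mod_cast h3
    rw [h4, sub_div, div_self (hAq i).ne']
  have main := h (I w) (fun i => ZMod i.1) (fun i => LA pr i.1) (fun i => bd pr g σ i.1)
    (fun i x x' => by
      by_cases hx : x = x'
      · left
        intro y
        rw [hx]
      · right
        rintro y ⟨h1, h2⟩
        exact hx (((bd_iff' pr g σ i.1 x y).1 h1).trans ((bd_iff' pr g σ i.1 x' y).1 h2).symm))
    (fun i x => 1 - ((univ.filter (fun y : LA pr i.1 => bd pr g σ i.1 x y)).card : ℝ) /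
      Fintype.card (LA pr i.1)) (fun i x => by congr!)
    (fun i => (i.1 : ℝ) - 1) (fun i => by
      symm
      exact sum_s1 pr g σ i.1 _ (fun x => inferInstance) (fun x => by congr!))
    (fun i => by have := hp2 i; linarith)
    (fun i => 1 / ((i.1 : ℝ) - 1)) (fun i => 1 / (1 - uq pr g i.1))
    (fun i => by
      have h1 := uq_nonneg pr g i.1
      have h2 := uq_lt pr g i.1
      rw [le_div_iff₀ (by linarith)]
      linarith)
    (fun i x => by
      have h2 := uq_lt pr g i.1
      have h3 := card_bd pr g σ i.1 hσ x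
      have h4 := nuq_le_Aq pr g i.1 (-((σ : ZMod i.1) * x))
      have hA := card_LA pr i.1
      have hA' := hAq i
      rw [hA] at hA'
      rcases h4.eq_or_lt with h5 | h5
      · left
        show 1 - _ = (0 : ℝ)
        rw [h3, h5, hA, div_self hA'.ne', sub_self]
      · right
        have h6 := nuq_le_mq pr g i.1 _ (ZMod.val_lt _) h5
        show (1 : ℝ) ≤ _ * (1 - _)
        rw [h3, hA, div_mul_eq_mul_div, one_mul, le_div_iff₀ (by linarith), one_mul]
        have h7 : ((nuq pr g i.1 (-((σ : ZMod i.1) * x)).val : ℕ) : ℝ) / Aq pr i.1 ≤ uq pr g i.1 := by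
          unfold uq
          apply div_le_div_of_nonneg_right _ hA'.le
          exact_mod_cast h6
        linarith)
    (fun i => by
      have := hp2 i
      apply div_nonneg zero_le_one
      linarith)
    (fun i x hx => by
      obtain ⟨y, hy⟩ := hx
      have h1 := hp2 i
      have h2 : (univ.filter (fun x' : ZMod i.1 => ∀ y : LA pr i.1, bd pr g σ i.1 x' y ↔
          bd pr g σ i.1 x y)) = {x} := by
        ext x'
        simp only [mem_filter, mem_univ, true_and, mem_singleton]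
        constructor
        · intro h3
          exact ((bd_iff' pr g σ i.1 x' y).1 ((h3 y).2 hy)).trans
            ((bd_iff' pr g σ i.1 x y).1 hy).symm
        · rintro rfl y
          exact Iff.rfl
      have h3 : 1 / ((i.1 : ℝ) - 1) * ((i.1 : ℝ) - 1) = 1 := by
        rw [one_div, inv_mul_cancel₀]
        linarith
      show _ ≤ 1 / ((i.1 : ℝ) - 1) * ((i.1 : ℝ) - 1)
      rw [h3]
      have h4 : ∀ s : ZMod i.1 → ℝ, (∀ x, s x ≤ 1) → ∀ F : Finset (ZMod i.1), F = {x} →
          ∑ x' ∈ F, s x' ≤ 1 := by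
        rintro s hs F rfl
        rw [sum_singleton]
        exact hs x
      refine h4 _ (fun x => ?_) _ ?_
      · have : 0 ≤ ((univ.filter (fun y : LA pr i.1 => bd pr g σ i.1 x y)).card : ℝ) /
          Fintype.card (LA pr i.1) := by positivity
        show 1 - _ ≤ (1 : ℝ)
        linarith
      · rw [← h2])
    K k hK hk (fun x => e (φ.symm x)) (fun x => he0 _) (fun x => he1 _) S
    (by
      rw [hS]
      refine Eq.trans (Fintype.sum_equiv φ.toEquiv _ (fun x => e (φ.symm x) * ∏ i : I w,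
        (1 - ((univ.filter (fun y : LA pr i.1 => bd pr g σ i.1 (x i) y)).card : ℝ) /
          Fintype.card (LA pr i.1))) ?_) (univ_any _ _ _)
      intro t
      show e t * wtq pr g σ w t = e (φ.symm (φ t)) * _
      rw [φ.symm_apply_apply, hwt]
      rfl)
    hS0
  have htot : (Nat.totient (Wp w) : ℝ) = ∏ i : I w, ((i.1 : ℝ) - 1) := by
    rw [Pool.Agent.TH881.totient_Wp]
    unfold Vz
    have : ((Wp w : ℕ) : ℝ) = ∏ p ∈ pz w, (p : ℝ) := by
      unfold Wp
      push_cast
      rfl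
    rw [this, ← prod_mul_distrib, ← prod_coe_sort (pz w)]
    apply prod_congr rfl
    intro i _
    have := hp2 i
    field_simp
  have hMM : MMq (uq pr g) K k w = ∏ i : I w,
      (1 + (K : ℝ) * (1 / ((i.1 : ℝ) - 1)) * ((1 / (1 - uq pr g i.1)) ^ k - 1)) := by
    unfold MMq
    rw [← prod_coe_sort (pz w)]
    apply prod_congr rfl
    intro i _
    rw [mul_one_div]
  rw [htot, hMM]
  refine le_trans (le_of_eq ?_) main
  rw [card_AA, sum_AA pr φ]
  congr 1
  · refine Eq.trans (sum_congr rfl ?_) (univ_any _ _ _)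
    intro y _
    congr 1
    unfold rrq
    refine Eq.trans (Fintype.sum_equiv φ.toEquiv _ (fun x => if ∀ i : I w,
        ¬ bd pr g σ i.1 (x i) (y i) then e (φ.symm x) else 0) ?_) (univ_any _ _ _)
    intro t
    show _ = if ∀ i : I w, ¬ bd pr g σ i.1 (φ t i) (y i) then e (φ.symm (φ t)) else 0
    rw [φ.symm_apply_apply]
    have h1 : gd g σ w t (φ.symm fun i => (y i).1) ↔ ∀ i : I w, ¬ bd pr g σ i.1 (φ t i) (y i) := by
      rw [gd_iff g σ φ, φ.apply_symm_apply]
      rfl
    by_cases h2 : gd g σ w t (φ.symm fun i => (y i).1)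
    · rw [if_pos h2, if_pos (h1.1 h2)]
    · rw [if_neg h2, if_neg (fun h3 => h2 (h1.2 h3))]
  · rw [card_any]

/-- size of a fibre of arguments -/
lemma card_fib (pr : Bool) (g : ℤ[X]) (p : ℕ) [Fact p.Prime] (t : ZMod p)
    [DecidablePred fun y : LA pr p => gl g p y.1 = t] :
    ((univ.filter fun y : LA pr p => gl g p y.1 = t).card : ℝ) ≤ ubq pr g p * Aq pr p := by
  have hA : (0 : ℝ) < Aq pr p := by exact_mod_cast Aq_pos pr p
  rw [nuq_eq]
  unfold ubq
  rw [div_mul_cancel₀ _ hA.ne']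
  have h := Finset.le_sup (f := nuq pr g p) (mem_range.2 (ZMod.val_lt t))
  exact_mod_cast h

theorem stMId_of (h : StAbs) (pr : Bool) (g : ℤ[X]) (σ : ℤ) (hσ : σ = 1 ∨ σ = -1) : StMId pr g σ := by
  intro w K k hK hk e he0 he1 S hS hS0
  obtain ⟨φ⟩ := exists_equiv w
  classical
  have hp2 : ∀ i : I w, (2 : ℝ) ≤ (i.1 : ℝ) := fun i => by
    exact_mod_cast (mem_pz.1 i.2).2.two_le
  have hAq : ∀ i : I w, (0 : ℝ) < Fintype.card (LA pr i.1) := fun i => by
    exact_mod_cast Fintype.card_pos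
  have hpos : ∀ i : I w, (0 : ℝ) < 1 - 1 / (i.1 : ℝ) := fun i => by
    have := hp2 i
    rw [sub_pos, div_lt_one (by linarith)]
    linarith
  have hVz : Vz w = ∏ i : I w, (1 - 1 / (i.1 : ℝ)) := by
    unfold Vz
    rw [← prod_coe_sort (pz w)]
  have main := h (I w) (fun i => LA pr i.1) (fun i => ZMod i.1) (fun i y x => bd pr g σ i.1 x y)
    (fun i y y' => by
      by_cases hx : gl g i.1 y.1 = gl g i.1 y'.1
      · left
        intro x
        rw [bd_iff', bd_iff', hx]
      · right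
        rintro x ⟨h1, h2⟩
        exact hx (((bd_iff pr g σ i.1 hσ x y).1 h1).trans ((bd_iff pr g σ i.1 hσ x y').1 h2).symm))
    (fun i _ => 1 - 1 / (i.1 : ℝ)) (fun i y => by
      have h1 := card_bd' pr g σ i.1 y
      rw [ZMod.card]
      have h2 : ((univ.filter (fun x : ZMod i.1 => bd pr g σ i.1 x y)).card : ℝ) = 1 := by
        exact_mod_cast h1
      rw [h2])
    (fun i => (Fintype.card (LA pr i.1) : ℝ) * (1 - 1 / (i.1 : ℝ))) (fun i => by
      rw [sum_const, nsmul_eq_mul, card_univ])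
    (fun i => mul_pos (hAq i) (hpos i))
    (fun i => ubq pr g i.1) (fun i => (i.1 : ℝ) / ((i.1 : ℝ) - 1))
    (fun i => by
      have := hp2 i
      rw [le_div_iff₀ (by linarith)]
      linarith)
    (fun i y => by
      right
      have := hp2 i
      apply le_of_eq
      have h1 : (i.1 : ℝ) - 1 ≠ 0 := by linarith
      have h2 : (i.1 : ℝ) ≠ 0 := by linarith
      field_simp)
    (fun i => by
      unfold ubq
      positivity)
    (fun i y _ => by
      have h2 : (univ.filter (fun y' : LA pr i.1 => ∀ x : ZMod i.1, bd pr g σ i.1 x y' ↔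
          bd pr g σ i.1 x y)) = univ.filter (fun y' : LA pr i.1 => gl g i.1 y'.1 = gl g i.1 y.1) := by
        ext y'
        simp only [mem_filter, mem_univ, true_and]
        constructor
        · intro h3
          have h4 := (h3 (-((σ : ZMod i.1) * gl g i.1 y.1))).2 ((bd_iff' pr g σ i.1 _ y).2 rfl)
          have h5 := (bd_iff pr g σ i.1 hσ _ y').1 h4
          have h6 := (bd_iff pr g σ i.1 hσ _ y).1 ((bd_iff' pr g σ i.1 _ y).2 rfl)
          exact h5.trans h6.symm
        · intro h3 x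
          rw [bd_iff', bd_iff', h3]
      have h3 := card_fib pr g i.1 (gl g i.1 y.1)
      have h4 : ∀ F : Finset (LA pr i.1),
          F = univ.filter (fun y' : LA pr i.1 => gl g i.1 y'.1 = gl g i.1 y.1) →
          ∑ _y' ∈ F, (1 - 1 / (i.1 : ℝ)) ≤
            ubq pr g i.1 * ((Fintype.card (LA pr i.1) : ℝ) * (1 - 1 / (i.1 : ℝ))) := by
        rintro F rfl
        rw [sum_const, nsmul_eq_mul, ← mul_assoc]
        apply mul_le_mul_of_nonneg_right _ (hpos i).le
        rw [card_LA]
        exact h3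
      exact h4 _ (by rw [← h2]))
    K k hK hk (fun y => e (φ.symm (fun i => (y i).1))) (fun x => he0 _) (fun x => he1 _) S
    (by
      rw [hS, sum_AA pr φ, hVz]
      exact univ_any _ _ _)
    hS0
  have hT : ∏ i : I w, ((Fintype.card (LA pr i.1) : ℝ) * (1 - 1 / (i.1 : ℝ))) =
      (AA pr w).card * Vz w := by
    rw [prod_mul_distrib, ← hVz, card_AA, Fintype.card_pi, Nat.cast_prod]
  have hMM : MMd (ubq pr g) K k w = ∏ i : I w,
      (1 + (K : ℝ) * ubq pr g i.1 * (((i.1 : ℝ) / ((i.1 : ℝ) - 1)) ^ k - 1)) := by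
    unfold MMd
    rw [← prod_coe_sort (pz w)]
  rw [hMM, ← hT]
  refine le_trans (le_of_eq ?_) main
  have hcard : ((Wp w : ℕ) : ℝ) = Fintype.card (∀ i : I w, ZMod i.1) := by
    have h1 : Fintype.card (∀ i : I w, ZMod i.1) = ∏ i : I w, i.1 := by
      rw [Fintype.card_pi]
      exact prod_congr rfl fun i _ => ZMod.card i.1
    rw [h1]
    unfold Wp
    rw [← prod_coe_sort (pz w)]
  rw [hcard]
  congr 1
  · refine Eq.trans (Fintype.sum_equiv φ.toEquiv _ (fun x => (∑ y : (∀ i : I w, LA pr i.1),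
        if ∀ i : I w, ¬ bd pr g σ i.1 (x i) (y i) then e (φ.symm (fun i => (y i).1)) else 0) ^ K)
        ?_) ((univ_any _ _ _).trans (sum_congr rfl ?_))
    · intro t
      congr 1
      unfold rrd
      rw [sum_AA pr φ]
      apply sum_congr rfl
      intro y _
      show _ = if ∀ i : I w, ¬ bd pr g σ i.1 (φ t i) (y i) then e (φ.symm (fun i => (y i).1)) else 0
      have h1 : gd g σ w t (φ.symm fun i => (y i).1) ↔ ∀ i : I w, ¬ bd pr g σ i.1 (φ t i) (y i) := by
        rw [gd_iff g σ φ, φ.apply_symm_apply]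
        rfl
      by_cases h2 : gd g σ w t (φ.symm fun i => (y i).1)
      · rw [if_pos h2, if_pos (h1.1 h2)]
      · rw [if_neg h2, if_neg (fun h3 => h2 (h1.2 h3))]
    · intro x _
      congr 1
      exact univ_any _ _ _
  · rw [card_any]

end Pool.Agent.TH761.J2920
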