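import Pool.Agent.TH923.DM.Defs

/-!
Job DM-DESC (helper761): the Frobenius descent step.
-/

set_option autoImplicit false

namespace Pool.Agent.TH761.DMDesc

open Polynomial
open Pool.Agent.TH923.DM

universe w

/-- `D z = 0` implies `D (z ^ n) = 0` -/
theorem D_pow {L : Type w} [Field L] (D : Derivation ℤ L L) (z : L) (hz : D z = 0) (n : ℕ) :
    D (z ^ n) = 0 := by
  rw [Derivation.leibniz_pow, hz]
  simp

/-- an additive polynomial of degree at most `p ^ r` with more than `p ^ r` zeros is zero -/
theorem coeff_zero {L : Type w} [Field L] (p : ℕ) (hp : p.Prime) (r : ℕ) (a : ℕ → L)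
    (S : Finset L) (hS : p ^ r < S.card) (h : ∀ z ∈ S, ∑ i ∈ Finset.range (r + 1), a i * z ^ (p ^ i) = 0) :
    ∀ i ≤ r, a i = 0 := by
  set F : L[X] := ∑ i ∈ Finset.range (r + 1), C (a i) * X ^ (p ^ i) with hF
  have hdeg : F.natDegree ≤ p ^ r := by
    rw [hF]
    refine Polynomial.natDegree_sum_le_of_forall_le _ _ fun i hi => ?_
    refine (Polynomial.natDegree_C_mul_X_pow_le _ _).trans ?_
    exact Nat.pow_le_pow_right hp.pos (by have := Finset.mem_range.1 hi; omega)
  have hF0 : F = 0 := by
    refine Polynomial.eq_zero_of_natDegree_lt_card_of_eval_eq_zero' F S (fun z hz => ?_)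
      (lt_of_le_of_lt hdeg hS)
    rw [hF, Polynomial.eval_finsetSum]
    simpa using h z hz
  intro i hi
  have h1 : F.coeff (p ^ i) = a i := by
    rw [hF, Polynomial.finsetSum_coeff, Finset.sum_eq_single i]
    · simp
    · intro j _ hj
      rw [Polynomial.coeff_C_mul, Polynomial.coeff_X_pow, if_neg, mul_zero]
      intro h2
      exact hj (Nat.pow_right_injective hp.two_le h2).symm
    · intro h2
      exact absurd (Finset.mem_range.2 (by omega)) h2
  rw [← h1, hF0, Polynomial.coeff_zero]

theorem lemDESC : S_DESC.{w} := by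
  classical
  intro p _ L _ _ _ D hD g r hgr hg0 M _ hM hr α hα
  have hp : p.Prime := Fact.out
  -- a nonzero element
  have hM0 : M ≠ ⊥ := by
    intro h
    rw [h, finrank_bot] at hr
    omega
  obtain ⟨y, hyM, hy0⟩ := Submodule.exists_mem_ne_zero_of_ne_bot hM0
  have hDz : ∀ z, y * z ∈ M → D z = 0 := by
    intro z hz
    have h1 := hα _ hz
    rw [Derivation.leibniz, hα y hyM] at h1
    simp only [smul_eq_mul] at h1
    have h2 : y * D z = 0 := by linear_combination h1
    rcases mul_eq_zero.1 h2 with h3 | h3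
    · exact absurd h3 hy0
    · exact h3
  set gt : ℕ → L := fun i => g i * y ^ (p ^ i - 1) with hgt
  have hev : ∀ z, y * ∑ i ∈ Finset.range (r + 1), gt i * z ^ (p ^ i) = ev p g r (y * z) := by
    intro z
    unfold ev
    rw [Finset.mul_sum]
    refine Finset.sum_congr rfl fun i _ => ?_
    have h1 : y ^ (p ^ i) = y * y ^ (p ^ i - 1) := by
      rw [← pow_succ']
      congr 1
      have := Nat.pos_of_ne_zero (pow_ne_zero i hp.ne_zero)
      omega
    simp only [hgt]
    rw [mul_pow, h1]
    ring
  have hsum : ∀ z, y * z ∈ M → ∑ i ∈ Finset.range (r + 1), D (gt i) * z ^ (p ^ i) = 0 := by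
    intro z hz
    have h1 : D (∑ i ∈ Finset.range (r + 1), gt i * z ^ (p ^ i)) = 0 := by
      apply hDz
      rw [hev]
      exact hM _ hz
    rw [map_sum] at h1
    rw [← h1]
    refine Finset.sum_congr rfl fun i _ => ?_
    have h3 : D (gt i * z ^ (p ^ i)) = gt i • D (z ^ (p ^ i)) + z ^ (p ^ i) • D (gt i) :=
      D.leibniz _ _
    rw [h3, D_pow D z (hDz z hz)]
    simp only [smul_eq_mul]
    ring
  -- many zeros
  have : Finite M := Module.finite_of_finite (ZMod p)
  have : Fintype M := Fintype.ofFinite M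
  have hcard : Fintype.card M = p ^ Module.finrank (ZMod p) M := by
    rw [Module.card_eq_pow_finrank (K := ZMod p) (V := M), ZMod.card]
  have hinj : Function.Injective (fun x : M => (x : L) / y) := by
    intro a b hab
    have h1 : (a : L) = b := by
      have h2 := congrArg (fun t => t * y) hab
      simpa [div_mul_cancel₀ _ hy0] using h2
    exact Subtype.ext h1
  set S : Finset L := Finset.univ.image (fun x : M => (x : L) / y) with hS
  have hScard : p ^ r < S.card := by
    rw [hS, Finset.card_image_of_injective _ hinj, Finset.card_univ, hcard]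
    exact Nat.pow_lt_pow_right hp.one_lt hr
  have hzero : ∀ i ≤ r, D (gt i) = 0 := by
    refine coeff_zero p hp r (fun i => D (gt i)) S hScard fun z hz => ?_
    obtain ⟨x, _, rfl⟩ := Finset.mem_image.1 hz
    apply hsum
    rw [mul_div_cancel₀ _ hy0]
    exact x.2
  have hroot : ∀ i, ∃ t : L, i ≤ r → t ^ p = gt i := by
    intro i
    by_cases hi : i ≤ r
    · obtain ⟨t, ht⟩ := hD _ (hzero i hi)
      exact ⟨t, fun _ => ht⟩
    · exact ⟨0, fun h => absurd h hi⟩
  choose g' hg' using hroot
  -- the new space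
  have hfrob : ∀ a b : L, (a + b) ^ p = a ^ p + b ^ p := fun a b => add_pow_char a b p
  have hsm : ∀ (c : ZMod p) (z : L), (c • z) ^ p = c • z ^ p := by
    intro c z
    rw [_root_.smul_pow, ZMod.pow_card]
  let M' : Submodule (ZMod p) L :=
    { carrier := {z | y * z ^ p ∈ M}
      add_mem' := by
        intro a b ha hb
        simp only [Set.mem_ofPred_eq] at ha hb ⊢
        rw [hfrob, mul_add]
        exact M.add_mem ha hb
      zero_mem' := by
        simp only [Set.mem_ofPred_eq]
        rw [zero_pow hp.ne_zero, mul_zero]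
        exact M.zero_mem
      smul_mem' := by
        intro c z hz
        simp only [Set.mem_ofPred_eq] at hz ⊢
        rw [hsm, mul_smul_comm]
        exact M.smul_mem c hz }
  have hM'mem : ∀ z, z ∈ M' ↔ y * z ^ p ∈ M := fun z => Iff.rfl
  let φ : M' →ₗ[ZMod p] M :=
    { toFun := fun z => ⟨y * (z : L) ^ p, z.2⟩
      map_add' := by
        intro a b
        apply Subtype.ext
        show y * ((a : L) + b) ^ p = y * (a : L) ^ p + y * (b : L) ^ p
        rw [hfrob, mul_add]
      map_smul' := by
        intro c a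
        apply Subtype.ext
        show y * (c • (a : L)) ^ p = c • (y * (a : L) ^ p)
        rw [hsm, mul_smul_comm] }
  have hφinj : Function.Injective φ := by
    intro a b hab
    have h1 : y * (a : L) ^ p = y * (b : L) ^ p := congrArg Subtype.val hab
    have h2 : (a : L) ^ p = (b : L) ^ p := mul_left_cancel₀ hy0 h1
    exact Subtype.ext (frobenius_inj L p h2)
  have hφsurj : Function.Surjective φ := by
    intro x
    have h1 : D ((x : L) / y) = 0 := by
      apply hDz
      rw [mul_div_cancel₀ _ hy0]
      exact x.2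
    obtain ⟨t, ht⟩ := hD _ h1
    have h2 : y * t ^ p = x := by rw [ht, mul_div_cancel₀ _ hy0]
    refine ⟨⟨t, ?_⟩, ?_⟩
    · rw [hM'mem, h2]; exact x.2
    · apply Subtype.ext
      exact h2
  let e : M' ≃ₗ[ZMod p] M := LinearEquiv.ofBijective φ ⟨hφinj, hφsurj⟩
  refine ⟨g', M', ?_, ?_, ?_, ?_, ?_⟩
  · rw [hg' 0 (Nat.zero_le _)]
    simp [hgt]
  · intro h0
    have h1 := hg' r le_rfl
    rw [h0, zero_pow hp.ne_zero] at h1
    have h2 : gt r ≠ 0 := mul_ne_zero hgr (pow_ne_zero _ hy0)
    exact h2 h1.symm
  · exact Module.Finite.equiv e.symm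
  · intro z hz
    rw [hM'mem] at hz ⊢
    have h1 : (ev p g' r z) ^ p = ∑ i ∈ Finset.range (r + 1), gt i * (z ^ p) ^ (p ^ i) := by
      unfold ev
      rw [sum_pow_char]
      refine Finset.sum_congr rfl fun i hi => ?_
      rw [mul_pow, hg' i (by have := Finset.mem_range.1 hi; omega), ← pow_mul, ← pow_mul, mul_comm p]
    rw [h1, hev]
    exact hM _ hz
  · exact LinearEquiv.finrank_eq e

end Pool.Agent.TH761.DMDesc
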