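import Pool.Agent.H323R2.Gen1

set_option autoImplicit false

/-!
Piece A3-FROB of the project of helper842 (MP_f2f914_nt): the function `R ↦ vv b P q 1 R` takes the same
value at `R / q ^ d!` and at `R` outside the bad set, and `f` modulo `q` is separable for all large `q`.
-/

namespace Pool.Agent.TH761.A3Frob

open Finset Polynomial
open Pool.Agent.H393R2.DC (S Pol V)
open Pool.Agent.H323R2.Gen

/-- a squarefree polynomial whose irreducible factors divide `g` divides `g` -/
theorem dvd_of_factors {k : Type} [Field k] (f g : k[X]) (hf0 : f ≠ 0) (hf : Squarefree f)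
    (h : ∀ p, Irreducible p → p ∣ f → p ∣ g) : f ∣ g := by
  have hrad : IsRadical f := hf.isRadical
  have h1 := UniqueFactorizationMonoid.factors_prod hf0
  have h2 : (UniqueFactorizationMonoid.factors f).prod ∣
      g ^ (Multiset.card (UniqueFactorizationMonoid.factors f)) := by
    have h3 := Multiset.prod_dvd_prod_of_dvd (S := UniqueFactorizationMonoid.factors f)
      (fun p => p) (fun _ => g) (fun p hp =>
        h p (UniqueFactorizationMonoid.irreducible_of_factor p hp)
          (UniqueFactorizationMonoid.dvd_of_mem_factors hp))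
    simpa using h3
  exact hrad _ _ ((h1.symm.dvd).trans h2)

theorem dvd_frob (q : ℕ) [Fact q.Prime] (g : (ZMod q)[X]) (hg0 : g ≠ 0) (hg : g.Separable) (d : ℕ)
    (hd : g.natDegree = d) : g ∣ X ^ q ^ d.factorial - X := by
  refine dvd_of_factors g _ hg0 hg.squarefree fun p hp hpg => ?_
  have h1 : p.natDegree ∣ d.factorial := by
    apply Nat.dvd_factorial hp.natDegree_pos
    rw [← hd]
    exact natDegree_le_of_dvd hpg hg0
  have h2 := (hp.natDegree_dvd_iff_dvd_X_pow_card_pow_sub_X).1 h1
  rwa [Nat.card_zmod] at h2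

section lam
variable (q : ℕ) [Fact q.Prime] (F : (ZMod q)[X]) (d : ℕ) (w : ℕ → ZMod q)

/-- the linear form on `k[X]/(F)` with values `w j` at `X ^ j` -/
noncomputable def Lam (A : (ZMod q)[X]) : ZMod q := ∑ j ∈ range d, (A %ₘ F).coeff j * w j

theorem Lam_add (A B : (ZMod q)[X]) : Lam q F d w (A + B) = Lam q F d w A + Lam q F d w B := by
  unfold Lam
  rw [Polynomial.add_modByMonic, ← Finset.sum_add_distrib]
  refine Finset.sum_congr rfl fun j _ => ?_
  rw [Polynomial.coeff_add]; ring

theorem Lam_smul (c : ZMod q) (A : (ZMod q)[X]) : Lam q F d w (c • A) = c * Lam q F d w A := by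
  unfold Lam
  rw [Polynomial.smul_modByMonic, Finset.mul_sum]
  refine Finset.sum_congr rfl fun j _ => ?_
  rw [Polynomial.coeff_smul, smul_eq_mul]; ring

theorem Lam_sum {ι : Type} (s : Finset ι) (c : ι → ZMod q) (A : ι → (ZMod q)[X]) :
    Lam q F d w (∑ i ∈ s, c i • A i) = ∑ i ∈ s, c i * Lam q F d w (A i) := by
  classical
  induction s using Finset.induction_on with
  | empty => simp [Lam]
  | insert a s ha ih =>
    rw [Finset.sum_insert ha, Finset.sum_insert ha, Lam_add, Lam_smul, ih]

theorem Lam_congr (hF : F.Monic) (A B : (ZMod q)[X]) (h : F ∣ A - B) :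
    Lam q F d w A = Lam q F d w B := by
  unfold Lam
  have : A %ₘ F = B %ₘ F := by
    have h1 : (A - B) %ₘ F = 0 := (Polynomial.modByMonic_eq_zero_iff_dvd hF).2 h
    rw [Polynomial.sub_modByMonic, sub_eq_zero] at h1
    exact h1
  rw [this]

end lam

theorem Lam_pow (f : ℤ[X]) (hf : f.Monic) (d : ℕ) (hd : f.natDegree = d) (hd1 : 1 ≤ d)
    (q : ℕ) [Fact q.Prime] (w : ℕ → ZMod q) (m : ℕ) :
    Lam q (f.map (Int.castRingHom (ZMod q))) d w (X ^ m) =
      ∑ j ∈ range d, (((rho f d m).coeff j : ℤ) : ZMod q) * w j := by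
  have hF : (f.map (Int.castRingHom (ZMod q))).Monic := hf.map _
  have hFd : (f.map (Int.castRingHom (ZMod q))).natDegree = d := by
    rw [hf.natDegree_map, hd]
  rw [Lam_congr q _ d w hF (X ^ m) ((rho f d m).map (Int.castRingHom (ZMod q)))]
  · unfold Lam
    rw [(Polynomial.modByMonic_eq_self_iff hF).2]
    · refine Finset.sum_congr rfl fun j _ => ?_
      rw [Polynomial.coeff_map]; rfl
    · rw [Polynomial.degree_eq_natDegree hF.ne_zero, hFd]
      refine lt_of_le_of_lt (Polynomial.degree_le_natDegree) ?_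
      exact_mod_cast lt_of_le_of_lt (Polynomial.natDegree_map_le) (rho_degree f hf d hd hd1 m)
  · have h1 := rho_dvd f d m
    have h2 := Polynomial.map_dvd (Int.castRingHom (ZMod q)) h1
    simpa using h2

/-- one step -/
theorem Lam_step (f : ℤ[X]) (hf : f.Monic) (d : ℕ) (hd : f.natDegree = d) (hd1 : 1 ≤ d)
    (b : ℕ) (P : ℤ[X]) (q : ℕ) [Fact q.Prime] (hb : (b : ZMod q) ≠ 0) (N R : ℕ) (hR : R ≤ N)
    (hbad : R ∉ badG f d b P q N) (A : (ZMod q)[X]) :
    Lam q (f.map (Int.castRingHom (ZMod q))) d (fun j => vv b P q j (R / q)) A =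
      Lam q (f.map (Int.castRingHom (ZMod q))) d (fun j => vv b P q j R) (A ^ q) := by
  set F := f.map (Int.castRingHom (ZMod q)) with hFdef
  have hF : F.Monic := hf.map _
  have hFd : F.natDegree = d := by rw [hFdef, hf.natDegree_map, hd]
  have hred : ∀ j ∈ range d, vv b P q (j * q) R =
      Lam q F d (fun j => vv b P q j R) (X ^ (j * q)) := by
    intro j hj
    rw [Lam_pow f hf d hd hd1 q]
    apply vv_red f hf d hd hd1
    by_contra hne
    apply hbad
    unfold badG
    rw [Finset.mem_biUnion]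
    exact ⟨j, hj, Finset.mem_filter.2 ⟨Finset.mem_range.2 (by omega), hne⟩⟩
  have hAd : (A %ₘ F).natDegree < d := by
    have := Polynomial.natDegree_modByMonic_lt A hF (by
      intro h1
      rw [h1, Polynomial.natDegree_one] at hFd
      omega)
    rwa [hFd] at this
  have h1 : Lam q F d (fun j => vv b P q j (R / q)) A =
      ∑ j ∈ range d, (A %ₘ F).coeff j * Lam q F d (fun j => vv b P q j R) (X ^ (j * q)) := by
    have h0 : Lam q F d (fun j => vv b P q j (R / q)) A =
        ∑ j ∈ range d, (A %ₘ F).coeff j * vv b P q j (R / q) := rfl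
    rw [h0]
    refine Finset.sum_congr rfl fun j hj => ?_
    rw [vv_frob b P q hb, hred j hj]
  rw [h1, ← Lam_sum]
  have h2 : ∑ j ∈ range d, (A %ₘ F).coeff j • (X ^ (j * q) : (ZMod q)[X]) = (A %ₘ F) ^ q := by
    conv_rhs => rw [Polynomial.as_sum_range_C_mul_X_pow' (p := A %ₘ F) hAd]
    rw [sum_pow_char]
    refine Finset.sum_congr rfl fun j _ => ?_
    rw [mul_pow, ← C_pow, ZMod.pow_card, ← pow_mul, Polynomial.smul_eq_C_mul]
  rw [h2]
  apply Lam_congr q F d _ hF
  have h3 : F ∣ A %ₘ F - A := by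
    have := Polynomial.modByMonic_add_div A F
    refine ⟨-(A /ₘ F), ?_⟩
    linear_combination this
  exact h3.trans (sub_dvd_pow_sub_pow _ _ _)

theorem s_dil (f : ℤ[X]) (hf : f.Monic) (d : ℕ) (hd : f.natDegree = d) (hd2 : 2 ≤ d)
    (b : ℕ) (P : ℤ[X]) (q : ℕ) [Fact q.Prime] (hb : (b : ZMod q) ≠ 0)
    (hsep : (f.map (Int.castRingHom (ZMod q))).Separable) (N R : ℕ) (hR : R ≤ N)
    (hbad : ∀ i < d.factorial, R / q ^ i ∉ badG f d b P q N) :
    vv b P q 1 (R / q ^ d.factorial) = vv b P q 1 R := by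
  set F := f.map (Int.castRingHom (ZMod q)) with hFdef
  have hF : F.Monic := hf.map _
  have hFd : F.natDegree = d := by rw [hFdef, hf.natDegree_map, hd]
  -- the value at `X`
  have hX : ∀ R, Lam q F d (fun j => vv b P q j R) X = vv b P q 1 R := by
    intro R
    unfold Lam
    rw [(Polynomial.modByMonic_eq_self_iff hF).2]
    · rw [Finset.sum_eq_single 1]
      · simp
      · intro j _ hj
        rw [Polynomial.coeff_X_of_ne_one hj, zero_mul]
      · intro h
        exact absurd (Finset.mem_range.2 (by omega)) h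
    · rw [Polynomial.degree_eq_natDegree hF.ne_zero, hFd, Polynomial.degree_X]
      exact_mod_cast hd2
  have key : ∀ n ≤ d.factorial, Lam q F d (fun j => vv b P q j (R / q ^ n)) X =
      Lam q F d (fun j => vv b P q j R) (X ^ q ^ n) := by
    have key' : ∀ n ≤ d.factorial, ∀ A : (ZMod q)[X],
        Lam q F d (fun j => vv b P q j (R / q ^ n)) A =
        Lam q F d (fun j => vv b P q j R) (A ^ q ^ n) := by
      intro n
      induction n with
      | zero => intro _ A; simp
      | succ n ih =>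
        intro hn A
        have h1 : R / q ^ (n + 1) = R / q ^ n / q := by
          rw [pow_succ, Nat.div_div_eq_div_mul]
        rw [h1, Lam_step f hf d hd (by omega) b P q hb N (R / q ^ n)
          ((Nat.div_le_self _ _).trans hR) (hbad n (by omega)) A, ih (by omega) (A ^ q), ← pow_mul,
          pow_succ' q n]
    exact fun n hn => key' n hn X
  have h1 := key d.factorial le_rfl
  rw [hX] at h1
  rw [h1, ← hX R]
  exact Lam_congr q F d _ hF _ _ (dvd_frob q F hF.ne_zero hsep d hFd)

theorem sep_of_large (f : ℤ[X]) (hf : f.Monic) (hirr : Irreducible f) :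
    ∃ D : ℕ, 0 < D ∧ ∀ (q : ℕ) [Fact q.Prime], D ≤ q →
      (f.map (Int.castRingHom (ZMod q))).Separable := by
  have h1 : Irreducible (f.map (Int.castRingHom ℚ)) :=
    (hf.irreducible_iff_irreducible_map_fraction_map (K := ℚ)).1 hirr
  have h2 : (f.map (Int.castRingHom ℚ)).Separable := h1.separable
  obtain ⟨a, b, hab⟩ := h2
  -- clear denominators
  obtain ⟨cA, hcA, hA⟩ := IsLocalization.integerNormalization_spec (nonZeroDivisors ℤ) a
  obtain ⟨cB, hcB, hB⟩ := IsLocalization.integerNormalization_spec (nonZeroDivisors ℤ) b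
  set a' := IsLocalization.integerNormalization (nonZeroDivisors ℤ) a with ha'
  set b' := IsLocalization.integerNormalization (nonZeroDivisors ℤ) b with hb'
  have hcA0 : cA ≠ 0 := nonZeroDivisors.ne_zero hcA
  have hcB0 : cB ≠ 0 := nonZeroDivisors.ne_zero hcB
  have hinj : Function.Injective (Polynomial.map (Int.castRingHom ℚ)) :=
    Polynomial.map_injective _ (RingHom.injective_int _)
  have hA' : a'.map (Int.castRingHom ℚ) = C (cA : ℚ) * a := by
    have : (algebraMap ℤ ℚ) = Int.castRingHom ℚ := rfl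
    rw [← this, hA]
    ext n
    rw [Polynomial.coeff_smul, Polynomial.coeff_C_mul, zsmul_eq_mul]
  have hB' : b'.map (Int.castRingHom ℚ) = C (cB : ℚ) * b := by
    have : (algebraMap ℤ ℚ) = Int.castRingHom ℚ := rfl
    rw [← this, hB]
    ext n
    rw [Polynomial.coeff_smul, Polynomial.coeff_C_mul, zsmul_eq_mul]
  have hZ : C cB * a' * f + C cA * b' * derivative f = C (cA * cB) := by
    apply hinj
    simp only [Polynomial.map_add, Polynomial.map_mul, Polynomial.map_C, hA', hB',
      ← Polynomial.derivative_map]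
    simp only [eq_intCast, Int.cast_mul, Polynomial.C_mul] at *
    linear_combination (C (cA : ℚ) * C (cB : ℚ)) * hab
  refine ⟨(cA * cB).natAbs + 1, Nat.succ_pos _, fun q _ hq => ?_⟩
  have hne : ((cA * cB : ℤ) : ZMod q) ≠ 0 := by
    intro h
    rw [ZMod.intCast_zmod_eq_zero_iff_dvd] at h
    have h3 : cA * cB ≠ 0 := mul_ne_zero hcA0 hcB0
    have h4 := Int.natAbs_dvd_natAbs.2 h
    rw [Int.natAbs_natCast] at h4
    have h5 := Nat.le_of_dvd (Int.natAbs_pos.2 h3) h4
    omega
  have hq' := congrArg (Polynomial.map (Int.castRingHom (ZMod q))) hZ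
  simp only [Polynomial.map_add, Polynomial.map_mul, Polynomial.map_C,
    ← Polynomial.derivative_map] at hq'
  refine ⟨C (((cA * cB : ℤ) : ZMod q)⁻¹) * (C ((Int.castRingHom (ZMod q)) cB) *
      a'.map (Int.castRingHom (ZMod q))),
    C (((cA * cB : ℤ) : ZMod q)⁻¹) * (C ((Int.castRingHom (ZMod q)) cA) *
      b'.map (Int.castRingHom (ZMod q))), ?_⟩
  have h6 : C (((cA * cB : ℤ) : ZMod q)⁻¹) * C ((Int.castRingHom (ZMod q)) (cA * cB)) =
      (1 : (ZMod q)[X]) := by
    rw [← C_mul, eq_intCast, inv_mul_cancel₀ hne, C_1]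
  rw [← h6]
  linear_combination C (((cA * cB : ℤ) : ZMod q)⁻¹) * hq'

end Pool.Agent.TH761.A3Frob
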