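import Mathlib
import Pool.Agent.TH202.Defs
import Pool.Agent.H436R3.Fol.Val
import Pool.Agent.TH84.C8_CONE

set_option autoImplicit false
set_option linter.unusedSectionVars false

namespace Pool.Agent.TH761.C8_POLY
open Pool.Agent.H436R3.Fol Pool.Agent.TH202 MvPolynomial Pool.Agent.TH84.C8_CONE

section Mono

variable {F : Type} [Field F] [Algebra ℂ F] [Algebra (MvPolynomial (Fin 3) ℂ) F]
    [IsFractionRing (MvPolynomial (Fin 3) ℂ) F] [IsScalarTower ℂ (MvPolynomial (Fin 3) ℂ) F]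

/-- The weight of a monomial. -/
def wtm (wt : Fin 3 → ℤ) (m : Fin 3 →₀ ℕ) : ℤ := ∑ i, wt i * (m i : ℤ)

/-- The substitution `X i ↦ x i T ^ wt i`. -/
noncomputable def psi (F : Type) [Field F] [Algebra ℂ F] [Algebra (MvPolynomial (Fin 3) ℂ) F]
    (wt : Fin 3 → ℤ) : MvPolynomial (Fin 3) ℂ →+* HahnSeries ℤ F :=
  eval₂Hom (HahnSeries.C.comp (algebraMap ℂ F))
    (fun i => HahnSeries.single (wt i) (algebraMap (MvPolynomial (Fin 3) ℂ) F (X i)))

theorem psi_monomial (wt : Fin 3 → ℤ) (m : Fin 3 →₀ ℕ) (c : ℂ) :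
    psi F wt (monomial m c) = HahnSeries.single (wtm wt m)
      (algebraMap (MvPolynomial (Fin 3) ℂ) F (monomial m c)) := by
  rw [psi, coe_eval₂Hom, eval₂_monomial, Finsupp.prod_fintype _ _ (by intro i; simp)]
  have h1 : ∀ i, (HahnSeries.single (wt i) (algebraMap (MvPolynomial (Fin 3) ℂ) F (X i))) ^ (m i) =
      HahnSeries.single (wt i * (m i : ℤ)) (algebraMap (MvPolynomial (Fin 3) ℂ) F (X i) ^ m i) := by
    intro i
    rw [HahnSeries.single_pow]
    congr 1
    simp [mul_comm]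
  simp_rw [h1]
  have h2 : monomial m c = C c * ∏ i : Fin 3, (X i : MvPolynomial (Fin 3) ℂ) ^ m i := by
    rw [monomial_eq, Finsupp.prod_fintype _ _ (by intro i; simp)]
  rw [h2, map_mul, map_prod]
  simp only [map_pow, Fin.prod_univ_three, RingHom.comp_apply, wtm, Fin.sum_univ_three]
  have h3 : algebraMap (MvPolynomial (Fin 3) ℂ) F (C c) = algebraMap ℂ F c := by
    rw [IsScalarTower.algebraMap_apply ℂ (MvPolynomial (Fin 3) ℂ) F]
    rfl
  rw [h3, HahnSeries.C_apply, HahnSeries.single_mul_single, HahnSeries.single_mul_single,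
    HahnSeries.single_mul_single, zero_add]

theorem psi_coeff (wt : Fin 3 → ℤ) (q : MvPolynomial (Fin 3) ℂ) (n : ℤ) :
    (psi F wt q).coeff n = algebraMap (MvPolynomial (Fin 3) ℂ) F
      (∑ m ∈ q.support with wtm wt m = n, monomial m (q.coeff m)) := by
  classical
  conv_lhs => rw [q.as_sum]
  rw [map_sum, HahnSeries.coeff_sum, map_sum, Finset.sum_filter]
  refine Finset.sum_congr rfl fun m _ => ?_
  rw [psi_monomial]
  by_cases h : wtm wt m = n
  · rw [if_pos h, ← h, HahnSeries.coeff_single_same]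
  · rw [if_neg h, HahnSeries.coeff_single_of_ne (Ne.symm h)]

theorem psi_coeff_ne (wt : Fin 3 → ℤ) (q : MvPolynomial (Fin 3) ℂ) {m : Fin 3 →₀ ℕ}
    (hm : m ∈ q.support) : (psi F wt q).coeff (wtm wt m) ≠ 0 := by
  classical
  rw [psi_coeff]
  rw [Ne, map_eq_zero_iff _ (IsFractionRing.injective (MvPolynomial (Fin 3) ℂ) F)]
  intro h
  have h1 := congrArg (MvPolynomial.coeff m) h
  rw [coeff_sum, coeff_zero] at h1
  simp only [coeff_monomial] at h1
  rw [Finset.sum_ite_eq' , if_pos (by simp [Finset.mem_filter, hm])] at h1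
  exact (mem_support_iff.1 hm) h1

theorem psi_ne (wt : Fin 3 → ℤ) {q : MvPolynomial (Fin 3) ℂ} (hq : q ≠ 0) : psi F wt q ≠ 0 := by
  obtain ⟨m, hm⟩ := MvPolynomial.support_nonempty.2 hq
  intro h
  apply psi_coeff_ne (F := F) wt q hm
  rw [h]; rfl

theorem psi_inj (wt : Fin 3 → ℤ) : Function.Injective (psi F wt) := by
  rw [injective_iff_map_eq_zero]
  intro q hq
  by_contra h
  exact psi_ne wt h hq

/-- The extension of `psi` to the field. -/
noncomputable def Psi (F : Type) [Field F] [Algebra ℂ F] [Algebra (MvPolynomial (Fin 3) ℂ) F]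
    [IsFractionRing (MvPolynomial (Fin 3) ℂ) F] [IsScalarTower ℂ (MvPolynomial (Fin 3) ℂ) F]
    (wt : Fin 3 → ℤ) : F →+* HahnSeries ℤ F :=
  IsFractionRing.lift (psi_inj (F := F) wt)

theorem Psi_map (wt : Fin 3 → ℤ) (q : MvPolynomial (Fin 3) ℂ) :
    Psi F wt (algebraMap _ F q) = psi F wt q := IsFractionRing.lift_algebraMap _ _

theorem Psi_ne (wt : Fin 3 → ℤ) {f : F} (hf : f ≠ 0) : Psi F wt f ≠ 0 :=
  (map_ne_zero_iff _ (Psi F wt).injective).2 hf

theorem Psi_X (wt : Fin 3 → ℤ) (i : Fin 3) :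
    (Psi F wt (algebraMap _ F (X i : MvPolynomial (Fin 3) ℂ))).order = wt i := by
  rw [Psi_map, psi, coe_eval₂Hom, eval₂_X, HahnSeries.order_single]
  exact (map_ne_zero_iff _ (IsFractionRing.injective (MvPolynomial (Fin 3) ℂ) F)).2 (X_ne_zero i)

/-- The monomial valuation with the given weights. -/
theorem exists_mono (wt : Fin 3 → ℤ) (i₀ : Fin 3) (h0 : wt i₀ = 1 ∨ wt i₀ = -1) :
    ∃ w : DVal F, (∀ i, w.ord (algebraMap _ F (X i : MvPolynomial (Fin 3) ℂ)) = wt i) ∧
      ∀ (q : MvPolynomial (Fin 3) ℂ) (m : Fin 3 →₀ ℕ), m ∈ q.support →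
        w.ord (algebraMap _ F q) ≤ wtm wt m := by
  have hmul : ∀ f g : F, f ≠ 0 → g ≠ 0 →
      (Psi F wt (f * g)).order = (Psi F wt f).order + (Psi F wt g).order := by
    intro f g hf hg
    rw [map_mul, HahnSeries.order_mul (Psi_ne wt hf) (Psi_ne wt hg)]
  refine ⟨⟨fun f => (Psi F wt f).order, hmul, ?_, ?_, ?_⟩, fun i => Psi_X wt i, ?_⟩
  · intro f g hf hg hfg
    have h1 : Psi F wt f + Psi F wt g ≠ 0 := by
      rw [← map_add]; exact Psi_ne wt hfg
    have := HahnSeries.min_order_le_order_add h1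
    show _ ≤ (Psi F wt (f + g)).order
    rw [map_add]
    exact this
  · have hX : algebraMap _ F (X i₀ : MvPolynomial (Fin 3) ℂ) ≠ 0 :=
      (map_ne_zero_iff _ (IsFractionRing.injective (MvPolynomial (Fin 3) ℂ) F)).2 (X_ne_zero i₀)
    rcases h0 with h0 | h0
    · exact ⟨_, hX, by rw [Psi_X, h0]⟩
    · refine ⟨(algebraMap _ F (X i₀ : MvPolynomial (Fin 3) ℂ))⁻¹, inv_ne_zero hX, ?_⟩
      have h1 := hmul _ _ hX (inv_ne_zero hX)
      rw [mul_inv_cancel₀ hX, map_one, HahnSeries.order_one, Psi_X, h0] at h1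
      omega
  · intro c hc
    rw [IsScalarTower.algebraMap_apply ℂ (MvPolynomial (Fin 3) ℂ) F, Psi_map, psi]
    rw [MvPolynomial.algebraMap_eq, coe_eval₂Hom, eval₂_C, RingHom.comp_apply]
    exact HahnSeries.order_C
  · intro q m hm
    show (Psi F wt _).order ≤ _
    rw [Psi_map]
    exact HahnSeries.order_le_of_coeff_ne_zero (psi_coeff_ne wt q hm)

end Mono


section Main

variable {F : Type} [Field F] [Algebra ℂ F] [Algebra (MvPolynomial (Fin 3) ℂ) F]
    [IsFractionRing (MvPolynomial (Fin 3) ℂ) F] [IsScalarTower ℂ (MvPolynomial (Fin 3) ℂ) F]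

/-- The order of a product of integral powers. -/
theorem ord_prod_zpow (v : DVal F) {m : ℕ} (g : Fin m → F) (hg : ∀ i, g i ≠ 0) (x : Fin m → ℤ) :
    v.ord (∏ i, g i ^ x i) = ∑ i, v.ord (g i) * x i := by
  rw [v.ord_prod _ _ (fun i _ => zpow_ne_zero _ (hg i))]
  exact Finset.sum_congr rfl fun i _ => by rw [v.ord_zpow (hg i), mul_comm]

/-- A fraction with nonnegative order at all primes is a polynomial. -/
theorem exists_poly {f : F} (hf : f ≠ 0)
    (h : ∀ (π : MvPolynomial (Fin 3) ℂ) (hπ : Prime π), 0 ≤ (valP F π hπ).ord f) :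
    ∃ q : MvPolynomial (Fin 3) ℂ, f = algebraMap _ F q := by
  obtain ⟨a, b, hab, rfl⟩ := IsFractionRing.exists_reduced_fraction (A := MvPolynomial (Fin 3) ℂ) f
  have hb : (b : MvPolynomial (Fin 3) ℂ) ≠ 0 := nonZeroDivisors.ne_zero b.2
  rw [IsFractionRing.mk'_eq_div] at hf h ⊢
  have ha : a ≠ 0 := by rintro rfl; simp at hf
  by_cases hu : IsUnit (b : MvPolynomial (Fin 3) ℂ)
  · obtain ⟨u, hu⟩ := hu
    refine ⟨a * (u⁻¹ : (MvPolynomial (Fin 3) ℂ)ˣ), ?_⟩
    rw [div_eq_iff ((map_ne_zero_iff _ (IsFractionRing.injective _ F)).2 hb), ← map_mul, mul_assoc,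
      ← hu, Units.inv_mul, mul_one]
  · exfalso
    obtain ⟨π, hπ, hπb⟩ := WfDvdMonoid.exists_irreducible_factor hu hb
    have hp : Prime π := UniqueFactorizationMonoid.irreducible_iff_prime.1 hπ
    have h1 := h π hp
    have h2 : (valP F π hp).ord (algebraMap _ F a / algebraMap _ F (b : MvPolynomial (Fin 3) ℂ)) =
      (multiplicity π a : ℤ) - multiplicity π (b : MvPolynomial (Fin 3) ℂ) := ordP_div hp ha hb
    rw [h2] at h1
    have h3 := dvd_iff_multiplicity_pos.2 hπb
    have h4 : multiplicity π a = 0 := multiplicity_eq_zero.2 fun h5 => hp.not_isUnit (hab h5 hπb)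
    omega

/-- A polynomial not divisible by `X 2` has a monomial free of `X 2`. -/
theorem exists_mem {q : MvPolynomial (Fin 3) ℂ} (h : ¬ X 2 ∣ q) : ∃ m ∈ q.support, m 2 = 0 := by
  by_contra hcon
  push Not at hcon
  apply h
  rw [q.as_sum]
  refine Finset.dvd_sum fun m hm => ?_
  rw [X_dvd_monomial]
  exact Or.inr (hcon m hm)

/-- Associated primes have the same order. -/
theorem ordP_assoc {π π' : MvPolynomial (Fin 3) ℂ} (h : Associated π π') (f : F) :
    ordP π f = ordP π' f := by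
  rw [ordP, ordP, multiplicity_eq_of_associated_left h, multiplicity_eq_of_associated_left h]

/-- An effective real divisor on the affine space that does not contain the plane `X 2 = 0` has
multiplicity at the origin at most the sum of its degrees in `X 0` and `X 1`. -/
theorem poly_level {F : Type} [Field F] [Algebra ℂ F] [Algebra (MvPolynomial (Fin 3) ℂ) F]
    [IsFractionRing (MvPolynomial (Fin 3) ℂ) F] [IsScalarTower ℂ (MvPolynomial (Fin 3) ℂ) F]
    (x : Fin 3 → F) (hx : ∀ i, x i = algebraMap (MvPolynomial (Fin 3) ℂ) F (X i))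
    (P : DVal F → ℝ) (hP : P ∈ Prin F) (A M : ℝ)
    (h1 : ∀ (π : MvPolynomial (Fin 3) ℂ) (hπ : Prime π), ¬ π ∣ X 2 → 0 ≤ P (valP F π hπ))
    (h2 : ∀ w : DVal F, w.ord (x 0) = -1 → w.ord (x 1) = 0 → w.ord (x 2) = 0 → -A ≤ P w)
    (h3 : ∀ w : DVal F, w.ord (x 0) = 0 → w.ord (x 1) = -1 → w.ord (x 2) = 0 → -A ≤ P w)
    (h4 : ∀ w : DVal F, w.ord (x 0) = 1 → w.ord (x 1) = 1 → w.ord (x 2) = 1 → 0 ≤ P w)
    (h5 : ∀ hX : Prime (X 2 : MvPolynomial (Fin 3) ℂ), P (valP F (X 2) hX) ≤ -M) :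
    M ≤ 2 * A := by
  classical
  obtain ⟨W0, hW0, hW0'⟩ := exists_mono (F := F) ![-1, 0, 0] 0 (Or.inr rfl)
  obtain ⟨W1, hW1, hW1'⟩ := exists_mono (F := F) ![0, -1, 0] 1 (Or.inr rfl)
  obtain ⟨G, hG, hG'⟩ := exists_mono (F := F) ![1, 1, 1] 0 (Or.inl rfl)
  have hX2 : Prime (X 2 : MvPolynomial (Fin 3) ℂ) := X_prime
  have e1 := h2 W0 (by rw [hx]; exact hW0 0) (by rw [hx]; exact hW0 1) (by rw [hx]; exact hW0 2)
  have e2 := h3 W1 (by rw [hx]; exact hW1 0) (by rw [hx]; exact hW1 1) (by rw [hx]; exact hW1 2)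
  have e3 := h4 G (by rw [hx]; exact hG 0) (by rw [hx]; exact hG 1) (by rw [hx]; exact hG 2)
  have e4 := h5 hX2
  obtain ⟨m, r, g', hPg⟩ := Submodule.mem_span_set'.1 hP
  choose g hg hgd using fun i => (g' i).2
  have hPv : ∀ v : DVal F, P v = ∑ i, (v.ord (g i) : ℝ) * r i := by
    intro v
    rw [← hPg, Finset.sum_apply]
    refine Finset.sum_congr rfl fun i _ => ?_
    rw [Pi.smul_apply, hgd i, smul_eq_mul, dv, mul_comm]
  set V2 : DVal F := valP F (X 2) hX2 with hV2
  have hinj := IsFractionRing.injective (MvPolynomial (Fin 3) ℂ) F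
  have hX2F : algebraMap _ F (X 2 : MvPolynomial (Fin 3) ℂ) ≠ 0 :=
    (map_ne_zero_iff _ hinj).2 (X_ne_zero 2)
  have hV2X : V2.ord (algebraMap _ F (X 2 : MvPolynomial (Fin 3) ℂ)) = 1 := by
    rw [hV2, valP_ord hX2 (X_ne_zero 2), multiplicity_self]; rfl
  let Φf : F → ℤ := fun f => V2.ord f - W0.ord f - W1.ord f - G.ord f
  -- the key inequality
  have key : ∀ f : F, f ≠ 0 →
      (∀ (π : MvPolynomial (Fin 3) ℂ) (hπ : Prime π), ¬ π ∣ X 2 → 0 ≤ (valP F π hπ).ord f) →
      0 ≤ Φf f := by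
    intro f hf hpos
    set n : ℤ := -V2.ord f with hn
    set f' : F := f * (algebraMap _ F (X 2 : MvPolynomial (Fin 3) ℂ)) ^ n with hf'
    have hf'0 : f' ≠ 0 := mul_ne_zero hf (zpow_ne_zero _ hX2F)
    have hord : ∀ v : DVal F, v.ord f' =
        v.ord f + n * v.ord (algebraMap _ F (X 2 : MvPolynomial (Fin 3) ℂ)) := by
      intro v
      rw [hf', v.map_mul _ _ hf (zpow_ne_zero _ hX2F), v.ord_zpow hX2F]
    have hV2f : V2.ord f' = 0 := by rw [hord, hV2X, hn]; ring
    obtain ⟨q, hq⟩ := exists_poly (F := F) hf'0 (by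
      intro π hπ
      by_cases hd : π ∣ X 2
      · have has : Associated π (X 2) := hπ.irreducible.associated_of_dvd hX2.irreducible hd
        have : (valP F π hπ).ord f' = V2.ord f' := ordP_assoc has f'
        rw [this, hV2f]
      · rw [hord, valP_ord hπ (X_ne_zero 2), multiplicity_eq_zero.2 hd]
        have := hpos π hπ hd
        simpa using this)
    have hq0 : q ≠ 0 := by
      rintro rfl
      rw [map_zero] at hq
      exact hf'0 hq
    have hnd : ¬ X 2 ∣ q := by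
      intro hd
      have h6 := dvd_iff_multiplicity_pos.2 hd
      rw [hq, hV2, valP_ord hX2 hq0] at hV2f
      omega
    obtain ⟨mm, hmm, hmm2⟩ := exists_mem hnd
    have a0 := hW0' q mm hmm
    have a1 := hW1' q mm hmm
    have a2 := hG' q mm hmm
    rw [← hq] at a0 a1 a2
    have b0 := hW0 2
    have b1 := hW1 2
    have b2 := hG 2
    rw [hord, b0] at a0
    rw [hord, b1] at a1
    rw [hord, b2] at a2
    simp only [wtm, Fin.sum_univ_three, Matrix.cons_val_zero, Matrix.cons_val_one,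
      Matrix.cons_val, hmm2] at a0 a1 a2
    show 0 ≤ V2.ord f - W0.ord f - W1.ord f - G.ord f
    push_cast at a0 a1 a2
    omega
  -- the finitely many conditions
  let S : {π : MvPolynomial (Fin 3) ℂ // Prime π ∧ ¬ π ∣ X 2} → Fin m → ℤ :=
    fun s i => (valP F s.1 s.2.1).ord (g i)
  have hfin : (Set.range S).Finite := by
    choose a b hb hgab using fun i => exists_frac (MvPolynomial (Fin 3) ℂ) (g i)
    have ha : ∀ i, a i ≠ 0 := by
      intro i h0
      apply hg i
      rw [hgab i, h0, map_zero, zero_div]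
    set N : MvPolynomial (Fin 3) ℂ := ∏ i, (a i * b i) with hN
    have hN0 : N ≠ 0 := Finset.prod_ne_zero_iff.2 fun i _ => mul_ne_zero (ha i) (hb i)
    let S' : MvPolynomial (Fin 3) ℂ → Fin m → ℤ := fun π i => ordP π (g i)
    apply ((Set.finite_singleton (0 : Fin m → ℤ)).union
      ((UniqueFactorizationMonoid.factors N).toFinset.finite_toSet.image S')).subset
    rintro _ ⟨⟨π, hπ, hπ2⟩, rfl⟩
    by_cases hd : π ∣ N
    · right
      obtain ⟨π', hπ', has⟩ := UniqueFactorizationMonoid.exists_mem_factors_of_dvd hN0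
        hπ.irreducible hd
      refine ⟨π', by simpa using hπ', ?_⟩
      funext i
      exact (ordP_assoc has (g i)).symm
    · left
      rw [Set.mem_singleton_iff]
      funext i
      have hdi : ¬ π ∣ a i * b i := fun h6 => hd (h6.trans (Finset.dvd_prod_of_mem _ (Finset.mem_univ i)))
      show (valP F π hπ).ord (g i) = 0
      rw [hgab i]
      have h7 : (valP F π hπ).ord (algebraMap _ F (a i) / algebraMap _ F (b i)) =
        (multiplicity π (a i) : ℤ) - multiplicity π (b i) := ordP_div hπ (ha i) (hb i)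
      rw [h7, multiplicity_eq_zero.2 fun h8 => hdi (h8.mul_right _),
        multiplicity_eq_zero.2 fun h8 => hdi (h8.mul_left _)]
      rfl
  have hcone := cone_approx S hfin (fun i => Φf (g i)) (by
    intro xx hxx
    have hne : ∏ i, g i ^ xx i ≠ 0 := Finset.prod_ne_zero_iff.2 fun i _ => zpow_ne_zero _ (hg i)
    have h6 := key (∏ i, g i ^ xx i) hne (by
      intro π hπ hπ2
      rw [ord_prod_zpow _ g hg]
      exact hxx ⟨π, hπ, hπ2⟩)
    have h7 : Φf (∏ i, g i ^ xx i) = ∑ i, Φf (g i) * xx i := by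
      show V2.ord _ - W0.ord _ - W1.ord _ - G.ord _ = _
      rw [ord_prod_zpow _ g hg, ord_prod_zpow _ g hg, ord_prod_zpow _ g hg, ord_prod_zpow _ g hg,
        ← Finset.sum_sub_distrib, ← Finset.sum_sub_distrib, ← Finset.sum_sub_distrib]
      refine Finset.sum_congr rfl fun i _ => ?_
      show _ = (V2.ord (g i) - W0.ord (g i) - W1.ord (g i) - G.ord (g i)) * xx i
      ring
    rwa [h7] at h6) r (by
    rintro ⟨π, hπ, hπ2⟩
    have := h1 π hπ hπ2
    rwa [hPv] at this)
  have h8 : ∑ i, (Φf (g i) : ℝ) * r i = P V2 - P W0 - P W1 - P G := by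
    rw [hPv, hPv, hPv, hPv, ← Finset.sum_sub_distrib, ← Finset.sum_sub_distrib,
      ← Finset.sum_sub_distrib]
    refine Finset.sum_congr rfl fun i _ => ?_
    show ((V2.ord (g i) - W0.ord (g i) - W1.ord (g i) - G.ord (g i) : ℤ) : ℝ) * r i = _
    push_cast
    ring
  rw [h8] at hcone
  linarith

end Main

end Pool.Agent.TH761.C8_POLY
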