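import Mathlib
import Pool.Agent.TH278.Defs3
import Pool.Agent.TH554.J639
import Pool.Agent.Helper390.CovarioA
set_option autoImplicit false

/-! # Vertex bounds `VB` from the mixed norm bounds (job 714) -/

namespace Pool.Agent.TH278

open MeasureTheory Set Complex
open scoped ENNReal RealInnerProductSpace
open Pool.Agent.H438R2.RZ (e Good ft Pl Bump TR)
open Pool.Agent.H789R2.FR (E)

namespace J714

open Pool.Agent.TH554.J639 (e_norm e_cont e_add M_int ins_equiv inp_equiv)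
open scoped FourierTransform

variable {n : ℕ}

/-- bounded measurable functions with bounded support are integrable -/
theorem integrable_of {G : Type*} [NormedAddCommGroup G] {g : E n → G}
    (hm : AEStronglyMeasurable g volume) (M B : ℝ) (hM : ∀ z, ‖g z‖ ≤ M)
    (hB : ∀ z, g z ≠ 0 → ‖z‖ ≤ B) : Integrable g := by
  have h1 : IntegrableOn g (Metric.closedBall 0 B) volume := by
    refine Measure.integrableOn_of_bounded ?_ hm (Filter.Eventually.of_forall hM)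
    exact (isCompact_closedBall (0 : E n) B).measure_lt_top.ne
  refine h1.integrable_of_forall_notMem_eq_zero ?_
  intro z hz
  by_contra hne
  apply hz
  simpa using hB z hne

theorem goodN_integrable {f : E n → ℂ} (hf : GoodN f) : Integrable f := by
  obtain ⟨hm, ⟨M, hM⟩, B, hB⟩ := hf
  exact integrable_of hm.aestronglyMeasurable M B hM hB

theorem goodN_memLp {f : E n → ℂ} (hf : GoodN f) : MemLp f 2 := by
  obtain ⟨hm, ⟨M, hM⟩, B, hB⟩ := hf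
  rw [memLp_two_iff_integrable_sq_norm hm.aestronglyMeasurable]
  refine integrable_of (hm.norm.pow_const 2).aestronglyMeasurable (M ^ 2) B ?_ ?_
  · intro z
    rw [Real.norm_of_nonneg (by positivity)]
    exact pow_le_pow_left₀ (norm_nonneg _) (hM z) 2
  · intro z hz
    refine hB z fun h => hz ?_
    simp [h]

theorem lint_sq {X : Type*} [MeasurableSpace X] {μ : Measure X} {h : X → ℂ} (hh : MemLp h 2 μ) :
    ∫⁻ x, ‖h x‖ₑ ^ 2 ∂μ = ENNReal.ofReal (∫ x, ‖h x‖ ^ 2 ∂μ) := by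
  have h1 : Integrable (fun x => ‖h x‖ ^ 2) μ :=
    (memLp_two_iff_integrable_sq_norm hh.1).1 hh
  rw [ofReal_integral_eq_lintegral_ofReal h1 (Filter.Eventually.of_forall fun x => by positivity)]
  refine lintegral_congr fun x => ?_
  rw [ENNReal.ofReal_pow (norm_nonneg _), ofReal_norm]

/-- Fourier transform -/
noncomputable def FT (f : E n → ℂ) (ξ : E n) : ℂ := ∫ y : E n, e (-(⟪y, ξ⟫ : ℝ)) * f y

theorem FT_eq (f : E n → ℂ) (ξ : E n) : FT f ξ = 𝓕 f ξ := by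
  rw [Real.fourier_eq']
  unfold FT e
  refine integral_congr_ae (ae_of_all _ fun y => ?_)
  simp only [smul_eq_mul]
  congr 2
  push_cast
  ring

/-- inverse Fourier transform -/
theorem Fi_eq (U : E n → ℂ) (x : E n) : ∫ ξ : E n, U ξ * e (⟪x, ξ⟫ : ℝ) = 𝓕 U (-x) := by
  rw [Real.fourier_eq']
  refine integral_congr_ae (ae_of_all _ fun ξ => ?_)
  simp only [smul_eq_mul]
  rw [mul_comm]
  unfold e
  congr 2
  rw [inner_neg_right, real_inner_comm]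
  push_cast
  ring

theorem planch {U : E n → ℂ} (h1 : Integrable U) (h2 : MemLp U 2) :
    ∫⁻ x : E n, ‖∫ ξ : E n, U ξ * e (⟪x, ξ⟫ : ℝ)‖ₑ ^ 2 = ∫⁻ ξ, ‖U ξ‖ₑ ^ 2 := by
  obtain ⟨hF, hP⟩ := Pool.Agent.Helper390.Covario.plancherel h1 h2
  have h3 : ∀ x : E n, ‖∫ ξ : E n, U ξ * e (⟪x, ξ⟫ : ℝ)‖ₑ ^ 2 =
      (fun u : E n => ‖𝓕 U u‖ₑ ^ 2) (-x) := by
    intro x
    rw [Fi_eq]
  rw [lintegral_congr h3]
  have h4 := (Measure.measurePreserving_neg (volume : Measure (E n))).lintegral_comp_emb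
    (MeasurableEquiv.neg (E n)).measurableEmbedding (fun u : E n => ‖𝓕 U u‖ₑ ^ 2)
  rw [h4, lint_sq hF, hP, ← lint_sq h2]

theorem planchF {f : E n → ℂ} (hf : GoodN f) :
    MemLp (FT f) 2 ∧ ∫⁻ ξ : E n, ‖FT f ξ‖ₑ ^ 2 = ∫⁻ x, ‖f x‖ₑ ^ 2 := by
  obtain ⟨hF, hP⟩ := Pool.Agent.Helper390.Covario.plancherel (goodN_integrable hf) (goodN_memLp hf)
  have h : FT f = 𝓕 f := funext fun ξ => FT_eq f ξ
  rw [h]
  exact ⟨hF, by rw [lint_sq hF, hP, ← lint_sq (goodN_memLp hf)]⟩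

theorem FT_meas {f : E n → ℂ} (hfm : Measurable f) : Measurable (FT f) := by
  have : StronglyMeasurable (Function.uncurry (fun (ξ y : E n) => e (-(⟪y, ξ⟫ : ℝ)) * f y)) := by
    refine Measurable.stronglyMeasurable ?_
    refine Measurable.mul ?_ (hfm.comp measurable_snd)
    exact (e_cont.comp (by fun_prop)).measurable
  exact this.integral_prod_right.measurable

theorem FT_bd (f : E n → ℂ) (ξ : E n) : ‖FT f ξ‖ ≤ ∫ y, ‖f y‖ := by
  refine (norm_integral_le_integral_norm _).trans (le_of_eq ?_)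
  refine integral_congr_ae (ae_of_all _ fun y => ?_)
  simp [e_norm]

/-- the product of the multiplier and the Fourier transform -/
noncomputable def U (M : ℝ → ℝ) (f : E n → ℂ) (ξ : E n) : ℂ := ((M (‖ξ‖ ^ 2) : ℝ) : ℂ) * FT f ξ

variable {M : ℝ → ℝ}

theorem TR_eq (f : E n → ℂ) (x : E n) : TR n M f x = ∫ ξ : E n, U M f ξ * e (⟪x, ξ⟫ : ℝ) := rfl

theorem U_meas (hM : Continuous M) {f : E n → ℂ} (hf : GoodN f) : Measurable (U M f) := by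
  refine Measurable.mul ?_ (FT_meas hf.1)
  exact (Complex.continuous_ofReal.comp (hM.comp (by fun_prop))).measurable

theorem U_int (hM : Continuous M) (hM2 : ∀ u, 2 < u → M u = 0) {f : E n → ℂ} (hf : GoodN f) :
    Integrable (U M f) :=
  (M_int n M hM hM2).mul_bdd (c := ∫ y, ‖f y‖) (FT_meas hf.1).aestronglyMeasurable
    (ae_of_all _ (FT_bd f))

theorem U_norm {A : ℝ} (hA : ∀ u, |M u| ≤ A) (f : E n → ℂ) (ξ : E n) :
    ‖U M f ξ‖ ≤ A * ‖FT f ξ‖ := by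
  unfold U
  rw [norm_mul, Complex.norm_real, Real.norm_eq_abs]
  gcongr
  exact hA _

theorem U_memLp (hM : Continuous M) {A : ℝ} (hA : ∀ u, |M u| ≤ A) {f : E n → ℂ} (hf : GoodN f) :
    MemLp (U M f) 2 :=
  MemLp.of_le_mul (planchF hf).1 (U_meas hM hf).aestronglyMeasurable (ae_of_all _ (U_norm hA f))

/-- the `L^2` bound -/
theorem TR_l2 (hM : Continuous M) (hM2 : ∀ u, 2 < u → M u = 0) {A : ℝ} (hA0 : 0 ≤ A)
    (hA : ∀ u, |M u| ≤ A) {f : E n → ℂ} (hf : GoodN f) :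
    ∫⁻ x : E n, ‖TR n M f x‖ₑ ^ 2 ≤ ENNReal.ofReal A ^ 2 * ∫⁻ x, ‖f x‖ₑ ^ 2 := by
  have h1 := planch (U_int hM hM2 hf) (U_memLp hM hA hf)
  calc ∫⁻ x : E n, ‖TR n M f x‖ₑ ^ 2 = ∫⁻ ξ, ‖U M f ξ‖ₑ ^ 2 := h1
    _ ≤ ∫⁻ ξ, ENNReal.ofReal A ^ 2 * ‖FT f ξ‖ₑ ^ 2 := by
        refine lintegral_mono fun ξ => ?_
        rw [← mul_pow]
        gcongr
        rw [← ofReal_norm, ← ofReal_norm, ← ENNReal.ofReal_mul hA0]
        exact ENNReal.ofReal_le_ofReal (U_norm hA f ξ)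
    _ = ENNReal.ofReal A ^ 2 * ∫⁻ ξ, ‖FT f ξ‖ₑ ^ 2 :=
        lintegral_const_mul' _ _ (ENNReal.pow_ne_top ENNReal.ofReal_ne_top)
    _ = _ := by rw [(planchF hf).2]

theorem TR_meas (hM : Continuous M) {f : E n → ℂ} (hf : GoodN f) : Measurable (TR n M f) := by
  have : StronglyMeasurable (Function.uncurry (fun (x ξ : E n) => U M f ξ * e (⟪x, ξ⟫ : ℝ))) := by
    refine Measurable.stronglyMeasurable ?_
    refine Measurable.mul ((U_meas hM hf).comp measurable_snd) ?_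
    exact (e_cont.comp (by fun_prop)).measurable
  exact this.integral_prod_right.measurable

/-- the bilinear form in terms of Fourier transforms -/
theorem form_eq (hM : Continuous M) (hM2 : ∀ u, 2 < u → M u = 0) {f h : E n → ℂ} (hf : GoodN f)
    (hh : GoodN h) : ∫ x : E n, TR n M f x * h x =
      ∫ ξ : E n, ((M (‖ξ‖ ^ 2) : ℝ) : ℂ) * FT f ξ * FT h (-ξ) := by
  have hUi := U_int hM hM2 hf
  have hprod : Integrable (fun p : E n × E n => (h p.1 * U M f p.2) * e (⟪p.1, p.2⟫ : ℝ))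
      ((volume : Measure (E n)).prod volume) := by
    refine ((goodN_integrable hh).mul_prod hUi).mul_bdd (c := 1) ?_ ?_
    · exact (e_cont.comp (by fun_prop)).aestronglyMeasurable
    · exact ae_of_all _ fun p => (e_norm _).le
  have hsw := integral_integral_swap (μ := (volume : Measure (E n)))
    (ν := (volume : Measure (E n)))
    (f := fun x ξ => (h x * U M f ξ) * e (⟪x, ξ⟫ : ℝ)) hprod
  calc ∫ x : E n, TR n M f x * h x = ∫ x : E n, ∫ ξ : E n, (h x * U M f ξ) * e (⟪x, ξ⟫ : ℝ) := by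
        refine integral_congr_ae (ae_of_all _ fun x => ?_)
        simp only
        rw [TR_eq, ← integral_mul_const]
        refine integral_congr_ae (ae_of_all _ fun ξ => ?_)
        simp only
        ring
    _ = ∫ ξ : E n, ∫ x : E n, (h x * U M f ξ) * e (⟪x, ξ⟫ : ℝ) := hsw
    _ = _ := by
        refine integral_congr_ae (ae_of_all _ fun ξ => ?_)
        simp only
        unfold FT
        rw [← integral_const_mul]
        refine integral_congr_ae (ae_of_all _ fun x => ?_)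
        simp only [inner_neg_right, neg_neg]
        unfold U FT
        ring

/-- the bilinear form is symmetric -/
theorem form_symm (hM : Continuous M) (hM2 : ∀ u, 2 < u → M u = 0) {f h : E n → ℂ} (hf : GoodN f)
    (hh : GoodN h) : ∫ x : E n, TR n M f x * h x = ∫ x : E n, TR n M h x * f x := by
  rw [form_eq hM hM2 hf hh, form_eq hM hM2 hh hf]
  rw [← integral_neg_eq_self]
  refine integral_congr_ae (ae_of_all _ fun ξ => ?_)
  simp only [norm_neg, neg_neg]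
  ring

/-- Cauchy-Schwarz -/
theorem cs {X : Type*} [MeasurableSpace X] {μ : Measure X} {F G : X → ℝ≥0∞} (hF : Measurable F)
    (hG : Measurable G) : ∫⁻ x, F x * G x ∂μ ≤
      (∫⁻ x, F x ^ 2 ∂μ) ^ (1 / 2 : ℝ) * (∫⁻ x, G x ^ 2 ∂μ) ^ (1 / 2 : ℝ) := by
  have h := ENNReal.lintegral_mul_le_Lp_mul_Lq μ (p := 2) (q := 2) (by
    constructor <;> norm_num) hF.aemeasurable hG.aemeasurable
  simp only [Pi.mul_apply, ENNReal.rpow_ofNat] at h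
  exact h

/-- Hoelder with exponents `4` and `4/3` -/
theorem holder43 {X : Type*} [MeasurableSpace X] {μ : Measure X} {F G : X → ℝ≥0∞}
    (hF : Measurable F) (hG : Measurable G) :
    ∫⁻ x, F x ^ (1 / 2 : ℝ) * G x ^ (1 / 2 : ℝ) ∂μ ≤
      (∫⁻ x, F x ^ 2 ∂μ) ^ (1 / 4 : ℝ) * (∫⁻ x, G x ^ (2 / 3 : ℝ) ∂μ) ^ (3 / 4 : ℝ) := by
  have h := ENNReal.lintegral_mul_le_Lp_mul_Lq μ (p := 4) (q := 4 / 3) (by
    constructor <;> norm_num) (hF.pow_const (1 / 2 : ℝ)).aemeasurable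
      (hG.pow_const (1 / 2 : ℝ)).aemeasurable
  simp only [Pi.mul_apply, ← ENNReal.rpow_mul] at h
  norm_num at h ⊢
  exact h

theorem norm_form_le {X : Type*} [MeasurableSpace X] {μ : Measure X} (F G : X → ℂ) :
    ‖∫ x, F x * G x ∂μ‖ₑ ≤ ∫⁻ x, ‖F x‖ₑ * ‖G x‖ₑ ∂μ := by
  refine (enorm_integral_le_lintegral_enorm _).trans (le_of_eq ?_)
  refine lintegral_congr fun x => ?_
  rw [enorm_mul]

lemma psi_bd (ψ : ℝ → ℝ) (hψ : Bump ψ) : ∃ A : ℝ, 1 ≤ A ∧ ∀ v, |ψ v| ≤ A := by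
  obtain ⟨C, hC⟩ := (isCompact_Icc (a := (1 / 2 : ℝ)) (b := 2)).exists_bound_of_continuousOn
    hψ.1.continuous.continuousOn
  refine ⟨max C 1, le_max_right _ _, fun v => ?_⟩
  by_cases h : ψ v = 0
  · rw [h, abs_zero]
    exact zero_le_one.trans (le_max_right _ _)
  · exact (hC v (hψ.2 v h)).trans (le_max_left _ _)

lemma ML_cont (ψ : ℝ → ℝ) (hψ : Bump ψ) (L : ℝ) : Continuous (ML ψ L) := by
  unfold ML
  exact hψ.1.continuous.comp (by fun_prop)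

lemma ML_zero (ψ : ℝ → ℝ) (hψ : Bump ψ) (L : ℝ) (hL : 0 < L) (u : ℝ) (hu : 2 < u) :
    ML ψ L u = 0 := by
  unfold ML
  by_contra h
  have h1 := (hψ.2 _ h).1
  have h2 : L ^ 2 * (1 - u) ≤ 0 := mul_nonpos_of_nonneg_of_nonpos (by positivity) (by linarith)
  linarith

lemma lint_ins (m : ℕ) (i : Fin (m + 1)) {G : E (m + 1) → ℝ≥0∞} (hG : Measurable G) :
    ∫⁻ x, G x = ∫⁻ s : ℝ, ∫⁻ y : E m, G (ins i s y) := by
  obtain ⟨ι, hι, hmp, -, -⟩ := ins_equiv m i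
  have h1 := hmp.lintegral_comp_emb ι.measurableEmbedding G
  have h2 : ∫⁻ p : ℝ × E m, G (ι p) = ∫⁻ s : ℝ, ∫⁻ y : E m, G (ι (s, y)) :=
    lintegral_prod (fun p => G (ι p)) (hG.comp ι.measurable).aemeasurable
  rw [← h1, h2]
  simp only [hι]

lemma lint_ins' (m : ℕ) (i : Fin (m + 1)) {G : E (m + 1) → ℝ≥0∞} (hG : Measurable G) :
    ∫⁻ x, G x = ∫⁻ y : E m, ∫⁻ s : ℝ, G (ins i s y) := by
  obtain ⟨ι, hι, hmp, -, -⟩ := ins_equiv m i
  have h1 := hmp.lintegral_comp_emb ι.measurableEmbedding G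
  have h2 : ∫⁻ p : ℝ × E m, G (ι p) = ∫⁻ y : E m, ∫⁻ s : ℝ, G (ι (s, y)) :=
    lintegral_prod_symm (fun p => G (ι p)) (hG.comp ι.measurable).aemeasurable
  rw [← h1, h2]
  simp only [hι]

lemma meas_ins (m : ℕ) (i : Fin (m + 1)) :
    Measurable (fun p : ℝ × E m => ins i p.1 p.2) := by
  obtain ⟨ι, hι, -, -, -⟩ := ins_equiv m i
  have : (fun p : ℝ × E m => ins i p.1 p.2) = ι := funext fun p => (hι p).symm
  rw [this]
  exact ι.measurable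

lemma lint_inp (k : ℕ) {G : E (k + 2) → ℝ≥0∞} (hG : Measurable G) :
    ∫⁻ x, G x = ∫⁻ z : ℝ × ℝ, ∫⁻ w : E k, G (inp z w) := by
  obtain ⟨ι, hι, hmp, -, -⟩ := inp_equiv k
  have h1 := hmp.lintegral_comp_emb ι.measurableEmbedding G
  have h2 : ∫⁻ p : (ℝ × ℝ) × E k, G (ι p) = ∫⁻ z : ℝ × ℝ, ∫⁻ w : E k, G (ι (z, w)) :=
    lintegral_prod (fun p => G (ι p)) (hG.comp ι.measurable).aemeasurable
  rw [← h1, h2]
  simp only [hι]

lemma meas_inp (k : ℕ) : Measurable (fun p : (ℝ × ℝ) × E k => inp p.1 p.2) := by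
  obtain ⟨ι, hι, -, -, -⟩ := inp_equiv k
  have : (fun p : (ℝ × ℝ) × E k => inp p.1 p.2) = ι := funext fun p => (hι p).symm
  rw [this]
  exact ι.measurable

lemma sq_rpow_half (a : ℝ≥0∞) : (a ^ 2) ^ (1 / 2 : ℝ) = a := by
  rw [← ENNReal.rpow_natCast, ← ENNReal.rpow_mul]
  norm_num

lemma pow4_rpow (a : ℝ≥0∞) : (a ^ 4) ^ (1 / 4 : ℝ) = a := by
  rw [← ENNReal.rpow_natCast, ← ENNReal.rpow_mul]
  norm_num

lemma fin2 {X Y : ℝ≥0∞} {a c : ℝ} (h : X ≤ ENNReal.ofReal a ^ 2 * Y) (hac : a ≤ c) :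
    X ^ (1 / 2 : ℝ) ≤ ENNReal.ofReal c * Y ^ (1 / 2 : ℝ) := by
  calc X ^ (1 / 2 : ℝ) ≤ (ENNReal.ofReal a ^ 2 * Y) ^ (1 / 2 : ℝ) :=
        ENNReal.rpow_le_rpow h (by norm_num)
    _ = ENNReal.ofReal a * Y ^ (1 / 2 : ℝ) := by
        rw [ENNReal.mul_rpow_of_nonneg _ _ (by norm_num), sq_rpow_half]
    _ ≤ _ := mul_le_mul' (ENNReal.ofReal_le_ofReal hac) le_rfl

lemma fin4 {X Y : ℝ≥0∞} {a c : ℝ} (h : X ≤ ENNReal.ofReal a * Y) (hc : 0 ≤ c) (hac : a ≤ c ^ 4) :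
    X ^ (1 / 4 : ℝ) ≤ ENNReal.ofReal c * Y ^ (1 / 4 : ℝ) := by
  calc X ^ (1 / 4 : ℝ) ≤ (ENNReal.ofReal c ^ 4 * Y) ^ (1 / 4 : ℝ) := by
        refine ENNReal.rpow_le_rpow (h.trans (mul_le_mul' ?_ le_rfl)) (by norm_num)
        rw [← ENNReal.ofReal_pow hc]
        exact ENNReal.ofReal_le_ofReal hac
    _ = _ := by
        rw [ENNReal.mul_rpow_of_nonneg _ _ (by norm_num), pow4_rpow]

/-- the form and the planar mixed norms -/
lemma form_inp (k : ℕ) {T h : E (k + 2) → ℂ} (hT : Measurable T) (hh : Measurable h) :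
    ‖∫ x, T x * h x‖ₑ ≤
      (∫⁻ z : ℝ × ℝ, (∫⁻ w : E k, ‖T (inp z w)‖ₑ ^ 2) ^ 2) ^ (1 / 4 : ℝ) *
        (∫⁻ z : ℝ × ℝ, (∫⁻ w : E k, ‖h (inp z w)‖ₑ ^ 2) ^ (2 / 3 : ℝ)) ^ (3 / 4 : ℝ) := by
  have hTm : Measurable (fun p : (ℝ × ℝ) × E k => ‖T (inp p.1 p.2)‖ₑ) :=
    (hT.comp (meas_inp k)).enorm
  have hhm : Measurable (fun p : (ℝ × ℝ) × E k => ‖h (inp p.1 p.2)‖ₑ) :=
    (hh.comp (meas_inp k)).enorm
  have hF : Measurable (fun z : ℝ × ℝ => ∫⁻ w : E k, ‖T (inp z w)‖ₑ ^ 2) :=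
    (hTm.pow_const 2).lintegral_prod_right'
  have hG : Measurable (fun z : ℝ × ℝ => ∫⁻ w : E k, ‖h (inp z w)‖ₑ ^ 2) :=
    (hhm.pow_const 2).lintegral_prod_right'
  have e1 := norm_form_le (μ := (volume : Measure (E (k + 2)))) T h
  have e2 : ∫⁻ x, ‖T x‖ₑ * ‖h x‖ₑ = ∫⁻ z : ℝ × ℝ, ∫⁻ w : E k, ‖T (inp z w)‖ₑ * ‖h (inp z w)‖ₑ :=
    lint_inp k (G := fun x => ‖T x‖ₑ * ‖h x‖ₑ) (hT.enorm.mul hh.enorm)
  have e3 : ∀ z : ℝ × ℝ, ∫⁻ w : E k, ‖T (inp z w)‖ₑ * ‖h (inp z w)‖ₑ ≤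
      (∫⁻ w : E k, ‖T (inp z w)‖ₑ ^ 2) ^ (1 / 2 : ℝ) *
        (∫⁻ w : E k, ‖h (inp z w)‖ₑ ^ 2) ^ (1 / 2 : ℝ) := by
    intro z
    have t1 : Measurable (fun w : E k => ‖T (inp z w)‖ₑ) := hTm.comp measurable_prodMk_left
    have t2 : Measurable (fun w : E k => ‖h (inp z w)‖ₑ) := hhm.comp measurable_prodMk_left
    exact cs t1 t2
  have e4 := holder43 (μ := (volume : Measure (ℝ × ℝ))) hF hG
  rw [e2] at e1
  exact (e1.trans (lintegral_mono e3)).trans e4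

/-- the form and the norms in one variable -/
lemma form_ins (m : ℕ) (i : Fin (m + 1)) {T h : E (m + 1) → ℂ} (hT : Measurable T)
    (hh : Measurable h) (hh1 : ∀ s : ℝ, ∫⁻ y : E m, ‖h (ins i s y)‖ₑ ^ 2 ≤ 1) :
    ‖∫ x, T x * h x‖ₑ ≤ ∫⁻ s : ℝ, (∫⁻ y : E m, ‖T (ins i s y)‖ₑ ^ 2) ^ (1 / 2 : ℝ) := by
  have hTm : Measurable (fun p : ℝ × E m => ‖T (ins i p.1 p.2)‖ₑ) :=
    (hT.comp (meas_ins m i)).enorm
  have hhm : Measurable (fun p : ℝ × E m => ‖h (ins i p.1 p.2)‖ₑ) :=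
    (hh.comp (meas_ins m i)).enorm
  refine (norm_form_le _ _).trans ?_
  rw [lint_ins m i (G := fun x => ‖T x‖ₑ * ‖h x‖ₑ) (hT.enorm.mul hh.enorm)]
  refine lintegral_mono fun s => ?_
  refine (cs (hTm.comp measurable_prodMk_left) (hhm.comp measurable_prodMk_left)).trans ?_
  have h1 : (∫⁻ y : E m, ‖h (ins i s y)‖ₑ ^ 2) ^ (1 / 2 : ℝ) ≤ 1 := by
    calc (∫⁻ y : E m, ‖h (ins i s y)‖ₑ ^ 2) ^ (1 / 2 : ℝ) ≤ 1 ^ (1 / 2 : ℝ) :=
          ENNReal.rpow_le_rpow (hh1 s) (by norm_num)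
      _ = 1 := ENNReal.one_rpow _
  exact mul_le_of_le_one_right' h1

/-- the form and a pointwise bound independent of one variable -/
lemma form_ins' (m : ℕ) (i : Fin (m + 1)) {T h : E (m + 1) → ℂ} (hT : Measurable T)
    (hh : Measurable h) {Φ : E m → ℝ≥0∞} (hΦm : Measurable Φ)
    (hΦ1 : ∀ s y, ‖T (ins i s y)‖ₑ ≤ Φ y) :
    ‖∫ x, T x * h x‖ₑ ≤ (∫⁻ y, Φ y ^ 2) ^ (1 / 2 : ℝ) *
      (∫⁻ y : E m, (∫⁻ s : ℝ, ‖h (ins i s y)‖ₑ) ^ 2) ^ (1 / 2 : ℝ) := by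
  have hhm : Measurable (fun p : ℝ × E m => ‖h (ins i p.1 p.2)‖ₑ) :=
    (hh.comp (meas_ins m i)).enorm
  refine (norm_form_le _ _).trans ?_
  rw [lint_ins' m i (G := fun x => ‖T x‖ₑ * ‖h x‖ₑ) (hT.enorm.mul hh.enorm)]
  refine le_trans (lintegral_mono fun y => ?_) (cs hΦm hhm.lintegral_prod_left')
  have t : Measurable (fun s : ℝ => ‖h (ins i s y)‖ₑ) := hhm.comp measurable_prodMk_right
  have e1 := lintegral_const_mul (μ := (volume : Measure ℝ)) (Φ y) t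
  refine le_trans (lintegral_mono fun s => ?_) (le_of_eq e1)
  exact mul_le_mul' (hΦ1 s y) le_rfl

end J714

open J714 Pool.Agent.TH554.J639 in
theorem VB_of (k : ℕ) (ψ : ℝ → ℝ) (hψ : Bump ψ)
    (hE : ∃ C : ℝ, 0 < C ∧ ∀ L : ℝ, 1 ≤ L → ∀ i : Fin (k + 2), ∀ f : E (k + 2) → ℂ, GoodN f →
      ∫⁻ s : ℝ, (∫⁻ y : E (k + 1), ‖TR (k + 2) (ML ψ L) f (ins i s y)‖ₑ ^ 2) ^ (1 / 2 : ℝ) ≤
        ENNReal.ofReal (C * (1 + Real.log L)) *
          ∫⁻ s : ℝ, (∫⁻ y : E (k + 1), ‖f (ins i s y)‖ₑ ^ 2) ^ (1 / 2 : ℝ))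
    (hA : ∃ C : ℝ, 0 < C ∧ ∀ L : ℝ, 1 ≤ L → ∀ i : Fin (k + 2), ∀ f : E (k + 2) → ℂ, GoodN f →
      ∀ a : ℝ → ℂ, Measurable a → (∀ s, ‖a s‖ ≤ 1) → (∃ B : ℝ, ∀ s, a s ≠ 0 → |s| ≤ B) →
      ∀ G : E (k + 1) → ℂ, GoodN G → (∀ s y, f (ins i s y) = a s * G y) →
      ∃ Φ : E (k + 1) → ℝ≥0∞, Measurable Φ ∧
        (∀ s y, ‖TR (k + 2) (ML ψ L) f (ins i s y)‖ₑ ≤ Φ y) ∧
        ∫⁻ y, Φ y ^ 2 ≤ ENNReal.ofReal ((C * (1 + Real.log L)) ^ 2) * ∫⁻ y, ‖G y‖ₑ ^ 2)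
    (hS : ∃ C : ℝ, 0 < C ∧ ∀ L : ℝ, 20 ≤ L → ∀ f : E (k + 2) → ℂ, GoodN f →
      ∫⁻ z : ℝ × ℝ, (∫⁻ w : E k, ‖TR (k + 2) (ML ψ L) f (inp z w)‖ₑ ^ 2) ^ 2 ≤
        ENNReal.ofReal (C * (1 + Real.log L) ^ 4) *
          ∫⁻ z : ℝ × ℝ, (∫⁻ w : E k, ‖f (inp z w)‖ₑ ^ 2) ^ 2) :
    ∃ C : ℝ, 0 < C ∧ ∀ L : ℝ, 20 ≤ L →
      VB k ψ L C (C * (1 + Real.log L)) (C * (1 + Real.log L)) := by
  obtain ⟨CE, hCE, hE⟩ := hE
  obtain ⟨CA, hCA, hA⟩ := hA
  obtain ⟨CS, hCS, hS⟩ := hS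
  obtain ⟨A, hA1, hAb⟩ := psi_bd ψ hψ
  set C : ℝ := A + CE + CA + CS with hC
  have hC1 : 1 ≤ C := by rw [hC]; linarith
  have hCE' : CE ≤ C := by rw [hC]; linarith
  have hCA' : CA ≤ C := by rw [hC]; linarith
  have hCS' : CS ≤ C := by rw [hC]; linarith
  have hA' : A ≤ C := by rw [hC]; linarith
  refine ⟨C, by linarith, fun L hL => ?_⟩
  have hlog : 0 ≤ Real.log L := Real.log_nonneg (by linarith)
  have hM := ML_cont ψ hψ L
  have hM2 := ML_zero ψ hψ L (by linarith)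
  have hMb : ∀ u, |ML ψ L u| ≤ A := fun u => hAb _
  -- the bound with exponents 4 and 4/3
  have W2 : ∀ f h : E (k + 2) → ℂ, GoodN f → GoodN h →
      ‖Bf ψ L f h‖ₑ ≤ ENNReal.ofReal (C * (1 + Real.log L)) *
        (∫⁻ z : ℝ × ℝ, (∫⁻ w : E k, ‖f (inp z w)‖ₑ ^ 2) ^ 2) ^ (1 / 4 : ℝ) *
        (∫⁻ z : ℝ × ℝ, (∫⁻ w : E k, ‖h (inp z w)‖ₑ ^ 2) ^ (2 / 3 : ℝ)) ^ (3 / 4 : ℝ) := by
    intro f h hf hh
    refine (form_inp k (TR_meas hM hf) hh.1).trans (mul_le_mul' (fin4 (hS L hL f hf) (by positivity) ?_) le_rfl)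
    rw [mul_pow]
    have : CS ≤ C ^ 4 := hCS'.trans (le_self_pow₀ hC1 (by norm_num))
    exact mul_le_mul_of_nonneg_right this (by positivity)
  refine ⟨by linarith, by positivity, by positivity, ?_, ?_, ?_, ?_, W2⟩
  · -- v0
    intro f h hf hh
    refine (norm_form_le _ _).trans ((cs (TR_meas hM hf).enorm hh.1.enorm).trans ?_)
    exact mul_le_mul' (fin2 (TR_l2 hM hM2 (by linarith) hMb hf) hA') le_rfl
  · -- v1
    intro f h hf hh i hh1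
    refine (form_ins (k + 1) i (TR_meas hM hf) hh.1 hh1).trans ((hE L (by linarith) i f hf).trans ?_)
    exact mul_le_mul' (ENNReal.ofReal_le_ofReal
      (mul_le_mul_of_nonneg_right hCE' (by linarith))) le_rfl
  · -- v2
    intro f h hf hh
    have h1 : Bf ψ L f h = Bf ψ L h f := form_symm hM hM2 hf hh
    rw [h1, mul_right_comm]
    exact W2 h f hh hf
  · -- w1
    intro f h hf hh i a ha ha1 haB G hG hfG
    obtain ⟨Φ, hΦm, hΦ1, hΦ2⟩ := hA L (by linarith) i f hf a ha ha1 haB G hG hfG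
    refine (form_ins' (k + 1) i (TR_meas hM hf) hh.1 hΦm hΦ1).trans
      (mul_le_mul' (fin2 (a := CA * (1 + Real.log L)) ?_ ?_) le_rfl)
    · rw [← ENNReal.ofReal_pow (by positivity)]
      exact hΦ2
    · exact mul_le_mul_of_nonneg_right hCA' (by linarith)

end Pool.Agent.TH278
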