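import Pool.Agent.TH605.AP.WF

/-! Job 2844 (AP-L2): accumulation points of orbits, closure of the packing. -/

set_option autoImplicit false

open Set Topology Filter

namespace Pool.Agent.TH761.J2844

open Pool.Agent.TH605.AP

theorem sg_clo (hcl : ∀ (i : Fin 4) (z : OnePoint ℂ), s i z ∈ closure Tan ↔ z ∈ closure Tan)
    (u : List (Fin 4)) (z : OnePoint ℂ) : sg u z ∈ closure Tan ↔ z ∈ closure Tan := by
  induction u with
  | nil => exact Iff.rfl
  | cons i u ih => exact (hcl i (sg u z)).trans ih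

theorem esc (W : WF)
    (hesc : ∀ S : Set (OnePoint ℂ), (∀ z ∈ S, ∀ i, z ∈ DiscI i → s i z ∈ S) →
      S ∩ Fd ⊆ closure Tan → S ⊆ closure Tan) (z : OnePoint ℂ) (hz : z ∉ closure Tan) :
    ∃ u : List (Fin 4), sg u z ∈ Fd := by
  by_contra hcon
  have hcon' : ∀ u : List (Fin 4), sg u z ∉ Fd := fun u hu => hcon ⟨u, hu⟩
  apply hz
  refine hesc {z | ∀ u : List (Fin 4), sg u z ∉ Fd} ?_ ?_ hcon'
  · intro z hz i _ u
    have h := hz (u ++ [i])
    rwa [W.sg_append] at h
  · rintro z ⟨h1, h2⟩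
    exact absurd h2 (h1 [])

theorem exists_red (B : BF) (u : List (Fin 4)) :
    ∃ u' : List (Fin 4), IsRed u' ∧ ∀ z, sg u z = sg u' z := by
  induction u with
  | nil => exact ⟨[], List.isChain_nil, fun z => rfl⟩
  | cons a u ih =>
    obtain ⟨u', hr, hu⟩ := ih
    cases u' with
    | nil =>
      refine ⟨[a], List.isChain_singleton a, fun z => ?_⟩
      change s a (sg u z) = s a (sg [] z)
      rw [hu z]
    | cons b w =>
      by_cases hab : a = b
      · subst hab
        refine ⟨w, hr.tail, fun z => ?_⟩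
        change s a (sg u z) = sg w z
        rw [hu z]
        exact B.s_s a (sg w z)
      · refine ⟨a :: b :: w, List.isChain_cons_cons.2 ⟨hab, hr⟩, fun z => ?_⟩
        change s a (sg u z) = s a (sg (b :: w) z)
        rw [hu z]

theorem mem_DL (B : BF) (W : WF) (u : List (Fin 4)) (hu : u ≠ []) (z : OnePoint ℂ) (hz : z ∈ Fd) :
    sg u z ∈ DL u := by
  obtain ⟨v, b, rfl⟩ : ∃ v b, u = v ++ [b] :=
    ⟨u.dropLast, u.getLast hu, (List.dropLast_append_getLast hu).symm⟩
  rw [W.DL_append v [b] (by simp), W.sg_append]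
  refine ⟨sg [b] z, ?_, rfl⟩
  change s b z ∈ Disc b
  rw [B.s_Disc]
  intro h
  exact absurd (hz b) (not_le.2 h)

theorem fix_red (B : BF) (W : WF) (u : List (Fin 4)) (hr : IsRed u) (z : OnePoint ℂ) (hz : z ∈ Fd)
    (hu : sg u z ∈ Fd) : sg u z = z := by
  induction u with
  | nil => rfl
  | cons a v ih =>
    have h1 : sg (a :: v) z ∈ Disc a := W.DL_head a v hr (mem_DL B W (a :: v) (by simp) z hz)
    have h2 : E (vD a) (sg (a :: v) z) = 0 := le_antisymm h1 (hu a)
    have h3 : s a (sg (a :: v) z) = sg (a :: v) z := B.s_fix a _ h2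
    have h4 : s a (sg (a :: v) z) = sg v z := B.s_s a (sg v z)
    have h5 : sg v z = sg (a :: v) z := h4.symm.trans h3
    rw [← h5]
    refine ih hr.tail ?_
    rw [h5]
    exact hu

theorem fix (B : BF) (W : WF) (u : List (Fin 4)) (z : OnePoint ℂ) (hz : z ∈ Fd)
    (hu : sg u z ∈ Fd) : sg u z = z := by
  obtain ⟨u', hr, h⟩ := exists_red B u
  rw [h z] at hu ⊢
  exact fix_red B W u' hr z hz hu

theorem tp_Tan (i j : Fin 4) (h : i ≠ j) : tp i j ∈ Tan := ⟨[], i, j, h, rfl⟩

theorem derived_sub (B : BF) (W : WF) (hcl : ∀ (i : Fin 4) (z : OnePoint ℂ), s i z ∈ closure Tan ↔ z ∈ closure Tan)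
    (hesc : ∀ S : Set (OnePoint ℂ), (∀ z ∈ S, ∀ i, z ∈ DiscI i → s i z ∈ S) →
      S ∩ Fd ⊆ closure Tan → S ⊆ closure Tan) (z : OnePoint ℂ) :
    derivedSet {w | ∃ u : List (Fin 4), w = sg u z} ⊆ closure Tan := by
  intro y0 hy0
  rw [mem_derivedSet, accPt_iff_nhds] at hy0
  by_contra hy
  by_cases hz : z ∈ closure Tan
  · -- the orbit lies in the closed set
    obtain ⟨y, ⟨hyU, u, hyu⟩, -⟩ := hy0 (closure Tan)ᶜ (isClosed_closure.isOpen_compl.mem_nhds hy)
    exact hyU (by rw [hyu]; exact (sg_clo hcl u z).2 hz)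
  · obtain ⟨u0, hu0⟩ := esc W hesc z hz
    obtain ⟨v, hv⟩ := esc W hesc y0 hy
    have hy1 : sg v y0 ∉ closure Tan := fun h => hy ((sg_clo hcl v y0).1 h)
    -- the index
    obtain ⟨i, hi⟩ : ∃ i, ∀ j, j ≠ i → 0 < E (vD j) (sg v y0) := by
      by_cases h : ∀ j, 0 < E (vD j) (sg v y0)
      · exact ⟨0, fun j _ => h j⟩
      · obtain ⟨i, hi⟩ := not_forall.1 h
        refine ⟨i, fun j hj => ?_⟩
        by_contra hj0
        have hmem : sg v y0 ∈ Disc i ∩ Disc j := ⟨not_lt.1 hi, not_lt.1 hj0⟩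
        rw [B.inter i j hj.symm] at hmem
        apply hy1
        rw [mem_singleton_iff.1 hmem]
        exact subset_closure (tp_Tan i j hj.symm)
    -- the neighbourhood
    set N : Set (OnePoint ℂ) := ⋂ j : Fin 4, ⋂ _ : j ≠ i, ((Disc j)ᶜ ∩ (s i) ⁻¹' (Disc j)ᶜ) with hN
    have hNo : IsOpen N := by
      refine isOpen_iInter_of_finite fun j => isOpen_iInter_of_finite fun _ => ?_
      exact (B.closedDisc j).isOpen_compl.inter ((B.closedDisc j).isOpen_compl.preimage (B.cont i))
    have hmemN : ∀ p, p ∈ N ↔ ∀ j, j ≠ i → p ∉ Disc j ∧ s i p ∉ Disc j := by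
      intro p
      simp only [hN, mem_iInter, mem_inter_iff, mem_compl_iff, mem_preimage]
    have hy1N : sg v y0 ∈ N := by
      rw [hmemN]
      intro j hj
      refine ⟨not_le.2 (hi j hj), ?_⟩
      by_cases h0 : E (vD i) (sg v y0) = 0
      · rw [B.s_fix i _ h0]
        exact not_le.2 (hi j hj)
      · have h1 : sg v y0 ∉ Disc i := by
          intro h
          exact h0 (le_antisymm h (hv i))
        have h2 : s i (sg v y0) ∈ DiscI i := (B.s_DiscI i _).2 h1
        exact disjoint_left.1 (B.interI i j hj.symm) h2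
    -- orbit points in the neighbourhood
    have key : ∀ w : List (Fin 4), sg w z ∈ N → sg w z = sg u0 z ∨ sg w z = s i (sg u0 z) := by
      intro w hw
      rw [hmemN] at hw
      have hcomp : sg w z = sg (w ++ u0.reverse) (sg u0 z) := by
        rw [W.sg_append, W.sg_reverse]
      by_cases hp : sg w z ∈ DiscI i
      · right
        have h1 : s i (sg w z) ∈ Fd := by
          intro j
          by_cases hj : j = i
          · subst hj
            have h2 : s j (s j (sg w z)) ∈ DiscI j := by rw [B.s_s]; exact hp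
            exact (not_le.1 ((B.s_DiscI j _).1 h2)).le
          · exact (not_le.1 (hw j hj).2).le
        have h3 : s i (sg w z) = sg (i :: (w ++ u0.reverse)) (sg u0 z) := by
          change _ = s i (sg (w ++ u0.reverse) (sg u0 z))
          rw [← hcomp]
        have h4 : s i (sg w z) = sg u0 z := by
          rw [h3]
          refine fix B W _ _ hu0 ?_
          rw [← h3]
          exact h1
        rw [← h4, B.s_s]
      · left
        have h1 : sg w z ∈ Fd := by
          intro j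
          by_cases hj : j = i
          · subst hj
            exact not_lt.1 hp
          · exact (not_le.1 (hw j hj).1).le
        rw [hcomp]
        refine fix B W _ _ hu0 ?_
        rw [← hcomp]
        exact h1
    -- transport to `y0`
    have hfin : ({sg v.reverse (sg u0 z), sg v.reverse (s i (sg u0 z))} \ {y0} :
        Set (OnePoint ℂ)).Finite := (Set.toFinite _).subset Set.sdiff_subset
    have hU : ((sg v) ⁻¹' N ∩ ({sg v.reverse (sg u0 z), sg v.reverse (s i (sg u0 z))} \ {y0} :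
        Set (OnePoint ℂ))ᶜ) ∈ 𝓝 y0 := by
      refine ((hNo.preimage (W.cont_sg v)).inter hfin.isClosed.isOpen_compl).mem_nhds ⟨hy1N, ?_⟩
      intro h
      exact h.2 rfl
    obtain ⟨y, ⟨⟨hyN, hyF⟩, u, hyu⟩, hne⟩ := hy0 _ hU
    have hyN' : sg (v ++ u) z ∈ N := by
      rw [W.sg_append, ← hyu]
      exact hyN
    have hyv : y = sg v.reverse (sg (v ++ u) z) := by
      rw [W.sg_append, W.sg_reverse, hyu]
    apply hyF
    refine ⟨?_, hne⟩
    rcases key (v ++ u) hyN' with h | h
    · rw [hyv, h]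
      exact Or.inl rfl
    · rw [hyv, h]
      exact Or.inr rfl

theorem closure_Ob (B : BF) (hcl : ∀ (i : Fin 4) (z : OnePoint ℂ), s i z ∈ closure Tan ↔ z ∈ closure Tan)
    (hesc : ∀ S : Set (OnePoint ℂ), (∀ z ∈ S, ∀ i, z ∈ DiscI i → s i z ∈ S) →
      S ∩ Fd ⊆ closure Tan → S ⊆ closure Tan) : closure (⋃₀ Ob) = closure Tan := by
  apply Subset.antisymm
  · refine closure_minimal ?_ isClosed_closure
    refine sUnion_subset ?_
    rintro S ⟨w, k, rfl⟩
    rintro _ ⟨z, hz, rfl⟩
    rw [sg_clo hcl]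
    refine hesc (Cir k) ?_ ?_ hz
    · intro z hz i hzi
      have hik : i ≠ k := by
        rintro rfl
        exact disjoint_left.1 (B.Cir_Disc i) hz (B.sub i hzi)
      rw [← B.s_Cir i k hik]
      exact ⟨z, hz, rfl⟩
    · rintro z ⟨h1, h2⟩
      obtain ⟨i, j, hij, rfl⟩ := B.Fd_Cir k z h2 h1
      exact subset_closure (tp_Tan i j hij)
  · refine closure_mono ?_
    rintro z ⟨w, i, j, hij, rfl⟩
    obtain ⟨k, hki, hkj⟩ : ∃ k : Fin 4, k ≠ i ∧ k ≠ j := by
      revert i j
      decide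
    exact mem_sUnion.2 ⟨sg w '' Cir k, ⟨w, k, rfl⟩, ⟨tp i j, B.tp_Cir i j k hij hki hkj, rfl⟩⟩

end Pool.Agent.TH761.J2844
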