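import Mathlib
set_option autoImplicit false
namespace Pool.Agent.TH761
open Finset

/-- `(m+1)^m ≤ 4^m m!`. -/
theorem four_pow_fact (m : ℕ) : ((m : ℝ) + 1) ^ m ≤ 4 ^ m * (m.factorial : ℝ) := by
  induction m with
  | zero => simp
  | succ m ih =>
    have h0 : (0 : ℝ) < (m : ℝ) + 1 := by positivity
    have h1 : (((m : ℝ) + 1 + 1) / (m + 1)) ^ (m + 1) ≤ 4 := by
      have h2 : ((m : ℝ) + 1 + 1) / (m + 1) ≤ Real.exp (1 / (m + 1)) := by
        have h3 := Real.add_one_le_exp (1 / ((m : ℝ) + 1))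
        have h4 : ((m : ℝ) + 1 + 1) / (m + 1) = 1 / ((m : ℝ) + 1) + 1 := by field_simp; ring
        rwa [h4]
      calc (((m : ℝ) + 1 + 1) / (m + 1)) ^ (m + 1) ≤ (Real.exp (1 / (m + 1))) ^ (m + 1) := by
            gcongr
        _ = Real.exp 1 := by
            rw [← Real.exp_nat_mul]
            congr 1
            push_cast
            field_simp
        _ ≤ 4 := by have := Real.exp_one_lt_d9; linarith
    have h5 : ((m : ℝ) + 1 + 1) ^ (m + 1) ≤ 4 * ((m : ℝ) + 1) ^ (m + 1) := by
      rw [div_pow, div_le_iff₀ (by positivity)] at h1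
      exact h1
    push_cast
    calc ((m : ℝ) + 1 + 1) ^ (m + 1) ≤ 4 * ((m : ℝ) + 1) ^ (m + 1) := h5
      _ = 4 * ((m : ℝ) + 1) * ((m : ℝ) + 1) ^ m := by ring
      _ ≤ 4 * ((m : ℝ) + 1) * (4 ^ m * (m.factorial : ℝ)) := by gcongr
      _ = 4 ^ (m + 1) * ((m + 1).factorial : ℝ) := by
          rw [Nat.factorial_succ]; push_cast; ring

theorem prod_abs_range (j : ℕ) : ∏ l ∈ range j, |(j : ℝ) - l| = (j.factorial : ℝ) := by
  rw [← Finset.prod_range_reflect, ← Finset.prod_range_add_one_eq_factorial]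
  push_cast
  refine Finset.prod_congr rfl fun l hl => ?_
  have hl' := Finset.mem_range.1 hl
  have h1 : ((j - 1 - l : ℕ) : ℝ) = (j : ℝ) - 1 - l := by
    rw [Nat.cast_sub (by omega), Nat.cast_sub (by omega)]; simp
  rw [h1, abs_of_pos (by linarith [(Nat.cast_nonneg l : (0:ℝ) ≤ l)])]
  ring

theorem prod_abs_erase (m j : ℕ) (hj : j ≤ m) :
    ∏ l ∈ (range (m + 1)).erase j, |(j : ℝ) - l| = (j.factorial : ℝ) * ((m - j).factorial : ℝ) := by
  have h1 : (range (m + 1)).erase j = range j ∪ Ico (j + 1) (m + 1) := by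
    ext l; simp only [mem_erase, mem_range, mem_union, mem_Ico]; omega
  rw [h1, Finset.prod_union, prod_abs_range, Finset.prod_Ico_eq_prod_range]
  · congr 1
    rw [show m + 1 - (j + 1) = m - j by omega, ← Finset.prod_range_add_one_eq_factorial]
    push_cast
    refine Finset.prod_congr rfl fun l _ => ?_
    rw [abs_sub_comm, abs_of_pos (by linarith [(Nat.cast_nonneg l : (0:ℝ) ≤ l)])]
    ring
  · rw [Finset.disjoint_left]
    intro l
    simp only [mem_range, mem_Ico]
    omega

/-- A point near `a` avoiding finitely many values. -/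
theorem avoid {ι : Type*} [Fintype ι] (s : ι → ℝ) (a H : ℝ) (hH : 0 < H) :
    ∃ ρ : ℝ, a ≤ ρ ∧ ρ ≤ a + H / 2 ∧
      ∀ i, H / (4 * ((Fintype.card ι : ℝ) + 1)) ≤ |ρ - s i| := by
  by_contra hcon
  push Not at hcon
  set n := Fintype.card ι with hn
  have hn0 : (0 : ℝ) < (n : ℝ) + 1 := by positivity
  have h1 : ∀ k : Fin (n + 1), ∃ i, |a + H * (k : ℕ) / (2 * ((n : ℝ) + 1)) - s i| <
      H / (4 * ((n : ℝ) + 1)) := by
    intro k
    apply hcon
    · have : (0 : ℝ) ≤ H * (k : ℕ) / (2 * ((n : ℝ) + 1)) := by positivity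
      linarith
    · have h2 : ((k : ℕ) : ℝ) ≤ (n : ℝ) + 1 := by
        have := k.2
        exact_mod_cast (by omega : (k : ℕ) ≤ n + 1)
      have : H * (k : ℕ) / (2 * ((n : ℝ) + 1)) ≤ H / 2 := by
        rw [div_le_div_iff₀ (by positivity) (by norm_num)]
        nlinarith
      linarith
  choose f hf using h1
  have hcard : Fintype.card ι < Fintype.card (Fin (n + 1)) := by simp [hn]
  obtain ⟨k, l, hkl, hfkl⟩ := Fintype.exists_ne_map_eq_of_card_lt f hcard
  have h3 := hf k
  have h4 := hf l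
  rw [← hfkl] at h4
  have h5 : |H * (k : ℕ) / (2 * ((n : ℝ) + 1)) - H * (l : ℕ) / (2 * ((n : ℝ) + 1))| <
      H / (2 * ((n : ℝ) + 1)) := by
    have h6 : H * (k : ℕ) / (2 * ((n : ℝ) + 1)) - H * (l : ℕ) / (2 * ((n : ℝ) + 1)) =
        (a + H * (k : ℕ) / (2 * ((n : ℝ) + 1)) - s (f k)) -
        (a + H * (l : ℕ) / (2 * ((n : ℝ) + 1)) - s (f k)) := by ring
    rw [h6]
    calc _ ≤ |a + H * (k : ℕ) / (2 * ((n : ℝ) + 1)) - s (f k)| +
        |a + H * (l : ℕ) / (2 * ((n : ℝ) + 1)) - s (f k)| := abs_sub _ _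
      _ < H / (4 * ((n : ℝ) + 1)) + H / (4 * ((n : ℝ) + 1)) := add_lt_add h3 h4
      _ = H / (2 * ((n : ℝ) + 1)) := by field_simp; ring
  have h7 : (1 : ℝ) ≤ |((k : ℕ) : ℝ) - ((l : ℕ) : ℝ)| := by
    have h8 : ((k : ℕ) : ℤ) - ((l : ℕ) : ℤ) ≠ 0 := by
      intro h
      apply hkl
      ext
      omega
    have h9 := Int.one_le_abs h8
    have h10 : |((k : ℕ) : ℝ) - ((l : ℕ) : ℝ)| = ((|((k : ℕ) : ℤ) - ((l : ℕ) : ℤ)| : ℤ) : ℝ) := by
      push_cast; rfl
    rw [h10]
    exact_mod_cast h9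
  have h11 : H * (k : ℕ) / (2 * ((n : ℝ) + 1)) - H * (l : ℕ) / (2 * ((n : ℝ) + 1)) =
      H / (2 * ((n : ℝ) + 1)) * (((k : ℕ) : ℝ) - ((l : ℕ) : ℝ)) := by ring
  rw [h11, abs_mul, abs_of_pos (by positivity : 0 < H / (2 * ((n : ℝ) + 1)))] at h5
  have h12 : 0 < H / (2 * ((n : ℝ) + 1)) := by positivity
  nlinarith

theorem abs_prod_map {α : Type*} (t : Multiset α) (f : α → ℝ) :
    |(t.map f).prod| = (t.map (fun u => |f u|)).prod := by
  induction t using Multiset.induction_on with
  | empty => simp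
  | cons a t ih => simp [abs_mul, ih]

/-- A radius avoiding finitely many values with a large product (one-dimensional Cartan lemma). -/
theorem radius_lemma {ι : Type*} [Fintype ι] (s : ι → ℝ) (t : Multiset ℝ) (r1 L : ℝ) (hL : 0 < L) :
    ∃ ρ : ℝ, r1 ≤ ρ ∧ ρ ≤ r1 + L ∧
      (∀ i, L / (4 * ((t.card : ℝ) + 1) * ((Fintype.card ι : ℝ) + 1)) ≤ |ρ - s i|) ∧
      (L / 16) ^ t.card ≤ (t.map (fun u => |ρ - u|)).prod := by
  set m := t.card with hm
  set H : ℝ := L / (m + 1) with hH
  have hm0 : (0 : ℝ) < (m : ℝ) + 1 := by positivity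
  have hH0 : 0 < H := by positivity
  choose ρ hρ1 hρ2 hρ3 using fun j : ℕ => avoid s (r1 + H * j) H hH0
  have hHL : H * ((m : ℝ) + 1) = L := by rw [hH]; field_simp
  -- separation
  have hsep : ∀ j l : ℕ, H / 2 * |(j : ℝ) - l| ≤ |ρ j - ρ l| := by
    intro j l
    wlog hjl : l ≤ j generalizing j l with hw
    · rw [abs_sub_comm, abs_sub_comm (ρ j)]
      exact hw l j (by omega)
    rcases Nat.eq_or_lt_of_le hjl with h | h
    · rw [h]; simp
    · have h1 : (1 : ℝ) ≤ (j : ℝ) - l := by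
        have : ((l + 1 : ℕ) : ℝ) ≤ j := by exact_mod_cast h
        push_cast at this
        linarith
      rw [abs_of_pos (by linarith)]
      have h2 : H * ((j : ℝ) - l) - H / 2 ≤ ρ j - ρ l := by
        have := hρ1 j
        have := hρ2 l
        nlinarith
      refine le_trans ?_ (le_trans h2 (le_abs_self _))
      nlinarith
  have hinj : Set.InjOn ρ (range (m + 1)) := by
    intro j _ l _ h
    by_contra hne
    have h1 := hsep j l
    rw [h, sub_self, abs_zero] at h1
    have h2 : (0 : ℝ) < |(j : ℝ) - l| := abs_pos.2 (sub_ne_zero.2 (by exact_mod_cast hne))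
    have : 0 < H / 2 * |(j : ℝ) - l| := by positivity
    linarith
  -- the polynomial
  set p : Polynomial ℝ := (t.map (fun u => Polynomial.X - Polynomial.C u)).prod with hp
  have hpm : p.Monic := Polynomial.monic_multisetProd_X_sub_C t
  have hpd : p.natDegree = m := by
    rw [hp, Polynomial.natDegree_multiset_prod_X_sub_C_eq_card]
  have hpe : ∀ x, |p.eval x| = (t.map (fun u => |x - u|)).prod := by
    intro x
    rw [hp, Polynomial.eval_multiset_prod, Multiset.map_map, abs_prod_map]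
    simp
  have hlag := Lagrange.coeff_eq_sum (s := range (m + 1)) (v := ρ) hinj (P := p) (by
    rw [Polynomial.degree_eq_natDegree hpm.ne_zero, hpd, card_range]
    exact_mod_cast Nat.lt_succ_self m)
  rw [card_range, Nat.add_sub_cancel, ← hpd, Polynomial.coeff_natDegree, hpm.leadingCoeff, hpd]
    at hlag
  -- some value is large
  by_contra hcon
  push Not at hcon
  have hsmall : ∀ j ∈ range (m + 1), |p.eval (ρ j)| < (L / 16) ^ m := by
    intro j hj
    rw [hpe]
    have hj' := mem_range.1 hj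
    have hj'' : (j : ℝ) ≤ m := by exact_mod_cast (by omega : j ≤ m)
    apply hcon
    · have := hρ1 j
      have : 0 ≤ H * (j : ℝ) := by positivity
      linarith
    · have := hρ2 j
      have : H * (j : ℝ) ≤ H * m := by gcongr
      nlinarith
    · intro i
      have h1 := hρ3 j i
      have h2 : L / (4 * ((m : ℝ) + 1) * ((Fintype.card ι : ℝ) + 1)) =
          H / (4 * ((Fintype.card ι : ℝ) + 1)) := by rw [hH]; field_simp
      rw [h2]
      exact h1
  have hprod : ∀ j ∈ range (m + 1), (H / 2) ^ m * ((j.factorial : ℝ) * ((m - j).factorial : ℝ)) ≤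
      |∏ l ∈ (range (m + 1)).erase j, (ρ j - ρ l)| := by
    intro j hj
    have hj' := mem_range.1 hj
    rw [Finset.abs_prod, ← prod_abs_erase m j (by omega)]
    have h1 : (H / 2) ^ m = ∏ l ∈ (range (m + 1)).erase j, (H / 2) := by
      rw [Finset.prod_const, Finset.card_erase_of_mem hj, card_range, Nat.add_sub_cancel]
    rw [h1, ← Finset.prod_mul_distrib]
    exact Finset.prod_le_prod (fun l _ => by positivity) (fun l _ => hsep j l)
  have hfact : ∀ j ∈ range (m + 1), (1 : ℝ) / ((j.factorial : ℝ) * ((m - j).factorial : ℝ)) =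
      (m.choose j : ℝ) / m.factorial := by
    intro j hj
    have hj' := mem_range.1 hj
    have h1 := Nat.choose_mul_factorial_mul_factorial (by omega : j ≤ m)
    have h2 : (m.choose j : ℝ) * j.factorial * (m - j).factorial = m.factorial := by
      exact_mod_cast h1
    have h3 : (j.factorial : ℝ) ≠ 0 := by positivity
    have h4 : ((m - j).factorial : ℝ) ≠ 0 := by positivity
    have h5 : (m.factorial : ℝ) ≠ 0 := by positivity
    rw [div_eq_div_iff (by positivity) h5, one_mul, ← h2]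
    ring
  have hlt : (1 : ℝ) < ∑ j ∈ range (m + 1), (L / 16) ^ m * (2 / H) ^ m *
      ((m.choose j : ℝ) / m.factorial) := by
    calc (1 : ℝ) = |∑ i ∈ range (m + 1), p.eval (ρ i) /
          ∏ j ∈ (range (m + 1)).erase i, (ρ i - ρ j)| := by rw [← hlag, abs_one]
      _ ≤ ∑ i ∈ range (m + 1), |p.eval (ρ i) / ∏ j ∈ (range (m + 1)).erase i, (ρ i - ρ j)| :=
          Finset.abs_sum_le_sum_abs _ _
      _ < _ := by
          apply Finset.sum_lt_sum_of_nonempty ⟨0, by simp⟩
          intro j hj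
          rw [← hfact j hj, abs_div]
          have h1 := hprod j hj
          have h2 := hsmall j hj
          have h3 : 0 < (H / 2) ^ m * ((j.factorial : ℝ) * ((m - j).factorial : ℝ)) := by
            positivity
          calc |p.eval (ρ j)| / |∏ l ∈ (range (m + 1)).erase j, (ρ j - ρ l)|
              ≤ |p.eval (ρ j)| / ((H / 2) ^ m * ((j.factorial : ℝ) * ((m - j).factorial : ℝ))) := by
                gcongr
            _ < (L / 16) ^ m / ((H / 2) ^ m * ((j.factorial : ℝ) * ((m - j).factorial : ℝ))) := by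
                gcongr
            _ = _ := by
                have h9 : (2 / H) ^ m = ((H / 2) ^ m)⁻¹ := by rw [← inv_pow, inv_div]
                rw [h9, ← div_eq_mul_inv, mul_one_div, div_mul_eq_div_div]
  rw [← Finset.mul_sum, ← Finset.sum_div] at hlt
  have h6 : (∑ j ∈ range (m + 1), (m.choose j : ℝ)) = 2 ^ m := by
    exact_mod_cast Nat.sum_range_choose m
  rw [h6] at hlt
  have h7 := four_pow_fact m
  have h8 : (L / 16) ^ m * (2 / H) ^ m * (2 ^ m / (m.factorial : ℝ)) =
      ((m : ℝ) + 1) ^ m / (4 ^ m * m.factorial) := by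
    rw [← mul_pow, mul_div_assoc', ← mul_pow, div_eq_div_iff (by positivity) (by positivity)]
    have h9 : L / 16 * (2 / H) * 2 = ((m : ℝ) + 1) / 4 := by
      rw [hH]; field_simp; norm_num
    rw [h9, div_pow]
    field_simp
  rw [h8, lt_div_iff₀ (by positivity)] at hlt
  linarith

end Pool.Agent.TH761
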