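import Mathlib
set_option autoImplicit false
namespace Pool.Agent.TH761
open Finset

open Real Complex in
theorem circle_inv (a : ℂ) (ρ : ℝ) (hρ : 0 < ρ) (ha : ‖a‖ ≠ ρ) :
    CircleIntegrable (fun w => (w - a)⁻¹) 0 ρ ∧
      (∮ w in C(0, ρ), (w - a)⁻¹) = 2 * π * I * (if ‖a‖ < ρ then 1 else 0 : ℕ) := by
  have hne : ∀ w ∈ Metric.sphere (0 : ℂ) ρ, w - a ≠ 0 := by
    intro w hw h
    rw [mem_sphere_zero_iff_norm] at hw
    rw [sub_eq_zero] at h
    rw [h] at hw
    exact ha hw
  refine ⟨ContinuousOn.circleIntegrable hρ.le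
    (ContinuousOn.inv₀ (continuousOn_id.sub continuousOn_const) hne), ?_⟩
  by_cases h : ‖a‖ < ρ
  · rw [if_pos h, circleIntegral.integral_sub_inv_of_mem_ball (by simpa using h)]
    simp
  · rw [if_neg h]
    simp only [Nat.cast_zero, mul_zero]
    apply DiffContOnCl.circleIntegral_eq_zero hρ.le
    have h1 : ρ < ‖a‖ := lt_of_le_of_ne (not_lt.1 h) (Ne.symm ha)
    have hd : DiffContOnCl ℂ (fun w : ℂ => w - a) (Metric.ball 0 ρ) :=
      (differentiable_id.sub_const a).diffContOnCl
    apply DiffContOnCl.inv hd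
    intro w hw h0
    rw [closure_ball _ hρ.ne', mem_closedBall_zero_iff] at hw
    rw [sub_eq_zero] at h0
    rw [h0] at hw
    linarith

open Real Complex in
theorem circle_multiset (s : Multiset ℂ) (ρ : ℝ) (hρ : 0 < ρ) (hs : ∀ a ∈ s, ‖a‖ ≠ ρ) :
    CircleIntegrable (fun w => (s.map (fun z => 1 / (w - z))).sum) 0 ρ ∧
      ∃ n : ℕ, (∮ w in C(0, ρ), (s.map (fun z => 1 / (w - z))).sum) = 2 * π * I * n := by
  induction s using Multiset.induction_on with
  | empty =>
    refine ⟨by simp, 0, ?_⟩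
    simp [circleIntegral]
  | cons a s ih =>
    obtain ⟨h1, n, hn⟩ := ih (fun b hb => hs b (Multiset.mem_cons_of_mem hb))
    obtain ⟨h2, h3⟩ := circle_inv a ρ hρ (hs a (Multiset.mem_cons_self _ _))
    have e1 : (fun w : ℂ => (((a ::ₘ s).map (fun z => 1 / (w - z))).sum)) =
        fun w => (w - a)⁻¹ + (s.map (fun z => 1 / (w - z))).sum := by
      funext w
      rw [Multiset.map_cons, Multiset.sum_cons, one_div]
    rw [e1]
    refine ⟨h2.add h1, (if ‖a‖ < ρ then 1 else 0) + n, ?_⟩
    rw [circleIntegral.integral_add h2 h1, h3, hn]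
    push_cast
    ring

open Real Complex in
/-- Argument principle obstruction: the polynomial `q` cannot be a near solution of
`w q' = (k - ∑ x_i/(w+x_i)) q` on the whole circle `|w| = ρ` when more than `k` of the `x_i` lie
outside. -/
theorem circle_lemma {ι : Type*} [Fintype ι] (x : ι → ℂ) (q : Polynomial ℂ) (k : ℕ) (ρ : ℝ)
    (hρ : 0 < ρ) (hx : ∀ i, ‖x i‖ ≠ ρ) (hroot : ∀ w : ℂ, ‖w‖ = ρ → q.eval w ≠ 0)
    (hL : k + 1 ≤ (univ.filter (fun i => ρ < ‖x i‖)).card) :
    ∃ w : ℂ, ‖w‖ = ρ ∧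
      ‖q.eval w‖ ≤ ‖w * (Polynomial.derivative q).eval w
        - ((k : ℂ) - ∑ i, x i / (w + x i)) * q.eval w‖ := by
  by_contra hcon
  push Not at hcon
  have hq0 : q ≠ 0 := by
    rintro rfl
    exact hroot (ρ : ℂ) (by simp [abs_of_pos hρ]) (by simp)
  have hz : ∀ a ∈ q.roots, ‖a‖ ≠ ρ := by
    intro a ha h
    exact hroot a h ((Polynomial.mem_roots hq0).1 ha)
  obtain ⟨i1, n, hn⟩ := circle_multiset q.roots ρ hρ hz
  have hnx : ∀ i, ‖-x i‖ ≠ ρ := by intro i; rw [norm_neg]; exact hx i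
  have hxi := fun i => circle_inv (-x i) ρ hρ (hnx i)
  obtain ⟨i2, h2⟩ := circle_inv 0 ρ hρ (by simpa using hρ.ne)
  have hw0 : ∀ w ∈ Metric.sphere (0 : ℂ) ρ, w ≠ 0 := by
    intro w hw h
    rw [mem_sphere_zero_iff_norm, h, norm_zero] at hw
    exact hρ.ne hw
  have hwx : ∀ w ∈ Metric.sphere (0 : ℂ) ρ, ∀ i, w + x i ≠ 0 := by
    intro w hw i h
    rw [mem_sphere_zero_iff_norm] at hw
    apply hnx i
    rw [← eq_neg_iff_add_eq_zero] at h
    rw [← h, hw]
  let N : ℕ := Fintype.card ι
  let g : ℂ → ℂ := fun w => (w * (Polynomial.derivative q).eval w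
        - ((k : ℂ) - ∑ i, x i / (w + x i)) * q.eval w) / (w * q.eval w)
  -- the value of the integral
  have hg : ∀ w ∈ Metric.sphere (0 : ℂ) ρ, g w =
      (q.roots.map (fun z => 1 / (w - z))).sum + ((N : ℂ) - k) * (w - 0)⁻¹ -
        ∑ i, (w - -x i)⁻¹ := by
    intro w hw
    have hq := hroot w (mem_sphere_zero_iff_norm.1 hw)
    have hw' := hw0 w hw
    rw [← (IsAlgClosed.splits q).eval_derivative_div_eval_of_ne_zero hq]
    have h3 : ∑ i, x i / (w + x i) = N - w * ∑ i, (w - -x i)⁻¹ := by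
      rw [Finset.mul_sum]
      have : (N : ℂ) = ∑ i : ι, (1 : ℂ) := by simp [N]
      rw [this, ← Finset.sum_sub_distrib]
      refine Finset.sum_congr rfl fun i _ => ?_
      have := hwx w hw i
      rw [sub_neg_eq_add]
      field_simp
      ring
    show _ / _ = _
    rw [h3, sub_zero]
    field_simp
    ring
  have hint : (∮ w in C(0, ρ), g w) = 2 * π * I *
      ((n : ℂ) + (univ.filter (fun i => ρ < ‖x i‖)).card - k) := by
    rw [circleIntegral.integral_congr hρ.le hg]
    have i3 : CircleIntegrable (fun w => ((N : ℂ) - k) * (w - 0)⁻¹) 0 ρ := i2.const_mul _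
    have i4 : CircleIntegrable (fun w => ∑ i, (w - -x i)⁻¹) 0 ρ := by
      have := CircleIntegrable.sum (Finset.univ : Finset ι) (fun i _ => (hxi i).1)
      convert this using 1
      funext w
      simp
    have i13 : CircleIntegrable (fun w => (q.roots.map (fun z => 1 / (w - z))).sum +
      ((N : ℂ) - k) * (w - 0)⁻¹) 0 ρ := i1.add i3
    rw [circleIntegral.integral_sub i13 i4, circleIntegral.integral_add i1 i3, hn,
      circleIntegral.integral_const_mul, h2, circleIntegral.integral_fun_sum (fun i _ => (hxi i).1)]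
    have h4 : ∑ i, (∮ w in C(0, ρ), (w - -x i)⁻¹) =
        2 * π * I * ((univ.filter (fun i => ‖x i‖ < ρ)).card : ℂ) := by
      rw [Finset.sum_congr rfl fun i _ => (hxi i).2, ← Finset.mul_sum]
      congr 1
      rw [← Nat.cast_sum]
      congr 1
      rw [Finset.card_filter]
      refine Finset.sum_congr rfl fun i _ => ?_
      rw [norm_neg]
    rw [h4, norm_zero, if_pos hρ]
    have h5 : (N : ℂ) = ((univ.filter (fun i => ‖x i‖ < ρ)).card : ℂ) +
        (univ.filter (fun i => ρ < ‖x i‖)).card := by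
      have h6 := Finset.card_filter_add_card_filter_not (s := (univ : Finset ι))
        (fun i => ‖x i‖ < ρ)
      have h7 : (univ.filter (fun i => ¬ ‖x i‖ < ρ)) = univ.filter (fun i => ρ < ‖x i‖) := by
        ext i
        simp only [mem_filter, mem_univ, true_and, not_lt]
        exact ⟨fun h => lt_of_le_of_ne h (Ne.symm (hx i)), fun h => h.le⟩
      rw [h7, Finset.card_univ] at h6
      have : (N : ℕ) = (univ.filter (fun i => ‖x i‖ < ρ)).card +
        (univ.filter (fun i => ρ < ‖x i‖)).card := h6.symm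
      rw [this]
      push_cast
      ring
    rw [h5]
    push_cast
    ring
  -- the norm bound
  have hgc : ContinuousOn g (Metric.sphere (0 : ℂ) ρ) := by
    apply ContinuousOn.div
    · apply ContinuousOn.sub
      · exact continuousOn_id.mul (Polynomial.continuous _).continuousOn
      · apply ContinuousOn.mul
        · apply ContinuousOn.sub continuousOn_const
          apply continuousOn_finsetSum
          intro i _
          exact ContinuousOn.div continuousOn_const (continuousOn_id.add continuousOn_const)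
            (fun w hw => hwx w hw i)
        · exact (Polynomial.continuous _).continuousOn
    · exact continuousOn_id.mul (Polynomial.continuous _).continuousOn
    · intro w hw
      exact mul_ne_zero (hw0 w hw) (hroot w (mem_sphere_zero_iff_norm.1 hw))
  have hlt : ∀ w ∈ Metric.sphere (0 : ℂ) ρ, ‖g w‖ < 1 / ρ := by
    intro w hw
    have hw' := mem_sphere_zero_iff_norm.1 hw
    have h8 := hcon w hw'
    have h9 : 0 < ‖q.eval w‖ := norm_pos_iff.2 (hroot w hw')
    show ‖_ / _‖ < _
    rw [norm_div, norm_mul, hw', div_lt_div_iff₀ (by positivity) hρ]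
    nlinarith
  have hfin := circleIntegral.norm_integral_lt_of_norm_le_const_of_lt (f := g) hρ hgc
    (fun w hw => (hlt w hw).le) ⟨(ρ : ℂ), by simp [abs_of_pos hρ], hlt _ (by simp [abs_of_pos hρ])⟩
  rw [hint] at hfin
  have h10 : 2 * π * ρ * (1 / ρ) = 2 * π := by field_simp
  rw [h10, norm_mul] at hfin
  have h11 : ‖(2 * π * I : ℂ)‖ = 2 * π := by
    simp [abs_of_pos Real.pi_pos]
  rw [h11] at hfin
  obtain ⟨d, hd⟩ := Nat.exists_eq_add_of_le hL
  have h12 : ((n : ℂ) + (univ.filter (fun i => ρ < ‖x i‖)).card - k) = ((n + 1 + d : ℕ) : ℂ) := by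
    rw [hd]; push_cast; ring
  rw [h12, Complex.norm_natCast] at hfin
  have h13 : (1 : ℝ) ≤ ((n + 1 + d : ℕ) : ℝ) := by push_cast; linarith [(Nat.cast_nonneg n : (0:ℝ) ≤ n), (Nat.cast_nonneg d : (0:ℝ) ≤ d)]
  nlinarith [Real.pi_pos]

end Pool.Agent.TH761
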