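import Pool.Agent.TH185.Basic

set_option autoImplicit false
set_option linter.unusedSectionVars false

open scoped WithZero Matrix
open WithZero

namespace Pool.Agent.TH185

open Pool.Agent.TH185.C

namespace J381

/-- equivariant choice -/
theorem equivariant_choice {X Y : Type} (f : Equiv.Perm X) (g : Equiv.Perm Y) (P : X → Y → Prop)
    (hP : ∀ x y, P x y ↔ P (f x) (g y))
    (hfix : ∀ x, ∃ m : ℕ, 0 < m ∧ (f ^ m) x = x)
    (h : ∀ x (m : ℕ), 0 < m → (f ^ m) x = x → ∃ y, P x y ∧ (g ^ m) y = y) :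
    ∃ γ : X → Y, ∀ x, P x (γ x) ∧ γ (f x) = g (γ x) := by
  classical
  have hPz : ∀ (i : ℤ) x y, P x y ↔ P ((f ^ i) x) ((g ^ i) y) := by
    intro i
    induction i using Int.induction_on with
    | zero => intro x y; simp
    | succ i ih =>
      intro x y
      rw [zpow_add_one, zpow_add_one, Equiv.Perm.mul_apply, Equiv.Perm.mul_apply, ← ih, ← hP]
    | pred i ih =>
      intro x y
      have h1 : f (f⁻¹ x) = x := by rw [← Equiv.Perm.mul_apply, mul_inv_cancel, Equiv.Perm.one_apply]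
      have h2 : g (g⁻¹ y) = y := by rw [← Equiv.Perm.mul_apply, mul_inv_cancel, Equiv.Perm.one_apply]
      rw [zpow_sub_one, zpow_sub_one, Equiv.Perm.mul_apply, Equiv.Perm.mul_apply, ← ih,
        hP (f⁻¹ x) (g⁻¹ y), h1, h2]
  have h1 : ∀ x, ∃ y, P x y ∧ ∀ i : ℤ, (f ^ i) x = x → (g ^ i) y = y := by
    intro x
    obtain ⟨m, hm, hx⟩ := hfix x
    have hd : 0 < MulAction.period f x := MulAction.period_pos_of_fixed hm hx
    obtain ⟨y, hy, hy'⟩ := h x (MulAction.period f x) hd (MulAction.pow_period_smul f x)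
    refine ⟨y, hy, fun i hi => ?_⟩
    obtain ⟨k, hk⟩ := MulAction.zpow_smul_eq_iff_period_dvd.1 (show f ^ i • x = x from hi)
    have h2 : MulAction.period g y ∣ MulAction.period f x :=
      MulAction.pow_smul_eq_iff_period_dvd.1 (show g ^ _ • y = y from hy')
    have h3 : ((MulAction.period g y : ℕ) : ℤ) ∣ i := by
      rw [hk]
      exact Dvd.dvd.mul_right (Int.natCast_dvd_natCast.2 h2) k
    exact MulAction.zpow_smul_eq_iff_period_dvd.2 h3
  choose y hy hy' using h1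
  let r : X → X := fun x => Quotient.out (Quotient.mk (Equiv.Perm.SameCycle.setoid f) x)
  have hr : ∀ x, ∃ i : ℤ, (f ^ i) (r x) = x := fun x =>
    Quotient.exact (Quotient.out_eq (Quotient.mk (Equiv.Perm.SameCycle.setoid f) x))
  have hr' : ∀ x, r (f x) = r x := by
    intro x
    have : Quotient.mk (Equiv.Perm.SameCycle.setoid f) (f x) =
        Quotient.mk (Equiv.Perm.SameCycle.setoid f) x :=
      Quotient.sound ⟨-1, by simp⟩
    change Quotient.out _ = Quotient.out _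
    rw [this]
  choose i hi using hr
  refine ⟨fun x => (g ^ i x) (y (r x)), fun x => ⟨?_, ?_⟩⟩
  · have := (hPz (i x) (r x) (y (r x))).1 (hy _)
    rwa [hi] at this
  · have h2 := hi (f x)
    have h3 : (f ^ (i (f x) - (1 + i x))) (r x) = r x := by
      rw [sub_eq_neg_add, zpow_add, Equiv.Perm.mul_apply, ← hr' x, h2, zpow_neg,
        Equiv.Perm.inv_eq_iff_eq, zpow_add, Equiv.Perm.mul_apply, hr' x, hi x, zpow_one]
    have h4 := hy' (r x) _ h3
    rw [sub_eq_neg_add, zpow_add, Equiv.Perm.mul_apply, zpow_neg, Equiv.Perm.inv_eq_iff_eq, zpow_add,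
      Equiv.Perm.mul_apply, zpow_one] at h4
    change (g ^ i (f x)) (y (r (f x))) = g ((g ^ i x) (y (r x)))
    rw [hr' x]
    exact h4

/-- elements of trace one -/
theorem exists_trace_one {𝕜 : Type} [Field 𝕜] [IsAlgClosed 𝕜] (p e : ℕ) (hp : p.Prime)
    (hchar : CharP 𝕜 p) (he : 2 ≤ p ^ e) (N : ℕ) (hN : 0 < N) :
    ∃ c : 𝕜, ∑ i ∈ Finset.range N, c ^ ((p ^ e) ^ i) = 1 ∧ c ^ ((p ^ e) ^ N) = c := by
  have : Fact p.Prime := ⟨hp⟩
  set R := p ^ e with hR
  let P : Polynomial 𝕜 := ∑ i ∈ Finset.range N, Polynomial.X ^ (R ^ i) - 1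
  have hc1 : P.coeff 1 = 1 := by
    change (∑ i ∈ Finset.range N, Polynomial.X ^ (R ^ i) - 1 : Polynomial 𝕜).coeff 1 = 1
    rw [Polynomial.coeff_sub, Polynomial.finsetSum_coeff, Polynomial.coeff_one,
      Finset.sum_eq_single 0]
    · simp
    · intro i _ hi
      rw [Polynomial.coeff_X_pow, if_neg]
      intro h
      have : R ^ 1 ≤ R ^ i := Nat.pow_le_pow_right (by omega) (by omega)
      rw [pow_one] at this
      omega
    · intro h
      exact absurd (Finset.mem_range.2 hN) h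
  have hdeg : P.degree ≠ 0 := by
    intro h
    have h2 := Polynomial.eq_C_of_degree_eq_zero h
    rw [h2, Polynomial.coeff_C, if_neg one_ne_zero] at hc1
    exact zero_ne_one hc1
  obtain ⟨c, hc⟩ := IsAlgClosed.exists_root P hdeg
  have hc' : ∑ i ∈ Finset.range N, c ^ (R ^ i) = 1 := by
    have h1 : P.eval c = 0 := hc
    simp only [P, Polynomial.eval_sub, Polynomial.eval_finsetSum, Polynomial.eval_pow,
      Polynomial.eval_X, Polynomial.eval_one] at h1
    exact sub_eq_zero.1 h1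
  refine ⟨c, hc', ?_⟩
  have h2 : (∑ i ∈ Finset.range N, c ^ (R ^ i)) ^ R = ∑ i ∈ Finset.range N, c ^ (R ^ (i + 1)) := by
    rw [hR, sum_pow_char_pow]
    refine Finset.sum_congr rfl fun i _ => ?_
    rw [← pow_mul, ← pow_succ]
  have h3 : ∑ i ∈ Finset.range N, c ^ (R ^ (i + 1)) - ∑ i ∈ Finset.range N, c ^ (R ^ i) =
      c ^ (R ^ N) - c ^ (R ^ 0) := by
    rw [← Finset.sum_sub_distrib, Finset.sum_range_sub (fun i => c ^ (R ^ i))]
  rw [← h2, hc', one_pow, sub_self, pow_zero, pow_one] at h3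
  exact (sub_eq_zero.1 h3.symm)

variable {𝕜 K : Type} [Field 𝕜] [IsAlgClosed 𝕜] [Field K] [Algebra 𝕜 K] {n : ℕ}

theorem vec_iterate (T : FD 𝕜 K) (m : ℕ) (x : Fin n → K) (i : Fin n) :
    (T.vec^[m] x) i = (T.ψ ^ m) (x i) := by
  induction m with
  | zero => simp
  | succ m ih =>
    rw [Function.iterate_succ_apply', T.vec_apply, ih, pow_succ', RingAut.mul_apply]

theorem vec_locFin (T : FD 𝕜 K) (x : Fin n → K) : ∃ N : ℕ, 0 < N ∧ T.vec^[N] x = x := by
  choose m hm hx using fun i => T.locFin (x i)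
  refine ⟨∏ i, m i, Finset.prod_pos fun i _ => hm i, ?_⟩
  ext i
  rw [vec_iterate, ← Finset.mul_prod_erase Finset.univ m (Finset.mem_univ i), pow_mul]
  have : ∀ j : ℕ, ((T.ψ ^ m i) ^ j) (x i) = x i := by
    intro j
    induction j with
    | zero => simp
    | succ j ih => rw [pow_succ', RingAut.mul_apply, ih, hx]
  exact this _

/-- averaging -/
theorem average (T : FD 𝕜 K) (M : AddSubgroup (Fin n → K))
    (hM : ∀ (c : 𝕜), ∀ x ∈ M, algebraMap 𝕜 K c • x ∈ M) (hMσ : ∀ x ∈ M, T.vec x ∈ M)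
    (x : Fin n → K) (hx : T.vec x - x ∈ M) : ∃ y, T.vec y = y ∧ y - x ∈ M := by
  obtain ⟨N, hN, hNx⟩ := vec_locFin T x
  obtain ⟨c, hc1, hc2⟩ := exists_trace_one (𝕜 := 𝕜) T.p T.e T.prime T.char T.two_le_Q N hN
  change ∑ i ∈ Finset.range N, c ^ (T.Q ^ i) = 1 at hc1
  change c ^ (T.Q ^ N) = c at hc2
  have hiter : ∀ i : ℕ, T.vec^[i] x - x ∈ M := by
    intro i
    induction i with
    | zero => simp
    | succ i ih =>
      have h1 : T.vec^[i + 1] x - x = T.vec (T.vec^[i] x - x) + (T.vec x - x) := by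
        rw [Function.iterate_succ_apply', sub_eq_add_neg (T.vec^[i] x) x, T.vec_add]
        have h2 : T.vec (-x) = -T.vec x := by
          ext i; simp [FD.vec]
        rw [h2]
        abel
      rw [h1]
      exact M.add_mem (hMσ _ ih) hx
  have hvs : ∀ (s : Finset ℕ) (f : ℕ → Fin n → K), T.vec (∑ i ∈ s, f i) = ∑ i ∈ s, T.vec (f i) := by
    intro s f
    ext i
    simp [FD.vec, Finset.sum_apply]
  have hstep : ∀ i : ℕ, T.vec (algebraMap 𝕜 K (c ^ (T.Q ^ i)) • T.vec^[i] x) =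
      algebraMap 𝕜 K (c ^ (T.Q ^ (i + 1))) • T.vec^[i + 1] x := by
    intro i
    rw [T.vec_smul, T.const', ← pow_mul, ← pow_succ, Function.iterate_succ_apply']
  refine ⟨∑ i ∈ Finset.range N, algebraMap 𝕜 K (c ^ (T.Q ^ i)) • T.vec^[i] x, ?_, ?_⟩
  · rw [hvs, Finset.sum_congr rfl fun i _ => hstep i, ← sub_eq_zero, ← Finset.sum_sub_distrib,
      Finset.sum_range_sub (fun i => algebraMap 𝕜 K (c ^ (T.Q ^ i)) • T.vec^[i] x), hNx, hc2]
    simp
  · have h1 : x = ∑ i ∈ Finset.range N, algebraMap 𝕜 K (c ^ (T.Q ^ i)) • x := by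
      rw [← Finset.sum_smul, ← map_sum, hc1, map_one, one_smul]
    have h2 : ∑ i ∈ Finset.range N, algebraMap 𝕜 K (c ^ (T.Q ^ i)) • T.vec^[i] x - x =
        ∑ i ∈ Finset.range N, algebraMap 𝕜 K (c ^ (T.Q ^ i)) • (T.vec^[i] x - x) := by
      simp only [smul_sub]
      rw [Finset.sum_sub_distrib, ← h1]
    rw [h2]
    exact M.sum_mem fun i _ => hM _ _ (hiter i)

/-- a uniformizer fixed by the Frobenius automorphism -/
theorem exists_unif (hK : IsCurve 𝕜 K) (T : FD 𝕜 K) (v : Point 𝕜 K) (hv : T.pt v = v) :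
    ∃ ϖ : K, T.ψ ϖ = ϖ ∧ v.val ϖ = exp (-1) := by
  have hval : ∀ x, v.val (T.ψ x) = v.val x := by
    intro x
    conv_lhs => rw [← hv]
    exact T.pt_val v x
  set π := unif v with hπ
  have hπ0 : π ≠ 0 := unif_ne_zero v
  have hvπ : v.val π = exp (-1) := val_unif v
  have hvπ0 : 0 < v.val π := zero_lt_iff.2 (v.val_ne_zero hπ0)
  have h1 : v.val (T.ψ π / π) = 1 := by
    rw [map_div₀, hval, div_self (v.val_ne_zero hπ0)]
  obtain ⟨u, hu⟩ := exists_res hK v h1.le
  have hu0 : u ≠ 0 := by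
    rintro rfl
    rw [map_zero, sub_zero, h1] at hu
    exact lt_irrefl _ hu
  have hQ := T.two_le_Q
  obtain ⟨b, hb⟩ := IsAlgClosed.exists_pow_nat_eq u⁻¹ (show 0 < T.Q - 1 by omega)
  have hb0 : b ≠ 0 := by
    rintro rfl
    rw [zero_pow (by omega)] at hb
    exact inv_ne_zero hu0 hb.symm
  let M : AddSubgroup (Fin 1 → K) :=
    { carrier := {z | v.val (z 0) < v.val π}
      add_mem' := fun {a b} ha hb => by
        change v.val (a 0 + b 0) < v.val π
        exact Valuation.map_add_lt _ ha hb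
      zero_mem' := by
        change v.val ((0 : Fin 1 → K) 0) < v.val π
        rw [Pi.zero_apply, map_zero]; exact hvπ0
      neg_mem' := fun {a} ha => by
        change v.val ((-a) 0) < v.val π
        rw [Pi.neg_apply, Valuation.map_neg]; exact ha }
  obtain ⟨y, hy1, hy2⟩ := average T M (fun c x hx => by
      change v.val (algebraMap 𝕜 K c • x 0) < v.val π
      rw [smul_eq_mul, map_mul]
      exact (mul_le_of_le_one_left' (v.const_le c)).trans_lt hx) (fun x hx => by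
      change v.val (T.ψ (x 0)) < v.val π
      rw [hval]; exact hx) (fun _ => algebraMap 𝕜 K b * π) (by
      change v.val (T.ψ (algebraMap 𝕜 K b * π) - algebraMap 𝕜 K b * π) < v.val π
      have h2 : T.ψ (algebraMap 𝕜 K b * π) - algebraMap 𝕜 K b * π =
          (algebraMap 𝕜 K b * algebraMap 𝕜 K u⁻¹) * ((T.ψ π / π - algebraMap 𝕜 K u) * π) := by
        rw [map_mul, T.const', sub_mul, div_mul_cancel₀ _ hπ0, mul_sub]
        have h3 : b ^ T.Q = b * u⁻¹ := by
          rw [← hb, ← pow_succ']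
          congr 1
          omega
        rw [h3, map_mul]
        have h4 : algebraMap 𝕜 K u⁻¹ * algebraMap 𝕜 K u = 1 := by
          rw [← map_mul, inv_mul_cancel₀ hu0, map_one]
        linear_combination (algebraMap 𝕜 K b * π) * h4
      rw [h2, map_mul, map_mul (v.val) (T.ψ π / π - algebraMap 𝕜 K u) π, ← map_mul (algebraMap 𝕜 K)]
      refine (mul_le_of_le_one_left' (v.const_le _)).trans_lt ?_
      exact mul_lt_of_lt_one_left hvπ0 hu)
  refine ⟨y 0, congrFun hy1 0, ?_⟩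
  have h5 : v.val (y 0 - algebraMap 𝕜 K b * π) < v.val π := hy2
  have h6 : v.val (algebraMap 𝕜 K b * π) = v.val π := by
    rw [map_mul, v.const b hb0, one_mul]
  have h7 : y 0 = algebraMap 𝕜 K b * π + (y 0 - algebraMap 𝕜 K b * π) := by ring
  rw [h7, Valuation.map_add_eq_of_lt_left _ (by rw [h6]; exact h5), h6, hvπ]

theorem fixed_zpow (T : FD 𝕜 K) {ϖ : K} (h : T.ψ ϖ = ϖ) (k : ℤ) : T.ψ (ϖ ^ k) = ϖ ^ k := by
  rw [map_zpow₀, h]

/-- a fixed element with a given value -/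
theorem exists_fixed_val (hK : IsCurve 𝕜 K) (T : FD 𝕜 K) (v : Point 𝕜 K) (hv : T.pt v = v)
    (z : ℤᵐ⁰) (hz : z ≠ 0) : ∃ a : K, a ≠ 0 ∧ T.ψ a = a ∧ v.val a = z := by
  obtain ⟨ϖ, h1, h2⟩ := exists_unif hK T v hv
  have h3 : v.val (ϖ ^ (-log z)) = z := by
    rw [map_zpow₀, h2, ← exp_zsmul]
    simp [exp_log hz]
  refine ⟨ϖ ^ (-log z), ?_, fixed_zpow T h1 _, h3⟩
  intro h
  rw [h, map_zero] at h3
  exact hz h3.symm

/-- the local statement -/
theorem local_frame (hK : IsCurve 𝕜 K) (T : FD 𝕜 K) (v : Point 𝕜 K) (hv : T.pt v = v)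
    (G : Bundle 𝕜 K 2) (hG : Stable T.ψ G.stalk)
    (s : Fin 2 → K) (hs : s ≠ 0) (hψ : T.vec s = s) :
    ∃ γ : GL (Fin 2) K,
      (∀ x, x ∈ G.stalk v ↔ ∀ i, v.val ((γ⁻¹.1 *ᵥ x) i) ≤ 1) ∧
      (∀ i j, T.ψ (γ.1 i j) = γ.1 i j) ∧
      ∃ a : K, a ≠ 0 ∧ (fun i => γ.1 i 0) = a • s := by
  have hval : ∀ x, v.val (T.ψ x) = v.val x := by
    intro x
    conv_lhs => rw [← hv]
    exact T.pt_val v x
  have hG' := (T.stable_iff _).1 hG
  obtain ⟨a, ha0, haψ, hav⟩ := exists_fixed_val hK T v hv (nval G v s)⁻¹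
    (inv_ne_zero (nval_ne_zero G v hs))
  set t : Fin 2 → K := a • s with ht
  have htψ : T.vec t = t := by rw [ht, T.vec_smul, haψ, hψ]
  have htn : nval G v t = 1 := by
    rw [ht, nval_smul, hav, inv_mul_cancel₀ (nval_ne_zero G v hs)]
  have htm : t ∈ G.stalk v := (mem_stalk_iff_nval G v t).2 htn.le
  set g := G.frame v with hg
  set t' : Fin 2 → K := g⁻¹.1 *ᵥ t with ht'
  have hgt' : g.1 *ᵥ t' = t := gl_mulVec_inv g t
  have ht'reg : v.Reg t' := htm
  -- the functional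
  have hdet : g.1.det ≠ 0 := gl_det_ne_zero g
  obtain ⟨d, hd0, hdψ, hdv⟩ := exists_fixed_val hK T v hv (v.val g.1.det) (v.val_ne_zero hdet)
  have hlam : ∀ w : Fin 2 → K, t 0 * (g.1 *ᵥ w) 1 - t 1 * (g.1 *ᵥ w) 0 =
      g.1.det * (t' 0 * w 1 - t' 1 * w 0) := by
    intro w
    rw [← hgt', Matrix.det_fin_two]
    simp only [Matrix.mulVec, dotProduct, Fin.sum_univ_two]
    ring
  have hw0 : ∃ w : Fin 2 → K, v.Reg w ∧ t' 0 * w 1 - t' 1 * w 0 = 1 := by
    have h1 : v.val (t' 0) = 1 ∨ v.val (t' 1) = 1 := by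
      by_contra hcon
      rw [not_or] at hcon
      have h2 : ∀ i, v.val (t' i) ≤ v.val (unif v) := by
        intro i
        rw [← val_lt_one_iff]
        fin_cases i
        · exact lt_of_le_of_ne (ht'reg 0) hcon.1
        · exact lt_of_le_of_ne (ht'reg 1) hcon.2
      have h3 := (nval_le_iff G v t _).2 h2
      rw [htn] at h3
      exact absurd h3 (not_le.2 (val_unif_lt v))
    rcases h1 with h1 | h1
    · have h2 : t' 0 ≠ 0 := by
        intro h; rw [h, map_zero] at h1; exact zero_ne_one h1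
      refine ⟨![0, (t' 0)⁻¹], ?_, ?_⟩
      · intro i
        fin_cases i
        · simp
        · change v.val (t' 0)⁻¹ ≤ 1
          rw [map_inv₀, h1, inv_one]
      · simp [mul_inv_cancel₀ h2]
    · have h2 : t' 1 ≠ 0 := by
        intro h; rw [h, map_zero] at h1; exact zero_ne_one h1
      refine ⟨![-(t' 1)⁻¹, 0], ?_, ?_⟩
      · intro i
        fin_cases i
        · change v.val (-(t' 1)⁻¹) ≤ 1
          rw [Valuation.map_neg, map_inv₀, h1, inv_one]
        · simp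
      · simp [mul_inv_cancel₀ h2]
  obtain ⟨w, hwreg, hw1⟩ := hw0
  have hdv' : v.val (d / g.1.det) = 1 := by
    rw [map_div₀, hdv, div_self (v.val_ne_zero hdet)]
  set y0 : Fin 2 → K := g.1 *ᵥ ((d / g.1.det) • w) with hy0
  have hy0m : y0 ∈ G.stalk v := by
    refine frame_mulVec_mem G v fun i => ?_
    rw [Pi.smul_apply, smul_eq_mul, map_mul, hdv', one_mul]
    exact hwreg i
  have hy0l : t 0 * y0 1 - t 1 * y0 0 = d := by
    rw [hy0, hlam, Pi.smul_apply, Pi.smul_apply, smul_eq_mul, smul_eq_mul]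
    have : t' 0 * (d / g.1.det * w 1) - t' 1 * (d / g.1.det * w 0) =
        d / g.1.det * (t' 0 * w 1 - t' 1 * w 0) := by ring
    rw [this, hw1, mul_one, mul_div_cancel₀ _ hdet]
  have hstab : ∀ x, x ∈ G.stalk v → T.vec x ∈ G.stalk v := by
    intro x hx
    have := (hG' v x).1 hx
    rwa [hv] at this
  have htψi : ∀ i, T.ψ (t i) = t i := fun i => congrFun htψ i
  let M : AddSubgroup (Fin 2 → K) :=
    { carrier := {z | z ∈ G.stalk v ∧ t 0 * z 1 - t 1 * z 0 = 0}
      add_mem' := by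
        rintro a b ⟨ha, ha'⟩ ⟨hb, hb'⟩
        refine ⟨?_, ?_⟩
        · rw [mem_stalk_iff_nval] at ha hb ⊢
          exact (nval_add G v a b).trans (max_le ha hb)
        · rw [Pi.add_apply, Pi.add_apply]
          linear_combination ha' + hb'
      zero_mem' := by
        refine ⟨?_, by simp⟩
        rw [mem_stalk_iff_nval, nval_zero]
        exact zero_le_one
      neg_mem' := by
        rintro a ⟨ha, ha'⟩
        refine ⟨?_, ?_⟩
        · rw [mem_stalk_iff_nval] at ha ⊢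
          have : -a = (-1 : K) • a := by simp
          rw [this, nval_smul, Valuation.map_neg, map_one, one_mul]
          exact ha
        · rw [Pi.neg_apply, Pi.neg_apply]
          linear_combination -ha' }
  obtain ⟨y, hy1, hy2⟩ := average T M (by
      rintro c x ⟨hx, hx'⟩
      refine ⟨?_, ?_⟩
      · rw [mem_stalk_iff_nval] at hx ⊢
        rw [nval_smul]
        exact (mul_le_of_le_one_left' (v.const_le c)).trans hx
      · rw [Pi.smul_apply, Pi.smul_apply, smul_eq_mul, smul_eq_mul]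
        linear_combination (algebraMap 𝕜 K c) * hx') (by
      rintro x ⟨hx, hx'⟩
      refine ⟨hstab x hx, ?_⟩
      have h1 := congrArg T.ψ hx'
      rw [map_sub, map_mul, map_mul, htψi, htψi, map_zero] at h1
      exact h1) y0 (by
      refine ⟨?_, ?_⟩
      · have h1 := hstab y0 hy0m
        rw [mem_stalk_iff_nval] at hy0m h1 ⊢
        have h2 : T.vec y0 - y0 = T.vec y0 + (-1 : K) • y0 := by
          rw [neg_smul, one_smul, sub_eq_add_neg]
        rw [h2]
        refine (nval_add G v _ _).trans (max_le h1 ?_)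
        rw [nval_smul, Valuation.map_neg, map_one, one_mul]
        exact hy0m
      · have h1 := congrArg T.ψ hy0l
        rw [map_sub, map_mul, map_mul, htψi, htψi, hdψ] at h1
        rw [Pi.sub_apply, Pi.sub_apply, T.vec_apply, T.vec_apply]
        linear_combination h1 - hy0l)
  obtain ⟨hy2, hy3⟩ := hy2
  have hym : y ∈ G.stalk v := by
    have h2 : y = (y - y0) + y0 := by abel
    rw [mem_stalk_iff_nval] at hy2 hy0m ⊢
    rw [h2]
    exact (nval_add G v _ _).trans (max_le hy2 hy0m)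
  have hyl : t 0 * y 1 - t 1 * y 0 = d := by
    rw [Pi.sub_apply, Pi.sub_apply] at hy3
    linear_combination hy3 + hy0l
  have hdetγ : (!![t 0, y 0; t 1, y 1] : Matrix (Fin 2) (Fin 2) K).det = d := by
    rw [Matrix.det_fin_two_of]
    linear_combination hyl
  let γ : GL (Fin 2) K := Matrix.GeneralLinearGroup.mkOfDetNeZero !![t 0, y 0; t 1, y 1] (by
    rw [hdetγ]; exact hd0)
  have hγ1 : γ.1 = !![t 0, y 0; t 1, y 1] := rfl
  set B : GL (Fin 2) K := g⁻¹ * γ with hB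
  have hBreg : v.RegM B.1 := by
    apply v.regM_of_forall
    intro x hx
    have h1 := mulVec_mem_stalk G v γ.1 (fun j => by
      fin_cases j
      · have : (fun i => γ.1 i 0) = t := by
          ext i; fin_cases i <;> simp [hγ1]
        change (fun i => γ.1 i 0) ∈ _
        rw [this]; exact htm
      · have : (fun i => γ.1 i 1) = y := by
          ext i; fin_cases i <;> simp [hγ1]
        change (fun i => γ.1 i 1) ∈ _
        rw [this]; exact hym) hx
    rw [mem_stalk_iff, Matrix.mulVec_mulVec] at h1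
    exact h1
  have hBdet : v.val B.1.det = 1 := by
    rw [hB, Units.val_mul, Matrix.det_mul, gl_inv_det, hγ1, hdetγ, map_mul, map_inv₀, hdv,
      inv_mul_cancel₀ (v.val_ne_zero hdet)]
  have hBinv := hBreg.inv hBdet
  refine ⟨γ, fun x => ?_, ?_, a, ha0, ?_⟩
  · constructor
    · intro hx
      have h1 : γ⁻¹.1 *ᵥ x = B⁻¹.1 *ᵥ (g⁻¹.1 *ᵥ x) := by
        rw [Matrix.mulVec_mulVec, ← Units.val_mul]
        congr 2
        rw [hB]
        group
      rw [h1]
      exact hBinv.mulVec hx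
    · intro hx
      have h1 : g⁻¹.1 *ᵥ x = B.1 *ᵥ (γ⁻¹.1 *ᵥ x) := by
        rw [Matrix.mulVec_mulVec, ← Units.val_mul]
        congr 2
        rw [hB]
        group
      rw [mem_stalk_iff, ← hg, h1]
      exact hBreg.mulVec hx
  · have hy1i : ∀ i, T.ψ (y i) = y i := fun i => congrFun hy1 i
    intro i j
    rw [hγ1]
    fin_cases i <;> fin_cases j <;> simp [htψi, hy1i]
  · ext i
    change γ.1 i 0 = t i
    rw [hγ1]
    fin_cases i <;> simp

/-- the action of an automorphism on matrices -/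
noncomputable def glPerm (ψ : K ≃+* K) : Equiv.Perm (GL (Fin 2) K) :=
  (Units.mapEquiv (ψ.mapMatrix (m := Fin 2)).toMulEquiv).toEquiv

theorem glPerm_apply (ψ : K ≃+* K) (γ : GL (Fin 2) K) (i j : Fin 2) :
    (glPerm ψ γ).1 i j = ψ (γ.1 i j) := rfl

theorem glPerm_inv_apply (ψ : K ≃+* K) (γ : GL (Fin 2) K) (i j : Fin 2) :
    (glPerm ψ γ)⁻¹.1 i j = ψ (γ⁻¹.1 i j) := rfl

theorem glPerm_pow_apply (ψ : K ≃+* K) (m : ℕ) (γ : GL (Fin 2) K) (i j : Fin 2) :
    ((glPerm ψ ^ m) γ).1 i j = (ψ ^ m) (γ.1 i j) := by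
  induction m generalizing γ with
  | zero => simp
  | succ m ih =>
    rw [pow_succ', Equiv.Perm.mul_apply, glPerm_apply, ih, pow_succ', RingAut.mul_apply]

theorem stable_pow (S : FD 𝕜 K) (m : ℕ) (hm : 0 < m) (F : Fam 𝕜 K n) (hF : Stable S.ψ F) :
    Stable (S.pow m hm).ψ F := by
  rw [FD.stable_iff, S.pow_pt]
  rw [FD.stable_iff] at hF
  have key : ∀ (k : ℕ) (v : Point 𝕜 K) (s : Fin n → K),
      s ∈ F v ↔ S.vec^[k] s ∈ F ((S.pt ^ k) v) := by
    intro k
    induction k with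
    | zero => intro v s; simp
    | succ k ih =>
      intro v s
      rw [Function.iterate_succ_apply', pow_succ', Equiv.Perm.mul_apply, ← hF, ← ih]
  intro v s
  rw [key m v s]
  have h1 : S.vec^[m] s = (S.pow m hm).vec s := by
    ext i
    rw [vec_iterate]
    rfl
  rw [h1]

theorem vec_pow_fixed (S : FD 𝕜 K) (m : ℕ) (hm : 0 < m) (s : Fin n → K) (hs : S.vec s = s) :
    (S.pow m hm).vec s = s := by
  have h1 : S.vec^[m] s = (S.pow m hm).vec s := by
    ext i
    rw [vec_iterate]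
    rfl
  rw [← h1]
  exact Function.iterate_fixed hs m

end J381

variable {𝕜 K : Type} [Field 𝕜] [IsAlgClosed 𝕜] [Field K] [Algebra 𝕜 K]

theorem exists_frames (hK : IsCurve 𝕜 K) (S : FD 𝕜 K)
    (horb : ∀ v : Point 𝕜 K, ∃ m : ℕ, 0 < m ∧ (S.pt ^ m) v = v)
    (G : Bundle 𝕜 K 2) (hG : Stable S.ψ G.stalk)
    (s : Fin 2 → K) (hs : s ≠ 0) (hψ : S.vec s = s) :
    ∃ γ : Point 𝕜 K → GL (Fin 2) K,
      (∀ v x, x ∈ G.stalk v ↔ ∀ i, v.val (((γ v)⁻¹.1 *ᵥ x) i) ≤ 1) ∧
      (∀ v i j, (γ (S.pt v)).1 i j = S.ψ ((γ v).1 i j)) ∧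
      ∀ v, ∃ a : K, a ≠ 0 ∧ (fun i => (γ v).1 i 0) = a • s := by
  have hG' := (S.stable_iff _).1 hG
  have hψi : ∀ i, S.ψ (s i) = s i := fun i => congrFun hψ i
  let P : Point 𝕜 K → GL (Fin 2) K → Prop := fun v γ =>
    (∀ x, x ∈ G.stalk v ↔ ∀ i, v.val ((γ⁻¹.1 *ᵥ x) i) ≤ 1) ∧
      ∃ a : K, a ≠ 0 ∧ (fun i => γ.1 i 0) = a • s
  have hP : ∀ v γ, P v γ ↔ P (S.pt v) (J381.glPerm S.ψ γ) := by
    intro v γ
    have key : ∀ (x : Fin 2 → K) (i : Fin 2), (S.pt v).val (((J381.glPerm S.ψ γ)⁻¹.1 *ᵥ S.vec x) i) =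
        v.val ((γ⁻¹.1 *ᵥ x) i) := by
      intro x i
      rw [← S.pt_val v ((γ⁻¹.1 *ᵥ x) i)]
      congr 1
      simp only [Matrix.mulVec, dotProduct, Fin.sum_univ_two, map_add, map_mul,
        J381.glPerm_inv_apply, S.vec_apply]
    refine and_congr ⟨fun h x => ?_, fun h x => ?_⟩ ⟨?_, ?_⟩
    · obtain ⟨x, rfl⟩ : ∃ x' : Fin 2 → K, S.vec x' = x :=
        ⟨fun i => S.ψ.symm (x i), by ext i; simp [FD.vec]⟩
      rw [← hG', h]
      simp only [key]
    · rw [hG', h]
      simp only [key]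
    · rintro ⟨a, ha, h⟩
      refine ⟨S.ψ a, (map_ne_zero S.ψ).2 ha, ?_⟩
      ext i
      have h1 : γ.1 i 0 = a * s i := congrFun h i
      change S.ψ (γ.1 i 0) = S.ψ a * s i
      rw [h1, map_mul, hψi]
    · rintro ⟨a, ha, h⟩
      obtain ⟨a, rfl⟩ := S.ψ.surjective a
      refine ⟨a, fun h0 => ha (by rw [h0, map_zero]), ?_⟩
      ext i
      have h1 : S.ψ (γ.1 i 0) = S.ψ a * s i := congrFun h i
      change γ.1 i 0 = a * s i
      apply S.ψ.injective
      rw [h1, map_mul, hψi]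
  have hloc : ∀ v (m : ℕ), 0 < m → (S.pt ^ m) v = v → ∃ γ, P v γ ∧ (J381.glPerm S.ψ ^ m) γ = γ := by
    intro v m hm hv
    have hv' : (S.pow m hm).pt v = v := by rw [S.pow_pt]; exact hv
    obtain ⟨γ, h1, h2, h3⟩ := J381.local_frame hK (S.pow m hm) v hv' G
      (J381.stable_pow S m hm _ hG) s hs (J381.vec_pow_fixed S m hm s hψ)
    refine ⟨γ, ⟨h1, h3⟩, ?_⟩
    apply Units.ext
    ext i j
    rw [J381.glPerm_pow_apply]
    exact h2 i j
  obtain ⟨γ, hγ⟩ := J381.equivariant_choice S.pt (J381.glPerm S.ψ) P hP horb hloc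
  refine ⟨γ, fun v => (hγ v).1.1, fun v i j => ?_, fun v => (hγ v).1.2⟩
  rw [(hγ v).2]
  rfl

end Pool.Agent.TH185
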