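import Pool.Agent.TH563.V.Defs
import Pool.Agent.TH563.Z.Child2

/-!
Job 1737 (V-F, project V of helper563): the step at a large vertex without circle.
-/

set_option autoImplicit false
set_option maxHeartbeats 1000000

namespace Pool.Agent.TH761.J1737

open Filter Topology Metric Set
open Pool.Agent.W711.HT hiding XX
open Pool.Agent.TH563.UV
open Pool.Agent.TH563.Z
open Pool.Agent.TH563.V
open Pool.Agent.W85.HT hiding Rc_mono
open Pool.Agent.W293.HT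
open scoped Real

section

variable {ρ τ κ c C : ℝ} {U : Set ℂ} {k : ℕ → ℂ → ℂ → ℂ} {σ : ℂ → ℂ → ℂ}

theorem ds_jointV (hU' : IsOpen U)
    (hs : DifferentiableOn ℂ (fun p : ℂ × ℂ => σ p.1 p.2) (Rc (3 * ρ) (3 * τ) ×ˢ U)) :
    DifferentiableOn ℂ (fun p : ℂ × ℂ => deriv (fun w => σ w p.2) p.1)
      (Rc (3 * ρ) (3 * τ) ×ˢ U) := by
  have hU := (isOpen_Rc (3 * ρ) (3 * τ)).prod hU'
  have h1 := Pool.Agent.Helper540.differentiableOn_fderiv_apply hU hs ((1 : ℂ), (0 : ℂ))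
  refine h1.congr ?_
  rintro ⟨w, ψ⟩ hp
  have h2 : DifferentiableAt ℂ (fun p : ℂ × ℂ => σ p.1 p.2) (w, ψ) :=
    hs.differentiableAt (hU.mem_nhds hp)
  have h3 : HasDerivAt (fun w : ℂ => (w, ψ)) ((1 : ℂ), (0 : ℂ)) w :=
    (hasDerivAt_id w).prodMk (hasDerivAt_const w ψ)
  exact (h2.hasFDerivAt.comp_hasDerivAt w h3).deriv

theorem dds_diffV (hU' : IsOpen U) (hρ0 : 0 < ρ) (hτ0 : 0 < τ)
    (hs : DifferentiableOn ℂ (fun p : ℂ × ℂ => σ p.1 p.2) (Rc (3 * ρ) (3 * τ) ×ˢ U)) :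
    DifferentiableOn ℂ (fun ψ => deriv (deriv (fun w => σ w ψ)) 0) U := by
  have hU := (isOpen_Rc (3 * ρ) (3 * τ)).prod hU'
  have h0 : (0 : ℂ) ∈ Rc (3 * ρ) (3 * τ) := zero_mem_Rc (by linarith) (by linarith)
  have h1 := Pool.Agent.Helper540.differentiableOn_fderiv_apply hU (ds_jointV hU' hs)
    ((1 : ℂ), (0 : ℂ))
  have h2 : DifferentiableOn ℂ (fun ψ : ℂ => ((0 : ℂ), ψ)) U :=
    ((differentiable_const (0 : ℂ)).prodMk differentiable_id).differentiableOn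
  have h3 := h1.comp h2 (fun ψ hψ => ⟨h0, hψ⟩)
  refine h3.congr ?_
  intro ψ hψ
  have h4 : DifferentiableAt ℂ (fun p : ℂ × ℂ => deriv (fun w => σ w p.2) p.1) (0, ψ) :=
    (ds_jointV hU' hs).differentiableAt (hU.mem_nhds ⟨h0, hψ⟩)
  have h5 : HasDerivAt (fun w : ℂ => (w, ψ)) ((1 : ℂ), (0 : ℂ)) 0 :=
    (hasDerivAt_id _).prodMk (hasDerivAt_const _ ψ)
  exact (h4.hasFDerivAt.comp_hasDerivAt (0 : ℂ) h5).deriv

theorem s_diffV (hs : DifferentiableOn ℂ (fun p : ℂ × ℂ => σ p.1 p.2)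
    (Rc (3 * ρ) (3 * τ) ×ˢ U)) {ψ : ℂ} (hψ : ψ ∈ U) :
    DifferentiableOn ℂ (fun w => σ w ψ) (Rc (3 * ρ) (3 * τ)) := by
  have : DifferentiableOn ℂ (fun w : ℂ => (w, ψ)) (Rc (3 * ρ) (3 * τ)) :=
    (differentiable_id.prodMk (differentiable_const ψ)).differentiableOn
  exact hs.comp this (fun w hw => ⟨hw, hψ⟩)

/-- from limits along sequences to uniform asymptotics on a compact set -/
lemma mw_seqV {Z : ℕ → ℂ → ℂ} {G : ℂ → ℂ} {κ : ℝ} {V : Set ℂ} (hV : IsCompact V) (hκ : 0 < κ)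
    (hG : ContinuousOn G V) (hpos : ∀ φ ∈ V, κ / 2 ≤ (G φ).re)
    (hseq : ∀ (p : ℕ → ℂ) (p₀ : ℂ), p₀ ∈ V → (∀ N, p N ∈ V) → Tendsto p atTop (𝓝 p₀) →
      Tendsto (fun N => Real.log ‖Z N (p N)‖ / N) atTop (𝓝 (G p₀).re)) :
    MW Z G V := by
  have hunif := Pool.Agent.W583.HT.seq ℂ V hV
    (fun N ψ' => Real.log ‖Z N ψ'‖ / N) (fun ψ' => (G ψ').re)
    (Complex.continuous_re.comp_continuousOn hG) hseq
  intro ε hε
  filter_upwards [hunif (min ε (κ / 4)) (lt_min hε (by positivity)), eventually_gt_atTop 0] with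
    N h1 h2 ψ hψ
  have hN' : (0 : ℝ) < N := by exact_mod_cast h2
  have k1 := h1 ψ hψ
  refine ⟨?_, ?_⟩
  · intro h0
    rw [h0, norm_zero, Real.log_zero, zero_div, zero_sub, abs_neg] at k1
    have k2 := hpos ψ hψ
    have k3 := (le_abs_self _).trans k1
    have k4 := min_le_right ε (κ / 4)
    linarith
  · have k2 : |Real.log ‖Z N ψ‖ / N - (G ψ).re| ≤ ε := k1.trans (min_le_left _ _)
    have k3 : Real.log ‖Z N ψ‖ - N * (G ψ).re =
        N * (Real.log ‖Z N ψ‖ / N - (G ψ).re) := by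
      field_simp
    rw [k3, abs_mul, abs_of_pos hN', mul_comm ε]
    exact mul_le_mul_of_nonneg_left k2 hN'.le

/-- the critical points -/
theorem cpv (hFIX : S_FIX) (hE : ED ρ τ κ c C U k σ) {c₁ C₁ : ℝ} (hc₁ : 0 < c₁)
    (hC₁ : 0 < C₁) {r₀ ε₁ : ℝ} (hr₀ : 0 < r₀) (hε10 : 0 < ε₁) :
    ∃ K : ℝ, 0 < K ∧ ∀ (t : ℕ) (F : ℂ → ℂ), GH ρ τ (c₁ * t) (C₁ * t) F →
      ∀ a : ℤ, K ^ 2 ≤ ((t + 1 : ℕ) : ℝ) ^ 2 + (a : ℝ) ^ 2 →
        ∃ (F' : ℂ → ℂ) (zs : ℂ → ℂ), DifferentiableOn ℂ F' U ∧ DifferentiableOn ℂ zs U ∧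
        (∀ ψ ∈ U, ‖F' ψ - F 0 - σ 0 ψ‖ ≤ ε₁) ∧
        (∃ r : ℝ, 0 < r ∧ ∀ p ∈ U, ‖zs p‖ ≤ r ∧ ∀ z : ℂ, ‖z‖ ≤ r →
          Complex.I * a * z / (2 * π) + Complex.I + deriv F z + deriv (fun w => σ w p) z = 0 →
          z = zs p) ∧
        ∀ ψ' ∈ U, CPu ρ τ r₀ (zs ψ') ∧
          SAD a (fun w => F w + σ w ψ') ρ (zs ψ') ∧
          Complex.I * a * zs ψ' / (2 * π) + Complex.I + deriv F (zs ψ') +
            deriv (fun w => σ w ψ') (zs ψ') = 0 ∧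
          F' ψ' = qq a F (zs ψ') + σ (zs ψ') ψ' ∧
          HasDerivAt F' (deriv (fun w => σ (zs ψ') w) ψ') ψ' := by
  have hρ0 := hE.hρ.1
  have hρ1 := hE.hρ.2
  have hτ0 := hE.hτ.1
  have hτρ := hE.hτ.2
  have hc := hE.hc
  have hC := hE.hC
  have hpi := Real.pi_pos
  have hUc := isOpen_Rc (3 * ρ) (3 * τ)
  have hUz := hE.hU
  have h0 : (0 : ℂ) ∈ Rc (3 * ρ) (3 * τ) := zero_mem_Rc (by linarith) (by linarith)
  have hsub23 : Rc (2 * ρ) (2 * τ) ⊆ Rc (3 * ρ) (3 * τ) := Rc_mono (by linarith) (by linarith)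
  obtain ⟨c₂, hc₂⟩ : ∃ c₂ : ℝ, c₂ = min c₁ c := ⟨_, rfl⟩
  have hc₂0 : 0 < c₂ := by rw [hc₂]; exact lt_min hc₁ hc
  have hc₂a : c₂ ≤ c₁ := by rw [hc₂]; exact min_le_left _ _
  have hc₂b : c₂ ≤ c := by rw [hc₂]; exact min_le_right _ _
  obtain ⟨C', hC'⟩ : ∃ C' : ℝ, C' = C₁ + 8 * C / τ ^ 2 + 1 := ⟨_, rfl⟩
  have hCb : 0 ≤ 8 * C / τ ^ 2 := by positivity
  have hC'1 : 1 ≤ C' := by rw [hC']; linarith
  have hC'0 : 0 < C' := by linarith
  obtain ⟨R, hR, L₀, hL₀, hex⟩ := exU hFIX hτ0 hτρ hc₂0 hC'1 hUz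
  obtain ⟨R', hR'⟩ : ∃ R' : ℝ, R' = R ^ 2 / 2 + R + C' * R ^ 2 := ⟨_, rfl⟩
  have hR'0 : 0 < R' := by rw [hR']; positivity
  obtain ⟨S, hS⟩ : ∃ S : ℝ, S = 2 * (C' * R ^ 2 / 4 + C' ^ 2 * R ^ 2 + R') := ⟨_, rfl⟩
  have hS0 : 0 < S := by rw [hS]; positivity
  obtain ⟨L₁, hL₁⟩ : ∃ L₁ : ℝ, L₁ = L₀ + (R / τ + 1) + (S / (c₂ * ρ ^ 2) + 1) +
    R' / ε₁ + R / r₀ := ⟨_, rfl⟩
  have v1 : 0 < R / τ := by positivity
  have v2 : 0 < S / (c₂ * ρ ^ 2) := by positivity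
  have v4 : 0 < R' / ε₁ := by positivity
  have v5 : 0 < R / r₀ := by positivity
  have hL₁0 : 0 < L₁ := by linarith
  refine ⟨2 * π * L₁, by positivity, ?_⟩
  intro t F gF a hbg
  have ht0 : (0 : ℝ) ≤ t := Nat.cast_nonneg t
  have hFc : DifferentiableOn ℂ F (Rc (3 * ρ) (3 * τ)) := gF.an
  have gh1 : ∀ ψ ∈ U,
      GH ρ τ (c₂ * ((t : ℝ) + 1)) (C' * ((t : ℝ) + 1)) (fun w => F w + σ w ψ) := by
    intro ψ hψ
    have hsd := s_diffV hE.san hψ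
    refine ⟨hFc.add hsd, ?_, ?_, ?_⟩
    · intro w hw
      show F (-w) + σ (-w) ψ = F w + σ w ψ
      rw [gF.ev w hw, hE.ev w hw ψ hψ]
    · intro w hw
      rw [dd_add hUc hFc hsd (hsub23 hw), Complex.add_re]
      have e1 := gF.d2 w hw
      have e2 := hE.conc w (hsub23 hw) ψ hψ
      have e3 : c₂ * t ≤ c₁ * t := mul_le_mul_of_nonneg_right hc₂a ht0
      linarith
    · intro w hw
      rw [dd_add hUc hFc hsd (hsub23 hw)]
      refine (norm_add_le _ _).trans ?_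
      have e1 := gF.d2b w hw
      have e2 := cauchy2 (g := fun w => σ w ψ) hτ0 hτρ hsd
        (fun z hz => hE.sbd z hz ψ hψ) hw
      have e3 : 0 ≤ 8 * C / τ ^ 2 * t := by positivity
      have e4 : C' * ((t : ℝ) + 1) = C₁ * t + 8 * C / τ ^ 2 +
          (C₁ + 8 * C / τ ^ 2 * t + t + 1) := by
        rw [hC']
        ring
      rw [e4]
      linarith
  obtain ⟨A, hA⟩ : ∃ A : ℝ, A = a / (2 * π) := ⟨_, rfl⟩
  have hL : L₁ ≤ |A| + ((t : ℝ) + 1) := by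
    have h1 : (2 * π * L₁) ^ 2 ≤ (((t + 1 : ℕ) : ℝ) + |(a : ℝ)|) ^ 2 := by
      have : (a : ℝ) ^ 2 = |(a : ℝ)| ^ 2 := (sq_abs _).symm
      rw [this] at hbg
      have : 0 ≤ ((t + 1 : ℕ) : ℝ) * |(a : ℝ)| := by positivity
      nlinarith
    have h2 : 2 * π * L₁ ≤ ((t + 1 : ℕ) : ℝ) + |(a : ℝ)| := by
      apply le_of_sq_le_sq h1
      positivity
    have h3 : |A| = |(a : ℝ)| / (2 * π) := by
      rw [hA, abs_div, abs_of_pos (by positivity : (0 : ℝ) < 2 * π)]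
    have h4 : ((t + 1 : ℕ) : ℝ) ≤ 2 * π * ((t + 1 : ℕ) : ℝ) := by
      have : (1 : ℝ) ≤ 2 * π := by linarith [Real.pi_gt_three]
      have h5 : (0 : ℝ) ≤ ((t + 1 : ℕ) : ℝ) := Nat.cast_nonneg _
      nlinarith
    have h5 : 2 * π * (|A| + ((t + 1 : ℕ) : ℝ)) = |(a : ℝ)| + 2 * π * ((t + 1 : ℕ) : ℝ) := by
      rw [h3]; field_simp
    have h6 : 2 * π * L₁ ≤ 2 * π * (|A| + ((t + 1 : ℕ) : ℝ)) := by linarith
    have h7 := le_of_mul_le_mul_left h6 (by positivity)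
    rw [Nat.cast_add, Nat.cast_one] at h7
    exact h7
  obtain ⟨L, hLe⟩ : ∃ L : ℝ, L = |A| + ((t : ℝ) + 1) := ⟨_, rfl⟩
  rw [← hLe] at hL
  have hLp : 0 < L := by linarith
  have k0 : L₀ ≤ L := by linarith
  have k1 : R / L < τ := by
    have h1 : R / τ < L := by linarith
    rw [div_lt_iff₀ hτ0] at h1
    rw [div_lt_iff₀ hLp]
    linarith
  have k2 : 2 * (C' * R ^ 2 / 4 + C' ^ 2 * R ^ 2 + (R ^ 2 / 2 + R + C' * R ^ 2)) / L <
      c₂ * ρ ^ 2 := by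
    rw [← hR', ← hS]
    have h1 : S / (c₂ * ρ ^ 2) < L := by linarith
    rw [div_lt_iff₀ (by positivity)] at h1
    rw [div_lt_iff₀ hLp]
    linarith
  have k4 : R' / L ≤ ε₁ := by
    have h1 : R' / ε₁ ≤ L := by linarith
    rw [div_le_iff₀ hε10] at h1
    rw [div_le_iff₀ hLp]
    linarith
  have k5 : R / L ≤ r₀ := by
    have h1 : R / r₀ ≤ L := by linarith
    rw [div_le_iff₀ hr₀] at h1
    rw [div_le_iff₀ hLp]
    linarith
  have ht1 : (1 : ℝ) ≤ (t : ℝ) + 1 := by linarith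
  have hsum : ∀ ψ ∈ U, ∀ w ∈ Rc (3 * ρ) (3 * τ),
      deriv (fun w => F w + σ w ψ) w = deriv F w + deriv (fun w => σ w ψ) w := by
    intro ψ hψ w hw
    exact deriv_fun_add (hFc.differentiableAt (hUc.mem_nhds hw))
      ((s_diffV hE.san hψ).differentiableAt (hUc.mem_nhds hw))
  have hballsub : ball (0 : ℂ) τ ⊆ Rc (3 * ρ) (3 * τ) := fun w hw =>
    Rc_mono (by linarith) (by linarith) (mem_Rc_of_norm hτρ (by rwa [mem_ball_zero_iff] at hw))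
  obtain ⟨zs, hzd, hz⟩ := hex ((t : ℝ) + 1) (fun ψ w => F w + σ w ψ) ht1 gh1
    (by
      have e1 : DifferentiableOn ℂ (fun p : ℂ × ℂ => deriv F p.1) (ball 0 τ ×ˢ U) :=
        (hFc.deriv hUc).comp differentiableOn_fst (fun p hp => hballsub hp.1)
      have e2 := (ds_jointV hUz hE.san).mono (prod_mono_left (t := U) hballsub)
      refine (e1.add e2).congr ?_
      rintro ⟨w, ψ⟩ ⟨hw, hψ⟩
      exact hsum ψ hψ w (hballsub hw))
    (by
      refine ((differentiableOn_const (deriv (deriv F) 0)).add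
        (dds_diffV hUz hρ0 hτ0 hE.san)).congr ?_
      intro ψ hψ
      exact dd_add hUc hFc (s_diffV hE.san hψ) h0)
    A (by rw [← hLe]; exact k0)
  rw [← hLe] at hz
  have hz3 : ∀ ψ ∈ U, zs ψ ∈ Rc (3 * ρ) (3 * τ) := by
    intro ψ hψ
    apply hballsub
    rw [mem_ball_zero_iff]
    exact (hz ψ hψ).1.trans_lt k1
  have hcr : ∀ ψ ∈ U,
      Complex.I * A * zs ψ + Complex.I + (deriv F (zs ψ) + deriv (fun w => σ w ψ) (zs ψ)) =
        0 := by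
    intro ψ hψ
    rw [← hsum ψ hψ _ (hz3 ψ hψ)]
    exact (hz ψ hψ).2.1
  have hprops : ∀ ψ ∈ U, _ := fun ψ hψ =>
    crit_propsU ht1 (gh1 ψ hψ) hτ0 hτρ hρ1 hc₂0 hC'1 a A hA hR (by rw [← hLe]; exact k1)
      (by rw [← hLe]; exact k2) (zs ψ) (by rw [← hLe]; exact (hz ψ hψ).1) (hz ψ hψ).2.1
  rw [← hLe] at hprops
  have hcr' : ∀ ψ ∈ U, Complex.I * a * zs ψ / (2 * π) + Complex.I +
      deriv F (zs ψ) + deriv (fun w => σ w ψ) (zs ψ) = 0 := by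
    intro ψ hψ
    rw [← hcr ψ hψ, hA]
    push_cast
    ring
  have hFp : ∀ ψ ∈ U,
      HasDerivAt (fun ψ => qq a F (zs ψ) + σ (zs ψ) ψ) (deriv (fun w => σ (zs ψ) w) ψ) ψ := by
    intro ψ hψ
    have hzψ := hz3 ψ hψ
    have e1 : HasDerivAt zs (deriv zs ψ) ψ :=
      (hzd.differentiableAt (hUz.mem_nhds hψ)).hasDerivAt
    have e2 : HasDerivAt (fun ψ => qq a F (zs ψ))
        ((Complex.I * a * zs ψ / (2 * π) + Complex.I + deriv F (zs ψ)) * deriv zs ψ) ψ :=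
      HasDerivAt.comp ψ (hasDerivAt_qq a (hFc.differentiableAt (hUc.mem_nhds hzψ))) e1
    have e3 : DifferentiableAt ℂ (fun p : ℂ × ℂ => σ p.1 p.2) (zs ψ, ψ) :=
      hE.san.differentiableAt ((hUc.prod hUz).mem_nhds ⟨hzψ, hψ⟩)
    have e4 : HasDerivAt (fun ψ => σ (zs ψ) ψ)
        (fderiv ℂ (fun p : ℂ × ℂ => σ p.1 p.2) (zs ψ, ψ) (deriv zs ψ, 1)) ψ :=
      HasFDerivAt.comp_hasDerivAt (l := fun p : ℂ × ℂ => σ p.1 p.2) (f := fun ψ => (zs ψ, ψ)) ψ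
        e3.hasFDerivAt (e1.prodMk (hasDerivAt_id ψ))
    have e5 : fderiv ℂ (fun p : ℂ × ℂ => σ p.1 p.2) (zs ψ, ψ) (1, 0) =
        deriv (fun w => σ w ψ) (zs ψ) :=
      ((e3.hasFDerivAt.comp_hasDerivAt (zs ψ)
        ((hasDerivAt_id (zs ψ)).prodMk (hasDerivAt_const (zs ψ) ψ))).deriv).symm
    have e6 : fderiv ℂ (fun p : ℂ × ℂ => σ p.1 p.2) (zs ψ, ψ) (0, 1) =
        deriv (fun w => σ (zs ψ) w) ψ :=
      ((e3.hasFDerivAt.comp_hasDerivAt ψ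
        ((hasDerivAt_const ψ (zs ψ)).prodMk (hasDerivAt_id ψ))).deriv).symm
    have e7 : ((deriv zs ψ, 1) : ℂ × ℂ) = deriv zs ψ • ((1, 0) : ℂ × ℂ) + (0, 1) := by
      ext <;> simp
    refine (e2.add e4).congr_deriv ?_
    rw [e7, map_add, map_smul, e5, e6, smul_eq_mul]
    linear_combination (deriv zs ψ) * (hcr' ψ hψ)
  refine ⟨fun ψ => qq a F (zs ψ) + σ (zs ψ) ψ, zs, ?_, hzd, ?_, ?_, ?_⟩
  · intro ψ hψ
    exact (hFp ψ hψ).differentiableAt.differentiableWithinAt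
  · intro ψ hψ
    have e1 := (hprops ψ hψ).2.2.2
    have e2 : qq a (fun w => F w + σ w ψ) (zs ψ) - (F 0 + σ 0 ψ) =
        (qq a F (zs ψ) + σ (zs ψ) ψ) - F 0 - σ 0 ψ := by
      unfold qq
      ring
    rw [e2, ← hR'] at e1
    exact e1.trans k4
  · refine ⟨R / L, by positivity, fun p hp => ⟨(hz p hp).1, fun z hz1 hz2 => ?_⟩⟩
    refine (hz p hp).2.2 z hz1 ?_
    have hz4 : z ∈ Rc (3 * ρ) (3 * τ) := by
      apply hballsub
      rw [mem_ball_zero_iff]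
      exact hz1.trans_lt k1
    show Complex.I * A * z + Complex.I + deriv (fun w => F w + σ w p) z = 0
    rw [hsum p hp z hz4, ← hz2, hA]
    push_cast
    ring
  · intro ψ hψ
    obtain ⟨p1, p2, p3, -⟩ := hprops ψ hψ
    exact ⟨⟨p1, p2, (hz ψ hψ).1.trans k5⟩, p3, hcr' ψ hψ, rfl, hFp ψ hψ⟩

/-- asymptotics of the product with the kernel -/
lemma mw_prodV (hE : ED ρ τ κ c C U k σ) {κ₁ c₁ C₁ : ℝ} {t : ℕ} {X : ℕ → ℂ → ℂ} {F : ℂ → ℂ}
    (hX : GoodV ρ τ κ₁ c₁ C₁ t X F) :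
    ∀ ε' : ℝ, 0 < ε' → ∀ᶠ N : ℕ in atTop, ∀ w ∈ Rc (2 * ρ) (2 * τ),
      ∀ p ∈ U, X N w * k N w p ≠ 0 ∧
        |Real.log ‖X N w * k N w p‖ - N * (F w + σ w p).re| ≤ ε' * N := by
  intro ε' hε'
  have hρ0 := hE.hρ.1
  have hτ0 := hE.hτ.1
  filter_upwards [hX.mw (ε' / 2) (by positivity), hE.mw (ε' / 2) (by positivity)] with
    N h1 h2 w hw p hp
  obtain ⟨k1, k2⟩ := h1 w hw
  obtain ⟨k3, k4⟩ := h2 w (Rc_mono (by linarith) (by linarith) hw) p hp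
  refine ⟨mul_ne_zero k1 k3, ?_⟩
  rw [norm_mul, Real.log_mul (norm_ne_zero_iff.2 k1) (norm_ne_zero_iff.2 k3), Complex.add_re]
  rw [abs_le] at k2 k4 ⊢
  constructor
  · linarith [k2.1, k4.1]
  · linarith [k2.2, k4.2]

/-- asymptotics -/
theorem mwV (hE : ED ρ τ κ c C U k σ) {κ₁ c₁ C₁ : ℝ} (hκ₁ : 0 < κ₁) {t : ℕ} {X : ℕ → ℂ → ℂ}
    {F : ℂ → ℂ} (hX : GoodV ρ τ κ₁ c₁ C₁ t X F) {a : ℤ} {r₀ : ℝ} {F' zs : ℂ → ℂ}
    (hF'd : DifferentiableOn ℂ F' U) (hF'n : ∀ φ ∈ U, ‖F' φ - F 0 - σ 0 φ‖ ≤ κ / 16)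
    (hF'z : ∀ φ ∈ U, CPu ρ τ r₀ (zs φ) ∧
      SAD a (fun w => F w + σ w φ) ρ (zs φ) ∧ F' φ = qq a F (zs φ) + σ (zs φ) φ)
    {V : Set ℂ} (hV : IsCompact V) (hVU : V ⊆ U) :
    MW (stk a X k) F' V := by
  have hρ0 := hE.hρ.1
  have hρ1 := hE.hρ.2
  have hτ0 := hE.hτ.1
  have hκ := hE.hκ.1
  have hκ1 := hE.hκ.2
  have hπ := Real.pi_gt_three
  have hcc : Kc (2 * ρ) (2 * τ) ⊆ Rc (3 * ρ) (3 * τ) := by
    intro w hw
    rw [Kc_mem] at hw
    exact ⟨by linarith [hw.1], by linarith [hw.2]⟩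
  have hlow : ∀ φ ∈ U, (F 0).re + (σ 0 φ).re - κ / 16 ≤ (F' φ).re := by
    intro φ hφ
    have h2 := (Complex.abs_re_le_norm _).trans (hF'n φ hφ)
    rw [Complex.sub_re, Complex.sub_re] at h2
    linarith [(abs_le.1 h2).1]
  have hscont : ContinuousOn (fun p : ℂ × ℂ => σ p.1 p.2)
      (Kc (2 * ρ) (2 * τ) ×ˢ V) :=
    hE.san.continuousOn.mono (Set.prod_mono hcc hVU)
  have m0 : (0 : ℂ) ∈ Kc (2 * ρ) (2 * τ) := by
    rw [Kc_mem, Complex.zero_re, Complex.zero_im, abs_zero]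
    constructor <;> linarith
  refine mw_seqV hV hκ (hF'd.continuousOn.mono hVU) ?_ ?_
  · intro φ hφ
    have h1 := hlow φ (hVU hφ)
    have h2 := hE.slow φ (hVU hφ)
    have h3 := hX.pos
    linarith
  · intro p p₀ hp0 hp hlim
    obtain ⟨hz1, hz2, hz4⟩ := hF'z p₀ (hVU hp0)
    have z1 : |(zs p₀).re| < ρ := hz1.mem.1
    have z3 : (zs p₀).im < τ := by
      have := hz1.mem.2
      rwa [abs_of_pos hz1.im] at this
    have hsd := s_diffV hE.san (hVU hp0)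
    have hV' : (qq a (fun w => F w + σ w p₀) (zs p₀)).re = (F' p₀).re := by
      have e : qq a (fun w => F w + σ w p₀) (zs p₀) = qq a F (zs p₀) + σ (zs p₀) p₀ := by
        unfold qq; ring
      rw [e, hz4]
    have hun := fun (e : ℝ) (he : 0 < e) => unif2 (Kc_compact _ _) hV hscont hp
      hp0 hlim he
    have hnear := lap_strong f_LAPINT (Y := fun N w => X N w * k N w (p N))
      (G := fun w => F w + σ w p₀) (a := a) (z := zs p₀) hρ0 hτ0 (by linarith)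
      (by
        filter_upwards with N
        exact ((hX.an N).mul (hE.kan N (p N) (hVU (hp N)))).differentiableOn)
      ((hX.gh.an.add hsd).mono (Rc_mono (by linarith) (by linarith)))
      (by
        intro e he
        filter_upwards [mw_prodV hE hX (e / 2) (by positivity),
          hun (e / 2) (by positivity)] with N h1 h3 w hw
        obtain ⟨k1, k2⟩ := h1 w hw (p N) (hVU (hp N))
        have k5 := h3 w (by rw [Kc_mem]; exact ⟨hw.1.le, hw.2.le⟩)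
        refine ⟨k1, ?_⟩
        have k6 := (Complex.abs_re_le_norm _).trans k5.le
        rw [Complex.sub_re] at k6
        have hN0 : (0 : ℝ) ≤ N := Nat.cast_nonneg N
        have k7 : |N * ((σ w (p N)).re - (σ w p₀).re)| ≤ N * (e / 2) := by
          rw [abs_mul, abs_of_nonneg hN0]
          exact mul_le_mul_of_nonneg_left k6 hN0
        rw [Complex.add_re] at k2 ⊢
        rw [abs_le] at k2 k7 ⊢
        constructor
        · linarith [k2.1, k7.1]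
        · linarith [k2.2, k7.2])
      z1 hz1.im z3 hz2
    rw [hV'] at hnear
    have hfull := full_lim upb (a := a) hρ0 (by linarith : ρ ≤ π)
      (f := fun N w => X N w * k N w (p N))
      (V := (F' p₀).re) (κ := κ / 4) (by positivity)
      (fun N => (hX.an N).continuous.mul (hE.kan N (p N) (hVU (hp N))).continuous) hnear
      (by
        filter_upwards [hX.gl1, hE.far, hun (κ / 16) (by positivity)] with
          N h1 h1' h2 x y hx1 hx2 hy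
        have q1 := h1 x y hx1 hx2 hy
        have q2 := h1' x y hx1 hx2 hy (p N) (hVU (hp N))
        show ‖X N (x + y * Complex.I) * k N (x + y * Complex.I) (p N)‖ ≤ _
        rw [norm_mul]
        refine (mul_le_mul q1 q2 (norm_nonneg _) (Real.exp_pos _).le).trans ?_
        rw [← Real.exp_add, ← mul_add]
        apply Real.exp_le_exp.2
        apply mul_le_mul_of_nonneg_left _ (Nat.cast_nonneg N)
        have k3 := hlow p₀ (hVU hp0)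
        have k4 := (Complex.re_le_norm _).trans (h2 0 m0).le
        rw [Complex.sub_re] at k4
        have k5 : 0 ≤ (t : ℝ) * (κ₁ / 2) := by positivity
        linarith)
    exact hfull

end

theorem vf : Pool.Agent.TH563.V.S_VF := by
  intro ρ τ κ c C U k σ hE κ₁ c₁ C₁ hκ₁ hc₁ hC₁ r₀ ε₁ hr₀ hε₁
  have hκ := hE.hκ.1
  obtain ⟨K, hK, h⟩ := cpv Pool.Agent.W19.HTFix.task hE hc₁ hC₁ hr₀
    (lt_min hε₁ (by positivity : 0 < κ / 16))
  refine ⟨K, hK, ?_⟩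
  intro t X F hX a hbg
  obtain ⟨F', zs, h1, h2, h3, h4, h5⟩ := h t F hX.gh a hbg
  refine ⟨F', zs, h1, h2, fun p hp => (h3 p hp).trans (min_le_left _ _), h4, h5, ?_⟩
  intro V hV hVU
  exact mwV hE hκ₁ hX (r₀ := r₀) h1 (fun p hp => (h3 p hp).trans (min_le_right _ _))
    (fun p hp => ⟨(h5 p hp).1, (h5 p hp).2.1, (h5 p hp).2.2.2.1⟩) hV hVU

end Pool.Agent.TH761.J1737
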