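import Pool.Agent.TH625.GM.Props

set_option autoImplicit false

open Complex MeasureTheory
open UpperHalfPlane hiding I
open scoped Real MatrixGroups ModularForm

namespace Pool.Agent.TH761.J700

open Pool.Agent.TH625.GM

/-- the integrand -/
noncomputable def FF (t : ℝ) (s : ℂ) (p : ℝ × ℝ) : ℂ :=
  (p.1 : ℂ) ^ (s - 1) * ((Real.exp (-(p.1 * Real.cosh p.2)) * Real.cos (t * p.2) : ℝ) : ℂ)

lemma measurable_FF (t : ℝ) (s : ℂ) : Measurable (FF t s) := by
  unfold FF
  refine ((Complex.measurable_ofReal.comp measurable_fst).pow_const (s - 1)).mul ?_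
  refine Complex.measurable_ofReal.comp ?_
  exact (Continuous.measurable (by fun_prop))

lemma norm_FF (t : ℝ) (s : ℂ) {x : ℝ} (hx : 0 < x) (w : ℝ) :
    ‖FF t s (x, w)‖ = |Real.cos (t * w)| * (x ^ (s.re - 1) * Real.exp (-(Real.cosh w * x))) := by
  unfold FF
  rw [norm_mul, Complex.norm_cpow_eq_rpow_re_of_pos hx, Complex.norm_real, Real.norm_eq_abs, abs_mul,
    Real.abs_exp, Complex.sub_re, Complex.one_re, mul_comm x]
  ring

lemma integral_norm_FF (t : ℝ) {s : ℂ} (hs : 0 < s.re) (w : ℝ) :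
    ∫ x in Set.Ioi (0 : ℝ), ‖FF t s (x, w)‖ =
      |Real.cos (t * w)| * ((1 / Real.cosh w) ^ s.re * Real.Gamma s.re) := by
  rw [← Real.integral_rpow_mul_exp_neg_mul_Ioi hs (Real.cosh_pos w), ← integral_const_mul]
  exact setIntegral_congr_fun measurableSet_Ioi fun x hx => norm_FF t s hx w

lemma FF_eq (t : ℝ) (s : ℂ) (x w : ℝ) : FF t s (x, w) =
    (Real.cos (t * w) : ℂ) * ((x : ℂ) ^ (s - 1) * cexp (-((Real.cosh w : ℝ) * x))) := by
  unfold FF
  push_cast
  rw [mul_comm (x : ℂ) (Complex.cosh w)]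
  ring

lemma integral_FF (t : ℝ) {s : ℂ} (hs : 0 < s.re) (w : ℝ) :
    ∫ x in Set.Ioi (0 : ℝ), FF t s (x, w) =
      (Real.cos (t * w) : ℂ) * ((1 / (Real.cosh w : ℝ)) ^ s * Complex.Gamma s) := by
  rw [← Complex.integral_cpow_mul_exp_neg_mul_Ioi hs (Real.cosh_pos w), ← integral_const_mul]
  exact setIntegral_congr_fun measurableSet_Ioi fun x hx => FF_eq t s x w

lemma integrable_FF_left (t : ℝ) {s : ℂ} (hs : 0 < s.re) (w : ℝ) :
    Integrable (fun x => FF t s (x, w)) (volume.restrict (Set.Ioi (0 : ℝ))) := by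
  have h1 : Integrable (fun x : ℝ => (x : ℂ) ^ (s - 1) * cexp (-((Real.cosh w : ℝ) * x)))
      (volume.restrict (Set.Ioi (0 : ℝ))) := by
    apply Integrable.of_integral_ne_zero
    rw [Complex.integral_cpow_mul_exp_neg_mul_Ioi hs (Real.cosh_pos w)]
    refine mul_ne_zero ?_ (Complex.Gamma_ne_zero_of_re_pos hs)
    rw [Complex.cpow_def_of_ne_zero]
    · exact Complex.exp_ne_zero _
    · have : ((Real.cosh w : ℝ) : ℂ) ≠ 0 := Complex.ofReal_ne_zero.2 (Real.cosh_pos w).ne'
      exact one_div_ne_zero this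
  refine (h1.const_mul (Real.cos (t * w) : ℂ)).congr ?_
  exact Filter.Eventually.of_forall fun x => (FF_eq t s x w).symm

lemma integrable_FF (t : ℝ) {s : ℂ} (hs : 0 < s.re) :
    Integrable (FF t s) ((volume.restrict (Set.Ioi (0 : ℝ))).prod
      (volume.restrict (Set.Ioi (0 : ℝ)))) := by
  rw [integrable_prod_iff' (measurable_FF t s).aestronglyMeasurable]
  refine ⟨Filter.Eventually.of_forall fun w => integrable_FF_left t hs w, ?_⟩
  simp_rw [integral_norm_FF t hs]
  have h1 : Integrable (fun w : ℝ => 2 ^ s.re * Real.Gamma s.re * Real.exp (-s.re * w))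
      (volume.restrict (Set.Ioi (0 : ℝ))) := by
    exact (exp_neg_integrableOn_Ioi 0 hs).const_mul _
  refine h1.mono' ?_ ?_
  · refine (Continuous.aestronglyMeasurable ?_)
    refine Continuous.mul (by fun_prop) (Continuous.mul ?_ continuous_const)
    refine Continuous.rpow_const ?_ fun w => Or.inl ?_
    · exact continuous_const.div Real.continuous_cosh fun w => (Real.cosh_pos w).ne'
    · exact one_div_ne_zero (Real.cosh_pos w).ne'
  · refine (ae_restrict_iff' measurableSet_Ioi).2 (Filter.Eventually.of_forall fun w hw => ?_)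
    have hG : 0 < Real.Gamma s.re := Real.Gamma_pos_of_pos hs
    have hc := Real.cosh_pos w
    rw [Real.norm_eq_abs, abs_of_nonneg (by positivity)]
    have h2 : 1 / Real.cosh w ≤ 2 * Real.exp (-w) := by
      rw [div_le_iff₀ hc, Real.cosh_eq]
      have h3 : Real.exp w * Real.exp (-w) = 1 := by rw [← Real.exp_add]; simp
      have h4 := Real.exp_pos (-w)
      nlinarith
    have h5 : (1 / Real.cosh w) ^ s.re ≤ 2 ^ s.re * Real.exp (-s.re * w) := by
      calc (1 / Real.cosh w) ^ s.re ≤ (2 * Real.exp (-w)) ^ s.re :=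
            Real.rpow_le_rpow (by positivity) h2 hs.le
        _ = 2 ^ s.re * Real.exp (-s.re * w) := by
            rw [Real.mul_rpow (by norm_num) (Real.exp_pos _).le, ← Real.exp_mul]
            ring_nf
    calc |Real.cos (t * w)| * ((1 / Real.cosh w) ^ s.re * Real.Gamma s.re) ≤
        1 * ((2 ^ s.re * Real.exp (-s.re * w)) * Real.Gamma s.re) := by
          gcongr
          exact Real.abs_cos_le_one _
      _ = _ := by ring

lemma inner_eq (t : ℝ) (s : ℂ) (x : ℝ) :
    ∫ w in Set.Ioi (0 : ℝ), FF t s (x, w) = (x : ℂ) ^ (s - 1) * (KB t x : ℂ) := by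
  unfold FF KB
  dsimp only
  rw [integral_const_mul]
  congr 1
  exact integral_ofReal

/-- the change of variables -/
noncomputable def ph (v : ℝ) : ℝ := Real.exp v / (2 * Real.cosh v)

lemma one_sub_ph (v : ℝ) : 1 - ph v = Real.exp (-v) / (2 * Real.cosh v) := by
  unfold ph
  have := Real.cosh_pos v
  rw [eq_div_iff (by positivity), sub_mul, div_mul_cancel₀ _ (by positivity), Real.cosh_eq]
  ring

lemma hasDerivAt_ph (v : ℝ) : HasDerivAt ph (2 * (ph v * (1 - ph v))) v := by
  have hc := Real.cosh_pos v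
  have h1 : HasDerivAt ph _ v := (Real.hasDerivAt_exp v).div
    ((Real.hasDerivAt_cosh v).const_mul 2) (by positivity)
  refine h1.congr_deriv ?_
  rw [one_sub_ph]
  unfold ph
  rw [div_mul_div_comm, mul_div_assoc', div_eq_div_iff (by positivity) (by positivity)]
  rw [Real.sinh_eq]
  have h2 : Real.cosh v = (Real.exp v + Real.exp (-v)) / 2 := Real.cosh_eq v
  rw [h2]
  ring

lemma ph_mem (v : ℝ) : 0 < ph v ∧ ph v < 1 := by
  have hc := Real.cosh_pos v
  refine ⟨by unfold ph; positivity, ?_⟩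
  have := one_sub_ph v
  have h2 : 0 < Real.exp (-v) / (2 * Real.cosh v) := by positivity
  linarith

lemma ph_div (v : ℝ) : ph v / (1 - ph v) = Real.exp (2 * v) := by
  have hc := Real.cosh_pos v
  rw [one_sub_ph]
  unfold ph
  rw [div_div_div_cancel_right₀ (by positivity), ← Real.exp_sub]
  ring_nf

lemma ph_inj : Function.Injective ph := by
  intro u v h
  have h1 := ph_div u
  rw [h, ph_div v] at h1
  have := Real.exp_injective h1
  linarith

lemma ph_image : ph '' Set.univ = Set.Ioo 0 1 := by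
  ext x
  constructor
  · rintro ⟨v, -, rfl⟩
    exact ph_mem v
  · rintro ⟨h0, h1⟩
    refine ⟨Real.log (x / (1 - x)) / 2, trivial, ?_⟩
    set v := Real.log (x / (1 - x)) / 2 with hv
    have h2 : ph v / (1 - ph v) = x / (1 - x) := by
      rw [ph_div, hv, mul_div_cancel₀ _ (by norm_num : (2 : ℝ) ≠ 0),
        Real.exp_log (div_pos h0 (by linarith))]
    have h3 := (ph_mem v).2
    rw [div_eq_div_iff (by linarith) (by linarith)] at h2
    linarith

/-- the function `v ↦ cosh(v)^(-s)` -/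
noncomputable def hh (s : ℂ) (v : ℝ) : ℂ := (1 / ((Real.cosh v : ℝ) : ℂ)) ^ s

lemma hh_eq (s : ℂ) (v : ℝ) : hh s v = cexp (-(s * (Real.log (Real.cosh v) : ℝ))) := by
  have hc := Real.cosh_pos v
  unfold hh
  rw [← Complex.ofReal_one, ← Complex.ofReal_div, Complex.cpow_def_of_ne_zero
    (Complex.ofReal_ne_zero.2 (by positivity)), ← Complex.ofReal_log (by positivity), one_div,
    Real.log_inv]
  push_cast
  ring_nf

lemma ph_cpow (a : ℂ) (v : ℝ) :
    (ph v : ℂ) ^ a = cexp (a * ((v - Real.log 2 - Real.log (Real.cosh v) : ℝ) : ℂ)) := by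
  have hc := Real.cosh_pos v
  rw [Complex.cpow_def_of_ne_zero (Complex.ofReal_ne_zero.2 (ph_mem v).1.ne'),
    ← Complex.ofReal_log (ph_mem v).1.le]
  congr 1
  rw [mul_comm]
  congr 2
  unfold ph
  rw [Real.log_div (Real.exp_pos v).ne' (by positivity), Real.log_exp,
    Real.log_mul (by norm_num) hc.ne']
  ring

lemma one_sub_ph_cpow (a : ℂ) (v : ℝ) :
    (1 - (ph v : ℂ)) ^ a = cexp (a * ((-v - Real.log 2 - Real.log (Real.cosh v) : ℝ) : ℂ)) := by
  have hc := Real.cosh_pos v
  have h1 : (1 - (ph v : ℂ)) = ((1 - ph v : ℝ) : ℂ) := by push_cast; rfl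
  have h0 : 0 < 1 - ph v := by have := (ph_mem v).2; linarith
  rw [h1, Complex.cpow_def_of_ne_zero (Complex.ofReal_ne_zero.2 h0.ne'),
    ← Complex.ofReal_log h0.le]
  congr 1
  rw [mul_comm]
  congr 2
  rw [one_sub_ph, Real.log_div (Real.exp_pos _).ne' (by positivity), Real.log_exp,
    Real.log_mul (by norm_num) hc.ne']
  ring

/-- the integrand of the beta function after the change of variables -/
lemma integrand_eq (t : ℝ) (s : ℂ) (v : ℝ) :
    |2 * (ph v * (1 - ph v))| • ((ph v : ℂ) ^ ((s + t * I) / 2 - 1) *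
      (1 - (ph v : ℂ)) ^ ((s - t * I) / 2 - 1)) =
      2 * 2 ^ (-s) * (cexp (t * v * I) * hh s v) := by
  have h0 := (ph_mem v).1
  have h1 : 0 < 1 - ph v := by have := (ph_mem v).2; linarith
  have h1' : (1 - (ph v : ℂ)) ≠ 0 := by
    have : (1 - (ph v : ℂ)) = ((1 - ph v : ℝ) : ℂ) := by push_cast; rfl
    rw [this]
    exact Complex.ofReal_ne_zero.2 h1.ne'
  have h0' : (ph v : ℂ) ≠ 0 := Complex.ofReal_ne_zero.2 h0.ne'
  rw [abs_of_pos (by positivity), Complex.cpow_sub _ _ h0', Complex.cpow_sub _ _ h1',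
    Complex.cpow_one, Complex.cpow_one, Complex.real_smul]
  have h2 : ((2 * (ph v * (1 - ph v)) : ℝ) : ℂ) * ((ph v : ℂ) ^ ((s + t * I) / 2) / (ph v : ℂ) *
      ((1 - (ph v : ℂ)) ^ ((s - t * I) / 2) / (1 - (ph v : ℂ)))) =
      2 * ((ph v : ℂ) ^ ((s + t * I) / 2) * (1 - (ph v : ℂ)) ^ ((s - t * I) / 2)) := by
    push_cast
    field_simp
  rw [h2, ph_cpow, one_sub_ph_cpow, hh_eq, Complex.cpow_def_of_ne_zero two_ne_zero,
    mul_assoc]
  congr 1
  rw [← Complex.exp_add, ← Complex.exp_add, ← Complex.exp_add]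
  congr 1
  have h3 : Complex.log 2 = (Real.log 2 : ℝ) := by
    rw [← Complex.ofReal_ofNat, Complex.ofReal_log (by norm_num)]
  rw [h3]
  push_cast
  ring

lemma re_pos {t : ℝ} {s : ℂ} (hs : 0 < s.re) : 0 < ((s + t * I) / 2).re ∧
    0 < ((s - t * I) / 2).re := by
  constructor <;> simp [hs]

lemma integrable_hh (t : ℝ) {s : ℂ} (hs : 0 < s.re) :
    Integrable (fun v : ℝ => cexp (t * v * I) * hh s v) := by
  have h1 := Complex.betaIntegral_convergent (re_pos (t := t) hs).1 (re_pos (t := t) hs).2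
  rw [intervalIntegrable_iff_integrableOn_Ioo_of_le zero_le_one, ← ph_image,
    integrableOn_image_iff_integrableOn_abs_deriv_smul MeasurableSet.univ
      (fun x _ => (hasDerivAt_ph x).hasDerivWithinAt) ph_inj.injOn] at h1
  rw [integrableOn_univ] at h1
  simp_rw [integrand_eq] at h1
  have h2 := h1.const_mul ((2 * 2 ^ (-s) : ℂ)⁻¹)
  refine h2.congr (Filter.Eventually.of_forall fun v => ?_)
  have h3 : (2 * 2 ^ (-s) : ℂ) ≠ 0 := by
    refine mul_ne_zero two_ne_zero ?_
    rw [Complex.cpow_def_of_ne_zero two_ne_zero]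
    exact Complex.exp_ne_zero _
  change (2 * 2 ^ (-s) : ℂ)⁻¹ * (2 * 2 ^ (-s) * (cexp (t * v * I) * hh s v)) = _
  rw [inv_mul_cancel_left₀ h3]

lemma beta_eq (t : ℝ) (s : ℂ) :
    Complex.betaIntegral ((s + t * I) / 2) ((s - t * I) / 2) =
      2 * 2 ^ (-s) * ∫ v : ℝ, cexp (t * v * I) * hh s v := by
  rw [Complex.betaIntegral, intervalIntegral.integral_of_le zero_le_one,
    integral_Ioc_eq_integral_Ioo, ← ph_image,
    integral_image_eq_integral_abs_deriv_smul MeasurableSet.univ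
      (fun x _ => (hasDerivAt_ph x).hasDerivWithinAt) ph_inj.injOn, setIntegral_univ,
    ← integral_const_mul]
  exact integral_congr_ae (Filter.Eventually.of_forall fun v => integrand_eq t s v)

lemma hh_neg (s : ℂ) (v : ℝ) : hh s (-v) = hh s v := by
  unfold hh
  rw [Real.cosh_neg]

lemma full_eq (t : ℝ) {s : ℂ} (hs : 0 < s.re) :
    ∫ v : ℝ, cexp (t * v * I) * hh s v =
      2 * ∫ w in Set.Ioi (0 : ℝ), (Real.cos (t * w) : ℂ) * hh s w := by
  have h1 := integrable_hh t hs
  have h2 : Integrable (fun v : ℝ => cexp (t * (-v : ℝ) * I) * hh s v) := by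
    refine (h1.comp_neg).congr (Filter.Eventually.of_forall fun v => ?_)
    change cexp (t * (-v : ℝ) * I) * hh s (-v) = _
    rw [hh_neg]
  have h3 : ∫ v : ℝ, cexp (t * v * I) * hh s v =
      (∫ w in Set.Iic (0 : ℝ), cexp (t * w * I) * hh s w) +
        ∫ w in Set.Ioi (0 : ℝ), cexp (t * w * I) * hh s w := by
    rw [intervalIntegral.integral_Iic_add_Ioi h1.integrableOn h1.integrableOn]
  have h4 : ∫ w in Set.Iic (0 : ℝ), cexp (t * w * I) * hh s w =
      ∫ w in Set.Ioi (0 : ℝ), cexp (t * (-w : ℝ) * I) * hh s w := by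
    have := integral_comp_neg_Ioi (0 : ℝ) (fun w : ℝ => cexp (t * w * I) * hh s w)
    rw [neg_zero] at this
    rw [← this]
    refine setIntegral_congr_fun measurableSet_Ioi fun w _ => ?_
    rw [hh_neg]
  rw [h3, h4, ← integral_add h2.integrableOn h1.integrableOn, ← integral_const_mul]
  refine setIntegral_congr_fun measurableSet_Ioi fun w _ => ?_
  change cexp (t * (-w : ℝ) * I) * hh s w + cexp (t * w * I) * hh s w =
    2 * ((Real.cos (t * w) : ℂ) * hh s w)
  rw [← add_mul, ← mul_assoc]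
  congr 1
  push_cast
  rw [Complex.cos]
  have : (t : ℂ) * -(w : ℂ) * I = -(t * w) * I := by ring
  rw [this]
  ring

theorem besselMellin : BesselMellin := by
  intro t s hs
  have hF := integrable_FF t hs
  constructor
  · have h1 := hF.integral_prod_left
    refine h1.congr (Filter.Eventually.of_forall fun x => ?_)
    exact inner_eq t s x
  · have h1 : mellin (fun x => (KB t x : ℂ)) s =
        ∫ x in Set.Ioi (0 : ℝ), ∫ w in Set.Ioi (0 : ℝ), FF t s (x, w) := by
      unfold mellin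
      refine setIntegral_congr_fun measurableSet_Ioi fun x _ => ?_
      exact (inner_eq t s x).symm
    have h2 : ∫ x in Set.Ioi (0 : ℝ), ∫ w in Set.Ioi (0 : ℝ), FF t s (x, w) =
        ∫ w in Set.Ioi (0 : ℝ), ∫ x in Set.Ioi (0 : ℝ), FF t s (x, w) :=
      integral_integral_swap (f := fun x w => FF t s (x, w)) hF
    rw [h1, h2]
    simp_rw [integral_FF t hs]
    have h3 : ∫ w in Set.Ioi (0 : ℝ), (Real.cos (t * w) : ℂ) *
        ((1 / ((Real.cosh w : ℝ) : ℂ)) ^ s * Complex.Gamma s) =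
        Complex.Gamma s * ∫ w in Set.Ioi (0 : ℝ), (Real.cos (t * w) : ℂ) * hh s w := by
      rw [← integral_const_mul]
      refine setIntegral_congr_fun measurableSet_Ioi fun w _ => ?_
      change _ = Complex.Gamma s * ((Real.cos (t * w) : ℂ) * (1 / ((Real.cosh w : ℝ) : ℂ)) ^ s)
      ring
    have h4 := beta_eq t s
    rw [full_eq t hs] at h4
    have h5 := Complex.Gamma_mul_Gamma_eq_betaIntegral (re_pos (t := t) hs).1 (re_pos (t := t) hs).2
    have h6 : (s + t * I) / 2 + (s - t * I) / 2 = s := by ring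
    rw [h6, h4] at h5
    rw [h3, mul_assoc, h5, Complex.cpow_sub _ _ two_ne_zero, Complex.cpow_neg]
    have h7 : (2 : ℂ) ^ s ≠ 0 := by
      rw [Complex.cpow_def_of_ne_zero two_ne_zero]
      exact Complex.exp_ne_zero _
    have h8 : (2 : ℂ) ^ (2 : ℂ) = 4 := by
      have : (2 : ℂ) ^ (2 : ℂ) = (2 : ℂ) ^ ((2 : ℕ) : ℂ) := by norm_num
      rw [this, Complex.cpow_natCast]
      norm_num
    rw [h8]
    field_simp
    ring

end Pool.Agent.TH761.J700
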