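import Pool.Agent.TH927.CM.Defs
import Pool.Agent.W683.MO.SP

/-!
# Job 883 (CM-SP): small control primes, completely multiplicative version
-/

set_option autoImplicit false

namespace Pool.Agent.TH761.J883

open Finset Filter Topology
open scoped Classical
open Pool.Agent.W76.MO Pool.Agent.W683.MO Pool.Agent.TH927.CM

/-! ### products with multiplicity -/

theorem mprod_mono {a b : ℕ → ℝ} (ha : ∀ p, 0 ≤ a p) (hab : ∀ p, a p ≤ b p) (n : ℕ) :
    mprod a n ≤ mprod b n := by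
  unfold mprod
  induction n.primeFactorsList with
  | nil => simp
  | cons x l ih =>
    rw [List.map_cons, List.prod_cons, List.map_cons, List.prod_cons]
    have h0 : 0 ≤ (l.map a).prod := by
      apply List.prod_nonneg
      intro y hy
      obtain ⟨p, -, rfl⟩ := List.mem_map.1 hy
      exact ha p
    exact mul_le_mul (hab x) ih h0 ((ha x).trans (hab x))

theorem mprod_mul_fun (a b : ℕ → ℝ) (n : ℕ) :
    mprod (fun p => a p * b p) n = mprod a n * mprod b n := by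
  unfold mprod
  induction n.primeFactorsList with
  | nil => simp
  | cons x l ih =>
    simp only [List.map_cons, List.prod_cons]
    rw [ih]; ring

/-- only the prime factors of `n` matter -/
theorem mprod_congr {a b : ℕ → ℝ} {n : ℕ} (h : ∀ p, p.Prime → p ∣ n → a p = b p) :
    mprod a n = mprod b n := by
  unfold mprod
  congr 1
  apply List.map_congr_left
  intro p hp
  exact h p (Nat.prime_of_mem_primeFactorsList hp) (Nat.dvd_of_mem_primeFactorsList hp)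

theorem mprod_rpow (θ : ℝ) {n : ℕ} (hn : n ≠ 0) : mprod (fun p => (p : ℝ) ^ θ) n = (n : ℝ) ^ θ := by
  have h : ∀ l : List ℕ, (l.map (fun p : ℕ => (p : ℝ) ^ θ)).prod = ((l.prod : ℕ) : ℝ) ^ θ := by
    intro l
    induction l with
    | nil => simp
    | cons x l ih =>
      rw [List.map_cons, List.prod_cons, ih, List.prod_cons, Nat.cast_mul,
        Real.mul_rpow (Nat.cast_nonneg _) (Nat.cast_nonneg _)]
  unfold mprod
  rw [h, Nat.prod_primeFactorsList hn]

/-- the list of the prime factors in `s`, with multiplicity -/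
theorem mprod_filter (s : Set ℕ) (v : ℕ → ℝ) (hv : ∀ p, p ∉ s → v p = 1) (n : ℕ) :
    mprod v n = (((n.primeFactorsList).filter (fun p => decide (p ∈ s))).map v).prod := by
  unfold mprod
  induction n.primeFactorsList with
  | nil => simp
  | cons x l ih =>
    by_cases hx : x ∈ s
    · rw [List.filter_cons_of_pos (by simpa using hx), List.map_cons, List.prod_cons, ih,
        List.map_cons, List.prod_cons]
    · rw [List.filter_cons_of_neg (by simpa using hx), List.map_cons, List.prod_cons, ih,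
        hv x hx, one_mul]

/-- the part of `n` composed of the primes in `s` -/
theorem exists_part (s : Set ℕ) (v : ℕ → ℝ) (hv : ∀ p, p ∉ s → v p = 1) {n : ℕ} (hn : n ≠ 0) :
    ∃ m : ℕ, m ≠ 0 ∧ m ∣ n ∧ (∀ p : ℕ, p.Prime → p ∣ m → p ∈ s) ∧ mprod v n = mprod v m := by
  set l := (n.primeFactorsList).filter (fun p => decide (p ∈ s)) with hl
  have hsub : l.Sublist n.primeFactorsList := List.filter_sublist
  have hprime : ∀ p ∈ l, p.Prime := fun p hp =>
    Nat.prime_of_mem_primeFactorsList (hsub.subset hp)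
  have hdvd : l.prod ∣ n := by
    have h1 := hsub.prod_dvd_prod
    rwa [Nat.prod_primeFactorsList hn] at h1
  have h0 : l.prod ≠ 0 := by
    intro h0
    rw [h0] at hdvd
    exact hn (Nat.eq_zero_of_zero_dvd hdvd)
  have hperm := Nat.primeFactorsList_unique (n := l.prod) rfl hprime
  refine ⟨l.prod, h0, hdvd, fun p hp hpm => ?_, ?_⟩
  · have h2 : p ∈ l.prod.primeFactorsList := (Nat.mem_primeFactorsList h0).2 ⟨hp, hpm⟩
    have h3 : p ∈ l := hperm.mem_iff.2 h2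
    rw [hl, List.mem_filter] at h3
    simpa using h3.2
  · rw [mprod_filter s v hv n, ← hl]
    unfold mprod
    exact (hperm.map v).prod_eq

/-- the sum of a completely multiplicative function over numbers composed of the primes in `P` -/
theorem sum_mprod_le (P : Finset ℕ) (v : ℕ → ℝ) (hP : ∀ p ∈ P, p.Prime)
    (hv0 : ∀ p ∈ P, 0 ≤ v p) (hv1 : ∀ p ∈ P, v p ≤ 1 / 2) (D : Finset ℕ)
    (hD : ∀ d ∈ D, d ≠ 0 ∧ ∀ p : ℕ, p.Prime → p ∣ d → p ∈ P) :
    ∑ d ∈ D, mprod v d ≤ Real.exp (2 * ∑ p ∈ P, v p) := by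
  set v' : ℕ → ℝ := fun p => if p ∈ P then v p else 0 with hv'
  have hv'0 : ∀ p, 0 ≤ v' p := by
    intro p
    simp only [hv']
    split_ifs with h
    · exact hv0 p h
    · exact le_rfl
  set f : ℕ →* ℝ :=
    { toFun := fun n => if n = 0 then 0 else mprod v' n
      map_one' := by simp [mprod_one]
      map_mul' := by
        intro m n
        by_cases hm : m = 0
        · simp [hm]
        by_cases hn : n = 0
        · simp [hn]
        rw [if_neg (Nat.mul_ne_zero hm hn), if_neg hm, if_neg hn, mprod_mul v' hm hn] } with hf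
  have hfe : ∀ n : ℕ, n ≠ 0 → f n = mprod v' n := by
    intro n hn
    show (if n = 0 then (0 : ℝ) else mprod v' n) = _
    rw [if_neg hn]
  have hfp : ∀ p : ℕ, p.Prime → f p = v' p := by
    intro p hp
    rw [hfe p hp.ne_zero, mprod_prime v' hp]
  have hf1 : ∀ {p : ℕ}, p.Prime → ‖f p‖ < 1 := by
    intro p hp
    rw [hfp p hp, Real.norm_eq_abs, abs_of_nonneg (hv'0 p)]
    simp only [hv']
    split_ifs with h
    · have := hv1 p h; linarith
    · norm_num
  obtain ⟨-, hsum⟩ :=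
    EulerProduct.summable_and_hasSum_factoredNumbers_prod_filter_prime_geometric (f := f) hf1 P
  have hmem : ∀ d ∈ D, d ∈ Nat.factoredNumbers P := by
    intro d hd
    rw [Nat.mem_factoredNumbers]
    refine ⟨(hD d hd).1, fun p hp => ?_⟩
    exact (hD d hd).2 p (Nat.prime_of_mem_primeFactorsList hp)
      (Nat.dvd_of_mem_primeFactorsList hp)
  have h1 : ∑ d ∈ D, mprod v d = ∑ d ∈ D.attach,
      (fun m : Nat.factoredNumbers P => f m) ⟨d.1, hmem d.1 d.2⟩ := by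
    rw [← sum_attach D]
    apply sum_congr rfl
    intro d _
    have hd := hD d.1 d.2
    simp only
    rw [hfe d.1 hd.1]
    apply mprod_congr
    intro p hp hpd
    simp only [hv']
    rw [if_pos (hd.2 p hp hpd)]
  have hinj : Function.Injective (fun d : {x // x ∈ D} =>
      (⟨d.1, hmem d.1 d.2⟩ : Nat.factoredNumbers P)) := by
    intro a b hab
    apply Subtype.ext
    exact congrArg (fun x : Nat.factoredNumbers P => (x : ℕ)) hab
  have h2 : ∑ d ∈ D.attach, (fun m : Nat.factoredNumbers P => f m) ⟨d.1, hmem d.1 d.2⟩ =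
      ∑ m ∈ D.attach.map ⟨_, hinj⟩, (fun m : Nat.factoredNumbers P => f m) m := by
    rw [sum_map]
    rfl
  have h3 : ∑ m ∈ D.attach.map ⟨_, hinj⟩, (fun m : Nat.factoredNumbers P => f m) m ≤
      ∏ p ∈ P with p.Prime, (1 - f p)⁻¹ := by
    apply sum_le_hasSum _ _ hsum
    intro m _
    have hm0 : (m : ℕ) ≠ 0 := (Nat.mem_factoredNumbers.1 m.2).1
    show 0 ≤ f (m : ℕ)
    rw [hfe _ hm0]
    exact mprod_nonneg v' hv'0 _
  rw [h1, h2]
  refine h3.trans ?_
  have h4 : P.filter (fun p => p.Prime) = P := filter_true_of_mem hP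
  rw [h4, mul_sum, Real.exp_sum]
  apply Finset.prod_le_prod
  · intro p hp
    rw [hfp p (hP p hp)]
    simp only [hv', if_pos hp]
    have := hv1 p hp
    apply inv_nonneg.2
    linarith
  · intro p hp
    rw [hfp p (hP p hp)]
    simp only [hv', if_pos hp]
    have h5 := hv1 p hp
    have h6 := hv0 p hp
    rw [inv_le_iff_one_le_mul₀ (by linarith)]
    have h7 := Real.add_one_le_exp (2 * v p)
    nlinarith

/-! ### (A): control primes of the first kind -/

/-- the factors of the first kind -/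
noncomputable def vu (E : Env) (j i : ℕ) (p : ℕ) : ℝ :=
  if (p : ℝ) ≤ (2 : ℝ) ^ (3 / 5 * (i : ℝ)) then 1 + 2 * (p * E.gu j p) else 1

/-- the factors of the second kind -/
noncomputable def vh (E : Env) (j i : ℕ) (p : ℕ) : ℝ :=
  if (p : ℝ) ≤ (2 : ℝ) ^ (1 / 20 * (i : ℝ)) then 1 + 2 * (p * E.gh j p) else 1

/-- (A) -/
theorem A_bound_c (E : Env) (hG : E.GBounds) : ∃ J : ℕ, 1 ≤ J ∧ ∀ j : ℕ, J ≤ j → ∀ i : ℕ, j ≤ i →
    ∀ n : ℕ, 1 ≤ n → n ≤ 2 ^ (i + 1) →
      mprod (vu E j i) n ≤ (2 : ℝ) ^ (E.δ / 2 * i) / (i : ℝ) ^ 50 := by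
  have hδ := E.hδ
  have hδ1 : E.δ ≤ 1 := by have := E.hδ'; have := E.hτ'; linarith
  obtain ⟨J0, hJ0, hJ⟩ := hG
  obtain ⟨J1, hJ1⟩ := large (E.δ / 50) 1 50 (by linarith)
  refine ⟨J0 + J1 + 1003, by omega, fun j hj i hij n hn1 hn => ?_⟩
  obtain ⟨-, -, -, g4, -, g6, -, -, -⟩ := hJ j (by omega)
  have hn0 : n ≠ 0 := by omega
  obtain ⟨S, hS⟩ : ∃ S : Set ℕ, S = {p : ℕ | (p : ℝ) ≤ (2 : ℝ) ^ (3 / 5 * (i : ℝ)) ∧ E.U j p} :=
    ⟨_, rfl⟩
  have hS' : ∀ p, p ∈ S ↔ (p : ℝ) ≤ (2 : ℝ) ^ (3 / 5 * (i : ℝ)) ∧ E.U j p := by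
    intro p; rw [hS]; rfl
  have hvS : ∀ p, p ∉ S → vu E j i p = 1 := by
    intro p hp
    unfold vu
    split_ifs with h
    · have h1 : E.gu j p = 0 := by
        by_contra h2
        exact hp ((hS' p).2 ⟨h, g4 p h2⟩)
      rw [h1]; ring
    · rfl
  rw [mprod_filter S (vu E j i) hvS n]
  set l := (n.primeFactorsList).filter (fun p => decide (p ∈ S)) with hl
  have hsub : l.Sublist n.primeFactorsList := List.filter_sublist
  have hdvd : l.prod ∣ n := by
    have h1 := hsub.prod_dvd_prod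
    rwa [Nat.prod_primeFactorsList hn0] at h1
  set P : Fin l.length → ℕ := fun t => l[(t : ℕ)] with hPdef
  have hPS : ∀ t, P t ∈ S := by
    intro t
    have h3 : P t ∈ l := List.getElem_mem _
    rw [hl, List.mem_filter] at h3
    simpa using h3.2
  set F : Finset (Fin l.length) := Finset.univ with hF
  set a : Fin l.length → ℕ := fun t => Env.sc (P t) with ha
  have e1 : (l.map (vu E j i)).prod = ∏ t ∈ F, (1 + 2 * ((P t : ℝ) * E.gu j (P t))) := by
    rw [← Fin.prod_univ_fun_getElem]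
    apply prod_congr rfl
    intro t _
    show vu E j i (P t) = _
    unfold vu
    rw [if_pos ((hS' _).1 (hPS t)).1]
  have eP : l.prod = ∏ t ∈ F, P t := by
    have h1 := Fin.prod_univ_fun_getElem l (fun p => p)
    simp only [List.map_id'] at h1
    exact h1.symm
  rw [e1]
  have hFU : ∀ t ∈ F, E.U j (P t) := fun t _ => ((hS' _).1 (hPS t)).2
  have hFp : ∀ t ∈ F, (P t : ℝ) ≤ (2 : ℝ) ^ (3 / 5 * (i : ℝ)) := fun t _ =>
    ((hS' _).1 (hPS t)).1
  have hsc : ∀ t ∈ F, 2 ^ a t < P t := by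
    intro t ht
    exact (sc_spec (E.u_prime (P t) (hFU t ht).1).two_le).1
  have ha2 : ∀ t ∈ F, 2 ≤ a t := by
    intro t ht
    have := (g6 (P t) (hFU t ht)).1
    simp only [ha]
    omega
  have ha6 : ∀ t ∈ F, 10 * a t ≤ 6 * i := by
    intro t ht
    have h1 : (2 : ℝ) ^ ((a t : ℕ) : ℝ) < (2 : ℝ) ^ (3 / 5 * (i : ℝ)) := by
      rw [Real.rpow_natCast]
      refine lt_of_lt_of_le ?_ (hFp t ht)
      exact_mod_cast hsc t ht
    have h2 := (Real.rpow_lt_rpow_left_iff (by norm_num)).1 h1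
    have h3 : (10 * a t : ℝ) ≤ 6 * i := by linarith
    exact_mod_cast h3
  have hSum : ∑ t ∈ F, a t ≤ i + 1 := by
    have h1 : ∏ t ∈ F, 2 ^ a t ≤ ∏ t ∈ F, P t :=
      prod_le_prod' (fun t ht => (hsc t ht).le)
    rw [← eP] at h1
    have h3 := Nat.le_of_dvd (by omega) hdvd
    rw [prod_pow_eq_pow_sum] at h1
    have h4 : 2 ^ (∑ t ∈ F, a t) ≤ 2 ^ (i + 1) := by omega
    exact (Nat.pow_le_pow_iff_right (by norm_num)).1 h4
  have hprod : ∏ t ∈ F, (1 + 2 * ((P t : ℝ) * E.gu j (P t))) ≤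
      (2 : ℝ) ^ (E.δ / 2 * ((∑ t ∈ F, a t : ℕ) : ℝ)) /
        ((∏ t ∈ F, a t : ℕ) : ℝ) ^ 35 := by
    have h1 : ∏ t ∈ F, (1 + 2 * ((P t : ℝ) * E.gu j (P t))) ≤
        ∏ t ∈ F, ((2 : ℝ) ^ (E.δ / 2 * a t) / (a t : ℝ) ^ 35) := by
      apply Finset.prod_le_prod
      · intro t _
        have := gu_nonneg E j (P t)
        positivity
      · intro t ht
        exact (g6 (P t) (hFU t ht)).2
    refine h1.trans (le_of_eq ?_)
    rw [prod_div_distrib]
    congr 1
    · rw [← Real.rpow_sum_of_pos (by norm_num)]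
      congr 1
      push_cast
      rw [mul_sum]
    · push_cast
      rw [prod_pow]
  refine hprod.trans ?_
  have hiR : (1000 : ℝ) ≤ i := by exact_mod_cast (by omega : 1000 ≤ i)
  have hPpos : 1 ≤ ∏ t ∈ F, a t := by
    apply Nat.one_le_iff_ne_zero.2
    rw [prod_ne_zero_iff]
    intro t ht
    have := ha2 t ht
    omega
  have hPR : (1 : ℝ) ≤ ((∏ t ∈ F, a t : ℕ) : ℝ) := by exact_mod_cast hPpos
  by_cases hc : 25 * ∑ t ∈ F, a t ≤ 24 * i
  · have hbig := hJ1 i (by omega)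
    rw [one_mul] at hbig
    have hc' : (25 : ℝ) * ((∑ t ∈ F, a t : ℕ) : ℝ) ≤ 24 * i := by exact_mod_cast hc
    rw [div_le_div_iff₀ (by positivity) (by positivity)]
    have h1 : (2 : ℝ) ^ (E.δ / 2 * ((∑ t ∈ F, a t : ℕ) : ℝ)) * (i : ℝ) ^ 50 ≤
        (2 : ℝ) ^ (E.δ / 2 * ((∑ t ∈ F, a t : ℕ) : ℝ)) * (2 : ℝ) ^ (E.δ / 50 * i) :=
      mul_le_mul_of_nonneg_left hbig (by positivity)
    have h2 : (2 : ℝ) ^ (E.δ / 2 * ((∑ t ∈ F, a t : ℕ) : ℝ)) * (2 : ℝ) ^ (E.δ / 50 * i) ≤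
        (2 : ℝ) ^ (E.δ / 2 * i) := by
      rw [← Real.rpow_add (by norm_num)]
      apply Real.rpow_le_rpow_of_exponent_le (by norm_num)
      nlinarith
    have h3 : (1 : ℝ) ≤ ((∏ t ∈ F, a t : ℕ) : ℝ) ^ 35 := one_le_pow₀ hPR
    have h4 : (0 : ℝ) < (2 : ℝ) ^ (E.δ / 2 * i) := by positivity
    nlinarith
  · push Not at hc
    have h1 := prod_large F a i (by omega) ha2 ha6 hc
    have h1R : (i : ℝ) ^ 2 ≤ 10 * ((∏ t ∈ F, a t : ℕ) : ℝ) := by exact_mod_cast h1
    have h2 : ((i : ℝ) ^ 2) ^ 35 ≤ (10 * ((∏ t ∈ F, a t : ℕ) : ℝ)) ^ 35 :=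
      pow_le_pow_left₀ (by positivity) h1R 35
    have h3 : (1000 : ℝ) ^ 20 ≤ (i : ℝ) ^ 20 := pow_le_pow_left₀ (by norm_num) hiR 20
    have h4 : 2 * (i : ℝ) ^ 50 ≤ ((∏ t ∈ F, a t : ℕ) : ℝ) ^ 35 := by
      have e2 : (10 * ((∏ t ∈ F, a t : ℕ) : ℝ)) ^ 35 =
          10 ^ 35 * ((∏ t ∈ F, a t : ℕ) : ℝ) ^ 35 := by rw [mul_pow]
      have e3 : ((i : ℝ) ^ 2) ^ 35 = (i : ℝ) ^ 20 * (i : ℝ) ^ 50 := by ring
      rw [e2, e3] at h2
      have e4 : (1000 : ℝ) ^ 20 * (i : ℝ) ^ 50 ≤ (i : ℝ) ^ 20 * (i : ℝ) ^ 50 :=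
        mul_le_mul_of_nonneg_right h3 (by positivity)
      have e5 : (10 : ℝ) ^ 35 * (2 * (i : ℝ) ^ 50) ≤ (1000 : ℝ) ^ 20 * (i : ℝ) ^ 50 := by
        have : (0 : ℝ) ≤ (i : ℝ) ^ 50 := by positivity
        nlinarith
      have e6 : (10 : ℝ) ^ 35 * (2 * (i : ℝ) ^ 50) ≤
          10 ^ 35 * ((∏ t ∈ F, a t : ℕ) : ℝ) ^ 35 := by linarith
      exact le_of_mul_le_mul_left e6 (by positivity)
    rw [div_le_div_iff₀ (by positivity) (by positivity)]
    have h5 : (2 : ℝ) ^ (E.δ / 2 * ((∑ t ∈ F, a t : ℕ) : ℝ)) ≤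
        2 * (2 : ℝ) ^ (E.δ / 2 * i) := by
      have e1 : ((∑ t ∈ F, a t : ℕ) : ℝ) ≤ i + 1 := by exact_mod_cast hSum
      calc (2 : ℝ) ^ (E.δ / 2 * ((∑ t ∈ F, a t : ℕ) : ℝ)) ≤
          (2 : ℝ) ^ (1 + E.δ / 2 * i) := by
            apply Real.rpow_le_rpow_of_exponent_le (by norm_num)
            nlinarith
        _ = _ := by rw [Real.rpow_add (by norm_num), Real.rpow_one]
    calc (2 : ℝ) ^ (E.δ / 2 * ((∑ t ∈ F, a t : ℕ) : ℝ)) * (i : ℝ) ^ 50 ≤
        (2 * (2 : ℝ) ^ (E.δ / 2 * i)) * (i : ℝ) ^ 50 :=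
          mul_le_mul_of_nonneg_right h5 (by positivity)
      _ = (2 : ℝ) ^ (E.δ / 2 * i) * (2 * (i : ℝ) ^ 50) := by ring
      _ ≤ _ := mul_le_mul_of_nonneg_left h4 (by positivity)

/-! ### (B): host primes -/

/-- (B), pointwise -/
theorem B_point_c (v : ℕ → ℝ) (Q : Finset ℕ) (hv0 : ∀ q, 0 ≤ v q) (hv : ∀ q, q ∉ Q → v q = 1)
    (θ Z1 Z2 K y : ℝ) (hθ : 0 ≤ θ) (hbθ : ∀ q ∈ Q, v q ≤ (q : ℝ) ^ θ)
    (hy : ∀ q ∈ Q, (q : ℝ) ≤ y) (hZ1 : 1 ≤ Z1) (hZ2 : Z1 * y ≤ Z2) (D : Finset ℕ) (n : ℕ)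
    (hn : 1 ≤ n) (hD : ∀ d : ℕ, d ∣ n → (∀ p : ℕ, p.Prime → p ∣ d → p ∈ Q) → d ∈ D)
    (hK : (n : ℝ) ^ θ ≤ K) :
    mprod v n ≤
      ∑ d ∈ D.filter (fun d : ℕ => (d : ℝ) ≤ Z1), mprod v d * (if d ∣ n then 1 else 0) +
      K * ∑ d ∈ D.filter (fun d : ℕ => Z1 < (d : ℝ) ∧ (d : ℝ) ≤ Z2),
        (if d ∣ n then (1 : ℝ) else 0) := by
  have hK0 : 0 ≤ K := le_trans (by positivity) hK
  have hn0 : n ≠ 0 := by omega
  have hn1 : 0 ≤ ∑ d ∈ D.filter (fun d : ℕ => (d : ℝ) ≤ Z1),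
      mprod v d * (if d ∣ n then 1 else 0) := by
    apply sum_nonneg
    intro d _
    have := mprod_nonneg v hv0 d
    split_ifs <;> simp [this]
  have hn2 : 0 ≤ ∑ d ∈ D.filter (fun d : ℕ => Z1 < (d : ℝ) ∧ (d : ℝ) ≤ Z2),
      (if d ∣ n then (1 : ℝ) else 0) := by
    apply sum_nonneg
    intro d _
    split_ifs <;> simp
  obtain ⟨m, hm0, hmn, hmQ, hme⟩ := exists_part (↑Q : Set ℕ) v (fun p hp => hv p (by simpa using hp)) hn0
  have hmQ' : ∀ p : ℕ, p.Prime → p ∣ m → p ∈ Q := fun p hp hpm => by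
    simpa using hmQ p hp hpm
  rw [hme]
  by_cases hc : (m : ℝ) ≤ Z1
  · have e1 : mprod v m * (if m ∣ n then 1 else 0) ≤
        ∑ d ∈ D.filter (fun d : ℕ => (d : ℝ) ≤ Z1), mprod v d * (if d ∣ n then 1 else 0) := by
      apply single_le_sum (f := fun d => mprod v d * (if d ∣ n then 1 else 0))
      · intro d _
        have := mprod_nonneg v hv0 d
        split_ifs <;> simp [this]
      · rw [mem_filter]
        exact ⟨hD m hmn hmQ', hc⟩
    rw [if_pos hmn, mul_one] at e1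
    have e3 := mul_nonneg hK0 hn2
    linarith
  · push Not at hc
    have e1 : mprod v m ≤ K := by
      have h1 : mprod v m ≤ mprod (fun p => (p : ℝ) ^ θ) m := by
        have h2 : mprod v m = mprod (fun p => if p ∈ Q then v p else 0) m :=
          mprod_congr (fun p hp hpm => by rw [if_pos (hmQ' p hp hpm)])
        rw [h2]
        apply mprod_mono
        · intro p
          split_ifs
          · exact hv0 p
          · exact le_rfl
        · intro p
          split_ifs with h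
          · exact hbθ p h
          · positivity
      rw [mprod_rpow θ hm0] at h1
      refine h1.trans (le_trans ?_ hK)
      apply Real.rpow_le_rpow (Nat.cast_nonneg m) _ hθ
      exact_mod_cast Nat.le_of_dvd (by omega) hmn
    -- a divisor of the right size
    have hex : ∃ d : ℕ, d ∣ m ∧ Z1 < (d : ℝ) := ⟨m, dvd_rfl, hc⟩
    obtain ⟨hd1, hd2⟩ := Nat.find_spec hex
    set d := Nat.find hex with hd
    have hd0 : d ≠ 0 := by
      intro h0
      rw [h0] at hd2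
      simp only [Nat.cast_zero] at hd2
      linarith
    have hdne1 : d ≠ 1 := by
      intro h0
      rw [h0] at hd2
      simp only [Nat.cast_one] at hd2
      linarith
    obtain ⟨q, hq, hqd⟩ := Nat.exists_prime_and_dvd hdne1
    obtain ⟨c, hcq⟩ := hqd
    have hqQ : q ∈ Q := hmQ' q hq ((Dvd.intro _ hcq.symm).trans hd1)
    have hc0 : c ≠ 0 := by
      intro h0
      rw [h0, mul_zero] at hcq
      exact hd0 hcq
    have hclt : c < d := by
      rw [hcq]
      have := hq.two_le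
      have : 1 ≤ c := by omega
      nlinarith
    have hcZ : (c : ℝ) ≤ Z1 := by
      by_contra h3
      push Not at h3
      exact Nat.find_min hex hclt ⟨(Dvd.intro_left q hcq.symm).trans hd1, h3⟩
    have h5 : (d : ℝ) ≤ Z2 := by
      rw [hcq]
      push_cast
      have h6 := hy q hqQ
      have h7 : (0 : ℝ) ≤ q := Nat.cast_nonneg q
      have h8 : (0 : ℝ) ≤ c := Nat.cast_nonneg c
      nlinarith
    have hdn : d ∣ n := hd1.trans hmn
    have e4 : (1 : ℝ) ≤ ∑ d ∈ D.filter (fun d : ℕ => Z1 < (d : ℝ) ∧ (d : ℝ) ≤ Z2),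
        (if d ∣ n then (1 : ℝ) else 0) := by
      have h9 := single_le_sum (f := fun d : ℕ => (if d ∣ n then (1 : ℝ) else 0))
        (s := D.filter (fun d : ℕ => Z1 < (d : ℝ) ∧ (d : ℝ) ≤ Z2))
        (fun s _ => by split_ifs <;> simp)
        (a := d) (by
          rw [mem_filter]
          exact ⟨hD d hdn (fun p hp hpd => hmQ' p hp (hpd.trans hd1)), hd2, h5⟩)
      simp only [if_pos hdn] at h9
      exact h9
    have e5 : K * 1 ≤ K * _ := mul_le_mul_of_nonneg_left e4 hK0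
    linarith

/-- (B) -/
theorem B_bound_c (E : Env) (hG : E.GBounds) : ∃ J : ℕ, 1 ≤ J ∧ ∀ j : ℕ, J ≤ j → ∀ i : ℕ, j ≤ i →
    ∀ k : ℕ, k < nc E.δ i → ∑ n ∈ cell E.δ i k, mprod (vh E j i) n ≤ 5 * hh E.δ i := by
  have hδ := E.hδ
  have hδt := E.hδ'
  have hτ := E.hτ
  have hτ' := E.hτ'
  obtain ⟨J0, hJ0, hJ⟩ := hG
  obtain ⟨J1, hJ1⟩ := large (E.τ / 16 - 9 * E.δ) 8 0 (by linarith)
  obtain ⟨J2, hJ2⟩ := large (1 / 5 - E.δ) 2 0 (by linarith)
  refine ⟨J0 + J1 + J2 + 9, by omega, fun j hj i hij k hk => ?_⟩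
  obtain ⟨-, -, g3, -, g5, -, g7, g8, -⟩ := hJ j (by omega)
  have hjR : (9 : ℝ) ≤ j := by exact_mod_cast (by omega : 9 ≤ j)
  have hh0 := hh_posR E.δ i
  set Q : Finset ℕ := (range (2 ^ i + 1)).filter (fun q : ℕ =>
    (q : ℝ) ≤ (2 : ℝ) ^ (1 / 20 * (i : ℝ)) ∧ E.gh j q ≠ 0) with hQ
  have hQp : ∀ q ∈ Q, q.Prime := by
    intro q hq
    rw [hQ, mem_filter] at hq
    exact (g5 q hq.2.2).1.1
  have hiR : (0 : ℝ) ≤ i := by positivity
  have hvQ : ∀ q ∈ Q, vh E j i q = 1 + 2 * (q * E.gh j q) := by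
    intro q hq
    rw [hQ, mem_filter] at hq
    unfold vh
    rw [if_pos hq.2.1]
  have hvnQ : ∀ q, q ∉ Q → vh E j i q = 1 := by
    intro q hq
    unfold vh
    split_ifs with h
    · have h1 : E.gh j q = 0 := by
        by_contra h2
        apply hq
        rw [hQ, mem_filter, mem_range]
        refine ⟨?_, h, h2⟩
        have h6 : (q : ℝ) ≤ 2 ^ i := by
          refine h.trans ?_
          rw [← Real.rpow_natCast]
          apply Real.rpow_le_rpow_of_exponent_le (by norm_num)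
          linarith
        have h7 : q ≤ 2 ^ i := by exact_mod_cast h6
        omega
      rw [h1]; ring
    · rfl
  have hv0 : ∀ q, 0 ≤ vh E j i q := by
    intro q
    have := g3 q
    unfold vh
    split_ifs <;> positivity
  have hv1 : ∀ q ∈ Q, 1 ≤ (q : ℝ) * E.gh j q := by
    intro q hq
    rw [hQ, mem_filter] at hq
    exact (g5 q hq.2.2).2.2
  have hq4 : ∀ q ∈ Q, (4 : ℝ) ≤ q := by
    intro q hq
    rw [hQ, mem_filter] at hq
    refine le_trans ?_ (g7 q hq.2.2).1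
    have : (4 : ℝ) = (2 : ℝ) ^ (2 : ℝ) := by norm_num
    rw [this]
    apply Real.rpow_le_rpow_of_exponent_le (by norm_num)
    linarith
  have hhalf : ∀ q ∈ Q, ∀ a : ℝ, a ≤ - (1 / 2) → (q : ℝ) ^ a ≤ 1 / 2 := by
    intro q hq a ha
    have h4 := hq4 q hq
    calc (q : ℝ) ^ a ≤ (q : ℝ) ^ (-(1 / 2) : ℝ) :=
          Real.rpow_le_rpow_of_exponent_le (by linarith) ha
      _ ≤ (4 : ℝ) ^ (-(1 / 2) : ℝ) :=
          Real.rpow_le_rpow_of_nonpos (by norm_num) h4 (by norm_num)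
      _ = 1 / 2 := by
          rw [show (4 : ℝ) = (2 : ℝ) ^ (2 : ℝ) by norm_num, ← Real.rpow_mul (by norm_num)]
          norm_num
  have hθ : ∀ q ∈ Q, vh E j i q ≤ (q : ℝ) ^ (9 * E.δ) := by
    intro q hq
    rw [hvQ q hq]
    rw [hQ, mem_filter] at hq
    exact (g7 q hq.2.2).2
  set Z1 : ℝ := (2 : ℝ) ^ (1 / 4 * (i : ℝ)) with hZ1
  set Z2 : ℝ := (2 : ℝ) ^ (3 / 10 * (i : ℝ)) with hZ2
  set K : ℝ := 2 * (2 : ℝ) ^ (9 * E.δ * i) with hK
  set D : Finset ℕ := (range (2 ^ (i + 1) + 1)).filter (fun d : ℕ =>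
    d ≠ 0 ∧ ∀ p : ℕ, p.Prime → p ∣ d → p ∈ Q) with hD
  set W1 := D.filter (fun d : ℕ => (d : ℝ) ≤ Z1) with hW1
  set W2 := D.filter (fun d : ℕ => Z1 < (d : ℝ) ∧ (d : ℝ) ≤ Z2) with hW2
  have hDmem : ∀ d ∈ D, d ≠ 0 ∧ ∀ p : ℕ, p.Prime → p ∣ d → p ∈ Q := fun d hd =>
    (mem_filter.1 hd).2
  have hZ12 : Z1 ≤ Z2 := by
    apply Real.rpow_le_rpow_of_exponent_le (by norm_num)
    linarith
  have hpt : ∀ n ∈ cell E.δ i k, mprod (vh E j i) n ≤
      ∑ d ∈ W1, mprod (vh E j i) d * (if d ∣ n then 1 else 0) +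
      K * ∑ d ∈ W2, (if d ∣ n then (1 : ℝ) else 0) := by
    intro n hn
    have hn2 := cell_sub hδ.le hk hn
    apply B_point_c (vh E j i) Q hv0 hvnQ (9 * E.δ) Z1 Z2 K ((2 : ℝ) ^ (1 / 20 * (i : ℝ)))
      (by linarith) hθ
    · intro q hq
      rw [hQ, mem_filter] at hq
      exact hq.2.1
    · exact Real.one_le_rpow (by norm_num) (by positivity)
    · rw [hZ1, hZ2, ← Real.rpow_add (by norm_num)]
      apply le_of_eq
      congr 1; ring
    · omega
    · intro d hdn hdQ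
      rw [hD, mem_filter, mem_range]
      have h1 := Nat.le_of_dvd (by omega) hdn
      refine ⟨by omega, ?_, hdQ⟩
      rintro rfl
      have := Nat.eq_zero_of_zero_dvd hdn
      omega
    · have hnR : (n : ℝ) ≤ (2 : ℝ) ^ ((i : ℝ) + 1) := by
        have : (n : ℝ) ≤ 2 ^ (i + 1) := by exact_mod_cast hn2.2
        rw [← Real.rpow_natCast] at this
        push_cast at this
        exact this
      calc (n : ℝ) ^ (9 * E.δ) ≤ ((2 : ℝ) ^ ((i : ℝ) + 1)) ^ (9 * E.δ) :=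
            Real.rpow_le_rpow (by positivity) hnR (by linarith)
        _ = (2 : ℝ) ^ (((i : ℝ) + 1) * (9 * E.δ)) := by rw [← Real.rpow_mul (by norm_num)]
        _ ≤ (2 : ℝ) ^ (1 + 9 * E.δ * i) := by
            apply Real.rpow_le_rpow_of_exponent_le (by norm_num)
            nlinarith
        _ = K := by rw [hK, Real.rpow_add (by norm_num), Real.rpow_one]
  refine (sum_le_sum hpt).trans ?_
  rw [sum_add_distrib, ← mul_sum, sum_comm (s := cell E.δ i k) (t := W1),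
    sum_comm (s := cell E.δ i k) (t := W2)]
  -- counting
  have hZ2h : Z2 ≤ hh E.δ i := by
    have h1 := hJ2 i (by omega)
    rw [pow_zero, mul_one] at h1
    have h2 := lt_hh (δ := E.δ) i
    have h3 : Z2 * (2 : ℝ) ^ ((1 / 5 - E.δ) * i) = (2 : ℝ) ^ ((1 / 2 - E.δ) * i) := by
      rw [hZ2, ← Real.rpow_add (by norm_num)]
      congr 1; ring
    have h4 : (0 : ℝ) < Z2 := by positivity
    nlinarith
  have hcount : ∀ d ∈ D, (d : ℝ) ≤ Z2 →
      ∑ n ∈ cell E.δ i k, (if d ∣ n then (1 : ℝ) else 0) ≤ 2 * hh E.δ i / (d : ℝ) := by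
    intro d hd hle
    have hpos : 0 < d := Nat.pos_of_ne_zero (hDmem d hd).1
    have hposR : (0 : ℝ) < (d : ℝ) := by exact_mod_cast hpos
    rw [sum_boole]
    have h1 := card_mult (2 ^ i + k * hh E.δ i) (hh E.δ i) d hpos
    have h2 : cell E.δ i k = Ioc (2 ^ i + k * hh E.δ i) (2 ^ i + k * hh E.δ i + hh E.δ i) := by
      unfold cell
      congr 1; ring
    rw [h2]
    refine h1.trans ?_
    have h3 : (1 : ℝ) ≤ hh E.δ i / (d : ℝ) := by
      rw [le_div_iff₀ hposR, one_mul]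
      exact hle.trans hZ2h
    have h4 : 2 * (hh E.δ i : ℝ) / (d : ℝ) =
        hh E.δ i / (d : ℝ) + hh E.δ i / (d : ℝ) := by ring
    rw [h4]
    linarith
  have hexp1 : Real.exp (2 * (3 / j)) ≤ 2 := by
    have h1 : (3 : ℝ) / j ≤ 3 / 9 := div_le_div_of_nonneg_left (by norm_num) (by norm_num) hjR
    calc Real.exp (2 * (3 / j)) ≤ Real.exp (Real.log 2) := by
          apply Real.exp_le_exp.2
          have := Real.log_two_gt_d9
          linarith
      _ = 2 := Real.exp_log (by norm_num)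
  have hexp2 : Real.exp (2 * (1 / j)) ≤ 2 := by
    refine le_trans (Real.exp_le_exp.2 ?_) hexp1
    have : (1 : ℝ) / j ≤ 3 / j := by gcongr; norm_num
    linarith
  have g8Q := g8 Q
  -- first sum
  have hS1 : ∑ d ∈ W1, ∑ n ∈ cell E.δ i k,
      mprod (vh E j i) d * (if d ∣ n then (1 : ℝ) else 0) ≤ 4 * hh E.δ i := by
    have h1 : ∀ d ∈ W1, ∑ n ∈ cell E.δ i k,
        mprod (vh E j i) d * (if d ∣ n then (1 : ℝ) else 0) ≤
        2 * hh E.δ i * mprod (fun q => vh E j i q / q) d := by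
      intro d hd
      rw [hW1, mem_filter] at hd
      rw [← mul_sum]
      have h2 := hcount d hd.1 (hd.2.trans hZ12)
      have h3 : 0 ≤ mprod (vh E j i) d := mprod_nonneg _ hv0 d
      refine (mul_le_mul_of_nonneg_left h2 h3).trans (le_of_eq ?_)
      have h4 : mprod (fun q => vh E j i q / q) d = mprod (vh E j i) d * (d : ℝ)⁻¹ := by
        have h5 := mprod_mul_fun (vh E j i) (fun q => (q : ℝ) ^ (-1 : ℝ)) d
        rw [mprod_rpow (-1) (hDmem d hd.1).1, Real.rpow_neg_one] at h5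
        rw [← h5]
        apply mprod_congr
        intro p _ _
        rw [Real.rpow_neg_one, div_eq_mul_inv]
      rw [h4]
      ring
    refine (sum_le_sum h1).trans ?_
    rw [← mul_sum]
    have h5 := sum_mprod_le Q (fun q => vh E j i q / q) hQp
      (fun q _ => div_nonneg (hv0 q) (Nat.cast_nonneg q))
      (fun q hq => by
        have h6 := hq4 q hq
        have h7 := hθ q hq
        have h8 := hhalf q hq (9 * E.δ - 1) (by linarith)
        rw [Real.rpow_sub (by linarith), Real.rpow_one] at h8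
        refine le_trans ?_ h8
        gcongr)
      W1 (fun d hd => hDmem d (mem_filter.1 hd).1)
    have h6 : ∑ q ∈ Q, vh E j i q / q ≤ 3 / j := by
      have h7 : ∀ q ∈ Q, vh E j i q / q ≤ 3 * ((q * E.gh j q) * (q : ℝ) ^ (-1 + E.τ / 4)) := by
        intro q hq
        have h8 := hq4 q hq
        have h9 : (q : ℝ) ^ (-1 + E.τ / 4) ≥ (q : ℝ)⁻¹ := by
          rw [← Real.rpow_neg_one]
          apply Real.rpow_le_rpow_of_exponent_le (by linarith)
          linarith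
        have h10 := hv1 q hq
        rw [hvQ q hq, div_eq_mul_inv]
        have h11 : (0 : ℝ) ≤ (q : ℝ)⁻¹ := by positivity
        calc (1 + 2 * ((q : ℝ) * E.gh j q)) * (q : ℝ)⁻¹ ≤ (3 * (q * E.gh j q)) * (q : ℝ)⁻¹ := by
              apply mul_le_mul_of_nonneg_right _ h11
              linarith
          _ ≤ (3 * (q * E.gh j q)) * (q : ℝ) ^ (-1 + E.τ / 4) := by
              apply mul_le_mul_of_nonneg_left h9
              linarith
          _ = _ := by ring
      refine (sum_le_sum h7).trans ?_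
      rw [← mul_sum]
      have h11 : (3 : ℝ) / j = 3 * (1 / j) := by ring
      rw [h11]
      exact mul_le_mul_of_nonneg_left g8Q (by norm_num)
    have h12 : ∑ d ∈ W1, mprod (fun q => vh E j i q / q) d ≤ 2 :=
      h5.trans (le_trans (Real.exp_le_exp.2 (by linarith)) hexp1)
    nlinarith
  -- second sum
  have hS2 : K * ∑ d ∈ W2, ∑ n ∈ cell E.δ i k, (if d ∣ n then (1 : ℝ) else 0) ≤
      hh E.δ i := by
    have h1 : ∀ d ∈ W2, ∑ n ∈ cell E.δ i k, (if d ∣ n then (1 : ℝ) else 0) ≤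
        2 * hh E.δ i * (2 : ℝ) ^ (-(E.τ / 16) * (i : ℝ)) *
          mprod (fun q => (q : ℝ) ^ (-1 + E.τ / 4)) d := by
      intro s hs
      rw [hW2, mem_filter] at hs
      obtain ⟨hs1, hs2, hs3⟩ := hs
      refine (hcount s hs1 hs3).trans ?_
      rw [mprod_rpow _ (hDmem s hs1).1]
      set d : ℝ := (s : ℝ) with hdd
      have hZpos : (0 : ℝ) < Z1 := by positivity
      have hdpos : 0 < d := hZpos.trans hs2
      have h2 : d ^ (-1 + E.τ / 4) = d⁻¹ * d ^ (E.τ / 4) := by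
        rw [Real.rpow_add hdpos, Real.rpow_neg_one]
      have h3 : (2 : ℝ) ^ (E.τ / 16 * (i : ℝ)) ≤ d ^ (E.τ / 4) := by
        have h4 : (2 : ℝ) ^ (E.τ / 16 * (i : ℝ)) = Z1 ^ (E.τ / 4) := by
          rw [hZ1, ← Real.rpow_mul (by norm_num)]
          congr 1; ring
        rw [h4]
        exact Real.rpow_le_rpow hZpos.le hs2.le (by linarith)
      have h5 : (2 : ℝ) ^ (-(E.τ / 16) * (i : ℝ)) * (2 : ℝ) ^ (E.τ / 16 * (i : ℝ)) = 1 := by
        rw [← Real.rpow_add (by norm_num)]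
        rw [show -(E.τ / 16) * (i : ℝ) + E.τ / 16 * (i : ℝ) = 0 by ring, Real.rpow_zero]
      rw [h2]
      have h6 : 2 * (hh E.δ i : ℝ) / d = 2 * hh E.δ i * d⁻¹ *
          ((2 : ℝ) ^ (-(E.τ / 16) * (i : ℝ)) * (2 : ℝ) ^ (E.τ / 16 * (i : ℝ))) := by
        rw [h5]; ring
      rw [h6]
      have h7 : 2 * (hh E.δ i : ℝ) * d⁻¹ *
          ((2 : ℝ) ^ (-(E.τ / 16) * (i : ℝ)) * (2 : ℝ) ^ (E.τ / 16 * (i : ℝ))) ≤
          2 * (hh E.δ i : ℝ) * d⁻¹ *
          ((2 : ℝ) ^ (-(E.τ / 16) * (i : ℝ)) * d ^ (E.τ / 4)) := by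
        apply mul_le_mul_of_nonneg_left _ (by positivity)
        exact mul_le_mul_of_nonneg_left h3 (by positivity)
      refine h7.trans (le_of_eq ?_)
      ring
    have h2 : ∑ d ∈ W2, ∑ n ∈ cell E.δ i k, (if d ∣ n then (1 : ℝ) else 0) ≤
        2 * hh E.δ i * (2 : ℝ) ^ (-(E.τ / 16) * (i : ℝ)) * 2 := by
      refine (sum_le_sum h1).trans ?_
      rw [← mul_sum]
      apply mul_le_mul_of_nonneg_left _ (by positivity)
      have h5 := sum_mprod_le Q (fun q => (q : ℝ) ^ (-1 + E.τ / 4)) hQp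
        (fun q _ => by positivity)
        (fun q hq => hhalf q hq _ (by linarith))
        W2 (fun d hd => hDmem d (mem_filter.1 hd).1)
      have h6 : ∑ q ∈ Q, (q : ℝ) ^ (-1 + E.τ / 4) ≤ 1 / j := by
        refine le_trans (sum_le_sum ?_) g8Q
        intro q hq
        have h7 := hv1 q hq
        have h8 : 0 ≤ (q : ℝ) ^ (-1 + E.τ / 4) := by positivity
        nlinarith
      exact h5.trans ((Real.exp_le_exp.2 (by linarith)).trans hexp2)
    have hbig := hJ1 i (by omega)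
    rw [pow_zero, mul_one] at hbig
    have h3 : (2 : ℝ) ^ (9 * E.δ * i) * (2 : ℝ) ^ ((E.τ / 16 - 9 * E.δ) * i) *
        (2 : ℝ) ^ (-(E.τ / 16) * (i : ℝ)) = 1 := by
      rw [← Real.rpow_add (by norm_num), ← Real.rpow_add (by norm_num)]
      rw [show 9 * E.δ * i + (E.τ / 16 - 9 * E.δ) * i + -(E.τ / 16) * (i : ℝ) = 0 by ring,
        Real.rpow_zero]
    have hKpos : 0 ≤ K := by positivity
    refine (mul_le_mul_of_nonneg_left h2 hKpos).trans ?_
    rw [hK]
    have h4 : 2 * (2 : ℝ) ^ (9 * E.δ * i) * (2 * hh E.δ i * (2 : ℝ) ^ (-(E.τ / 16) * (i : ℝ)) * 2)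
        = hh E.δ i * ((2 : ℝ) ^ (9 * E.δ * i) * 8 * (2 : ℝ) ^ (-(E.τ / 16) * (i : ℝ))) := by ring
    rw [h4]
    have h5 : (2 : ℝ) ^ (9 * E.δ * i) * 8 * (2 : ℝ) ^ (-(E.τ / 16) * (i : ℝ)) ≤ 1 := by
      rw [← h3]
      apply mul_le_mul_of_nonneg_right _ (by positivity)
      exact mul_le_mul_of_nonneg_left hbig (by positivity)
    nlinarith
  linarith

/-- task SPc -/
theorem SP_c : Pool.Agent.TH927.CM.T_SPc := by
  intro E hG
  obtain ⟨JA, -, hA⟩ := A_bound_c E hG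
  obtain ⟨JB, -, hB⟩ := B_bound_c E hG
  obtain ⟨J0, hJ0, hJ⟩ := hG
  refine ⟨JA + JB + J0 + 3, fun j hj i hij k hk => ?_⟩
  have hA' := hA j (by omega) i hij
  have hB' := hB j (by omega) i hij k hk
  have hδ := E.hδ
  have hiR : (3 : ℝ) ≤ i := by exact_mod_cast (by omega : 3 ≤ i)
  have hgu := gu_nonneg E j
  have hgh := gh_nonneg E j
  have hvh0 : ∀ p, 0 ≤ vh E j i p := by
    intro p
    have := hgh p
    unfold vh
    split_ifs <;> positivity
  set a : ℝ := (2 : ℝ) ^ (E.δ / 2 * i) / (i : ℝ) ^ 50 with ha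
  have hapos : 0 < a := by positivity
  have h1 : ∀ n ∈ cell E.δ i k,
      (1 / (n : ℝ)) * mprod (fun p => 1 + 2 * (p * E.gs j i p)) n ≤
        (1 / 2 ^ i * a) * mprod (vh E j i) n := by
    intro n hn
    have hn2 := cell_sub hδ.le hk hn
    have hnR : (2 : ℝ) ^ i ≤ n := by exact_mod_cast hn2.1.le
    have h2 : mprod (fun p => 1 + 2 * (p * E.gs j i p)) n ≤
        mprod (vu E j i) n * mprod (vh E j i) n := by
      rw [← mprod_mul_fun]
      apply mprod_mono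
      · intro p
        unfold Env.gs
        have h3 := hgu p
        have h4 := hgh p
        split_ifs <;> positivity
      · intro p
        unfold Env.gs vu vh
        have h3 : 0 ≤ (p : ℝ) * E.gu j p := mul_nonneg (Nat.cast_nonneg p) (hgu p)
        have h4 : 0 ≤ (p : ℝ) * E.gh j p := mul_nonneg (Nat.cast_nonneg p) (hgh p)
        split_ifs
        · nlinarith [mul_nonneg h3 h4]
        · nlinarith
        · nlinarith
        · nlinarith
    have h5 := hA' n (by omega) hn2.2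
    have hB0 : 0 ≤ mprod (vh E j i) n := mprod_nonneg _ hvh0 n
    have h6 : mprod (fun p => 1 + 2 * (p * E.gs j i p)) n ≤ a * mprod (vh E j i) n :=
      h2.trans (mul_le_mul_of_nonneg_right h5 hB0)
    have h7 : 1 / (n : ℝ) ≤ 1 / 2 ^ i := one_div_le_one_div_of_le (by positivity) hnR
    calc (1 / (n : ℝ)) * mprod (fun p => 1 + 2 * (p * E.gs j i p)) n ≤
        (1 / (n : ℝ)) * (a * mprod (vh E j i) n) :=
          mul_le_mul_of_nonneg_left h6 (by positivity)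
      _ ≤ (1 / 2 ^ i) * (a * mprod (vh E j i) n) :=
          mul_le_mul_of_nonneg_right h7 (mul_nonneg hapos.le hB0)
      _ = _ := by ring
  refine (sum_le_sum h1).trans ?_
  rw [← mul_sum]
  have h3 : (1 / 2 ^ i * a) * ∑ n ∈ cell E.δ i k, mprod (vh E j i) n ≤
      (1 / 2 ^ i * a) * (5 * hh E.δ i) :=
    mul_le_mul_of_nonneg_left hB' (by positivity)
  refine h3.trans ?_
  have h4 := hh_le (δ_half E) i
  have h5 : (1 / 2 ^ i * a) * (5 * hh E.δ i) ≤
      (1 / 2 ^ i * a) * (5 * (2 : ℝ) ^ ((1 / 2 - E.δ) * i)) := by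
    apply mul_le_mul_of_nonneg_left _ (by positivity)
    linarith
  refine h5.trans ?_
  have h6 : (1 / 2 ^ i * a) * (5 * (2 : ℝ) ^ ((1 / 2 - E.δ) * i)) = 5 / (i : ℝ) ^ 10 * E.w i := by
    unfold Env.w
    have e1 : (2 : ℝ) ^ (-(1 / 2 + E.δ / 2) * (i : ℝ)) * (2 : ℝ) ^ i =
      (2 : ℝ) ^ ((1 / 2 - E.δ) * i) * (2 : ℝ) ^ (E.δ / 2 * i) := exp_id1 E i
    rw [ha]
    have e2 : (1 / 2 ^ i * ((2 : ℝ) ^ (E.δ / 2 * i) / (i : ℝ) ^ 50)) *
        (5 * (2 : ℝ) ^ ((1 / 2 - E.δ) * i)) = 5 / (i : ℝ) ^ 50 *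
        (((2 : ℝ) ^ ((1 / 2 - E.δ) * i) * (2 : ℝ) ^ (E.δ / 2 * i)) / 2 ^ i) := by ring
    rw [e2, ← e1]
    field_simp
  rw [h6]
  have h7 : 5 / (i : ℝ) ^ 10 ≤ 1 / 16 := by
    rw [div_le_div_iff₀ (by positivity) (by norm_num)]
    have : (3 : ℝ) ^ 10 ≤ (i : ℝ) ^ 10 := pow_le_pow_left₀ (by norm_num) hiR 10
    linarith
  have h8 := w_nonneg E i
  have h9 := mul_le_mul_of_nonneg_right h7 h8
  linarith

end Pool.Agent.TH761.J883
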